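import Mathlib

open MeasureTheory Set Filter Topology Real

namespace Pool.Agent.Helper46.MaxExp

lemma slope_exp {x y : ℝ} (hx : x ≠ 0) (hy : y ≠ 0) (hxy : x < y) :
    (exp x - 1) / x < (exp y - 1) / y := by
  have h := strictConvexOn_exp.secant_strict_mono (a := 0) (x := x) (y := y)
    (mem_univ _) (mem_univ _) (mem_univ _) hx hy hxy
  simpa using h

lemma exp_sub_one_pos {x : ℝ} (hx : 0 < x) : 0 < exp x - 1 := by
  have := Real.add_one_lt_exp hx.ne'
  linarith

/-- `x / (exp x - 1)` is strictly decreasing. -/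
lemma b_anti {x y : ℝ} (hx : 0 < x) (hxy : x < y) : y / (exp y - 1) < x / (exp x - 1) := by
  have hy : 0 < y := hx.trans hxy
  have h := slope_exp hx.ne' hy.ne' hxy
  have h1 := exp_sub_one_pos hx
  have h2 := exp_sub_one_pos hy
  rw [div_lt_div_iff₀ hx hy] at h
  rw [div_lt_div_iff₀ h2 h1]
  linarith

lemma one_sub_exp_neg_pos {x : ℝ} (hx : 0 < x) : 0 < 1 - exp (-x) := by
  have : exp (-x) < 1 := by
    have := Real.exp_lt_exp.mpr (show -x < 0 by linarith)
    rwa [Real.exp_zero] at this
  linarith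

/-- `x / (1 - exp (-x))` is strictly increasing. -/
lemma l_mono {x y : ℝ} (hx : 0 < x) (hxy : x < y) :
    x / (1 - exp (-x)) < y / (1 - exp (-y)) := by
  have hy : 0 < y := hx.trans hxy
  have h := slope_exp (x := -y) (y := -x) (by linarith) (by linarith) (by linarith)
  have h1 := one_sub_exp_neg_pos hx
  have h2 := one_sub_exp_neg_pos hy
  have e1 : (exp (-y) - 1) / (-y) = (1 - exp (-y)) / y := by
    rw [← neg_sub, neg_div_neg_eq]
  have e2 : (exp (-x) - 1) / (-x) = (1 - exp (-x)) / x := by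
    rw [← neg_sub, neg_div_neg_eq]
  rw [e1, e2, div_lt_div_iff₀ hy hx] at h
  rw [div_lt_div_iff₀ h1 h2]
  linarith

/-- `b x = x/(e^x-1)` in terms of `e^{-x}`. -/
lemma b_eq {x : ℝ} (hx : 0 < x) : x / (exp x - 1) = x * exp (-x) / (1 - exp (-x)) := by
  have h1 := exp_sub_one_pos hx
  have h2 := one_sub_exp_neg_pos hx
  rw [div_eq_div_iff h1.ne' h2.ne']
  have h3 : exp x * exp (-x) = 1 := by rw [← exp_add]; simp
  linear_combination (-x) * h3

lemma exp_half_bound {x : ℝ} (hx : 0 < x) : x * exp (x / 2) ≤ exp x - 1 := by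
  -- e^x - 1 = e^{x/2} (e^{x/2} - e^{-x/2}) ≥ e^{x/2} x
  have h1 : x / 2 + 1 ≤ exp (x / 2) := Real.add_one_le_exp _
  have h3 : 2 * (x / 2) ≤ exp (x / 2) - exp (-(x / 2)) := by
    have := Real.self_le_sinh_iff.mpr (show (0 : ℝ) ≤ x / 2 by positivity)
    rw [Real.sinh_eq] at this
    linarith
  have h4 : exp (x / 2) * exp (x / 2) = exp x := by rw [← exp_add]; ring_nf
  have h5 : exp (x / 2) * exp (-(x / 2)) = 1 := by rw [← exp_add]; simp
  have h6 : exp (x / 2) * (2 * (x / 2)) ≤ exp (x / 2) * (exp (x / 2) - exp (-(x / 2))) :=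
    mul_le_mul_of_nonneg_left h3 (exp_pos _).le
  nlinarith

lemma b_bound {x : ℝ} (hx : 0 < x) : x / (exp x - 1) ≤ exp (-(x / 2)) := by
  have h1 := exp_sub_one_pos hx
  rw [div_le_iff₀ h1]
  have h2 := exp_half_bound hx
  have h5 : exp (x / 2) * exp (-(x / 2)) = 1 := by rw [← exp_add]; simp
  have h7 := exp_pos (-(x / 2))
  have h8 : exp (-(x / 2)) * (x * exp (x / 2)) ≤ exp (-(x / 2)) * (exp x - 1) :=
    mul_le_mul_of_nonneg_left h2 h7.le
  nlinarith

lemma b_pos {x : ℝ} (hx : 0 < x) : 0 < x / (exp x - 1) := div_pos hx (exp_sub_one_pos hx)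

lemma l_le {x : ℝ} (hx : 0 < x) : x / (1 - exp (-x)) ≤ 1 + x := by
  have h2 := one_sub_exp_neg_pos hx
  rw [div_le_iff₀ h2]
  have h1 : x + 1 ≤ exp x := Real.add_one_le_exp _
  have h3 : exp x * exp (-x) = 1 := by rw [← exp_add]; simp
  have h4 := exp_pos (-x)
  nlinarith

lemma l_ge_one {x : ℝ} (hx : 0 < x) : 1 ≤ x / (1 - exp (-x)) := by
  have h2 := one_sub_exp_neg_pos hx
  rw [le_div_iff₀ h2]
  have h1 : -x + 1 ≤ exp (-x) := Real.add_one_le_exp _
  linarith

/-- Ratio monotonicity of one factor. -/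
lemma factor_ratio_mono {u v s t : ℝ} (hu : 0 < u) (huv : u < v) (hs : 0 < s) (hst : s < t) :
    (1 - exp (-(u * s))) / (1 - exp (-(v * s))) < (1 - exp (-(u * t))) / (1 - exp (-(v * t))) := by
  have hv : 0 < v := hu.trans huv
  -- derivative positivity
  let g : ℝ → ℝ := fun s => (1 - exp (-(u * s))) / (1 - exp (-(v * s)))
  have hg : StrictMonoOn g (Ioi 0) := by
    apply strictMonoOn_of_deriv_pos (convex_Ioi 0)
    · apply ContinuousOn.div
      · fun_prop
      · fun_prop
      · intro x hx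
        exact (one_sub_exp_neg_pos (mul_pos hv hx)).ne'
    · intro x hx
      rw [interior_Ioi] at hx
      have hx0 : 0 < x := hx
      have hux : 0 < u * x := mul_pos hu hx0
      have hvx : 0 < v * x := mul_pos hv hx0
      have d1 : HasDerivAt (fun s => 1 - exp (-(u * s))) (u * exp (-(u * x))) x := by
        have h1 : HasDerivAt (fun s : ℝ => -(u * s)) (-u) x := by
          simpa using ((hasDerivAt_id x).const_mul u).fun_neg
        have h2 := (h1.exp).const_sub 1
        have e : -(exp (-(u * x)) * -u) = u * exp (-(u * x)) := by ring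
        rw [e] at h2
        exact h2
      have d2 : HasDerivAt (fun s => 1 - exp (-(v * s))) (v * exp (-(v * x))) x := by
        have h1 : HasDerivAt (fun s : ℝ => -(v * s)) (-v) x := by
          simpa using ((hasDerivAt_id x).const_mul v).fun_neg
        have h2 := (h1.exp).const_sub 1
        have e : -(exp (-(v * x)) * -v) = v * exp (-(v * x)) := by ring
        rw [e] at h2
        exact h2
      have hne := (one_sub_exp_neg_pos hvx).ne'
      have d3 := (d1.fun_div d2 hne).deriv
      show 0 < deriv g x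
      rw [show deriv g x = _ from d3]
      apply div_pos _ (by positivity)
      have hb := b_anti hux (by nlinarith : u * x < v * x)
      rw [b_eq hux, b_eq hvx, div_lt_div_iff₀ (one_sub_exp_neg_pos hvx) (one_sub_exp_neg_pos hux)] at hb
      have : 0 < x * (u * exp (-(u * x)) * (1 - exp (-(v * x))) -
          (1 - exp (-(u * x))) * (v * exp (-(v * x)))) := by nlinarith
      exact (mul_pos_iff_of_pos_left hx0).mp this
  exact hg hs (hs.trans hst) hst

end Pool.Agent.Helper46.MaxExp
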