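import Pool.Agent.Helper46.MaxExpA

open MeasureTheory Set Filter Topology Real

namespace Pool.Agent.Helper46.MaxExp

variable {ι : Type*}

/-- The product `∏ (1 - exp(-a_i m))`. -/
noncomputable def FF (s : Finset ι) (a : ι → ℝ) (m : ℝ) : ℝ := ∏ i ∈ s, (1 - exp (-(a i * m)))

variable {s : Finset ι} {a : ι → ℝ}

lemma FF_pos (ha : ∀ i ∈ s, 0 < a i) {m : ℝ} (hm : 0 < m) : 0 < FF s a m :=
  Finset.prod_pos (fun i hi => one_sub_exp_neg_pos (mul_pos (ha i hi) hm))

lemma FF_le_one (ha : ∀ i ∈ s, 0 < a i) {m : ℝ} (hm : 0 < m) : FF s a m ≤ 1 := by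
  apply Finset.prod_le_one
  · intro i hi
    exact (one_sub_exp_neg_pos (mul_pos (ha i hi) hm)).le
  · intro i hi
    have := exp_pos (-(a i * m))
    linarith

lemma FF_continuous : Continuous (FF s a) := by
  unfold FF
  fun_prop

/-- kernel `k t = t / (e^t - 1)`. -/
noncomputable def kk (t : ℝ) : ℝ := t / (exp t - 1)

/-- `l t = t / (1 - e^{-t})`. -/
noncomputable def ll (t : ℝ) : ℝ := t / (1 - exp (-t))

lemma kk_continuousOn : ContinuousOn kk (Ioi 0) := by
  unfold kk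
  apply ContinuousOn.div
  · fun_prop
  · fun_prop
  · intro x hx
    exact (exp_sub_one_pos hx).ne'

lemma ll_continuousOn : ContinuousOn ll (Ioi 0) := by
  unfold ll
  apply ContinuousOn.div
  · fun_prop
  · fun_prop
  · intro x hx
    exact (one_sub_exp_neg_pos hx).ne'

lemma kk_bound {t : ℝ} (ht : 0 < t) : |kk t * (3 - ll t)| ≤ 8 * exp (-(t / 4)) := by
  have h1 : 0 < kk t := b_pos ht
  have h2 : kk t ≤ exp (-(t / 2)) := b_bound ht
  have h3 : 1 ≤ ll t := l_ge_one ht
  have h4 : ll t ≤ 1 + t := l_le ht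
  have h5 : |3 - ll t| ≤ 2 + t := by
    rw [abs_le]
    constructor <;> linarith
  have h6 : 2 + t ≤ 4 * exp (t / 4) + 4 := by
    have := Real.add_one_le_exp (t / 4)
    linarith
  have h7 : 1 ≤ exp (t / 4) := Real.one_le_exp (by positivity)
  have h8 : exp (-(t / 2)) * exp (t / 4) = exp (-(t / 4)) := by
    rw [← exp_add]
    congr 1
    ring
  rw [abs_mul, abs_of_pos h1]
  calc kk t * |3 - ll t| ≤ exp (-(t / 2)) * (8 * exp (t / 4)) := by
        apply mul_le_mul h2 _ (abs_nonneg _) (exp_pos _).le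
        linarith
    _ = 8 * exp (-(t / 4)) := by rw [← h8]; ring

lemma integrable_exp_neg_quarter {c : ℝ} (hc : 0 < c) (C : ℝ) :
    IntegrableOn (fun t : ℝ => C * exp (-(t * c))) (Ioi 0) := by
  have h := integrableOn_exp_mul_Ioi (a := -c) (by linarith) 0
  have h2 : IntegrableOn (fun t : ℝ => exp (-(t * c))) (Ioi 0) := by
    refine h.congr_fun (fun t _ => ?_) measurableSet_Ioi
    simp only
    congr 1
    ring
  exact h2.const_mul C

/-- `N c = ∫ k(t) (3 - l(t)) F(t/c) dt`. -/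
noncomputable def NN (s : Finset ι) (a : ι → ℝ) (c : ℝ) : ℝ :=
  ∫ t in Ioi 0, kk t * (3 - ll t) * FF s a (t / c)

lemma NN_integrable (ha : ∀ i ∈ s, 0 < a i) {c : ℝ} (hc : 0 < c) :
    IntegrableOn (fun t => kk t * (3 - ll t) * FF s a (t / c)) (Ioi 0) := by
  have hint := integrable_exp_neg_quarter (c := 1 / 4) (by norm_num) 8
  apply Integrable.mono' hint
  · apply ContinuousOn.aestronglyMeasurable _ measurableSet_Ioi
    apply ContinuousOn.mul
    · exact kk_continuousOn.mul (continuousOn_const.sub ll_continuousOn)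
    · exact (FF_continuous.comp (continuous_id.div_const c)).continuousOn
  · filter_upwards [ae_restrict_mem measurableSet_Ioi] with t ht
    have ht0 : 0 < t := ht
    rw [norm_mul, Real.norm_eq_abs, Real.norm_eq_abs]
    have h1 := kk_bound ht0
    have h2 : |FF s a (t / c)| ≤ 1 := by
      rw [abs_of_pos (FF_pos ha (div_pos ht0 hc))]
      exact FF_le_one ha (div_pos ht0 hc)
    calc |kk t * (3 - ll t)| * |FF s a (t / c)| ≤ (8 * exp (-(t / 4))) * 1 := by
          apply mul_le_mul h1 h2 (abs_nonneg _)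
          positivity
      _ = 8 * exp (-(t * (1 / 4))) := by
          rw [mul_one]
          congr 2
          ring

/-- The crossing point. -/
lemma exists_t0 : ∃ t0 : ℝ, 0 < t0 ∧ ll t0 = 3 := by
  have hc : ContinuousOn ll (Icc 1 4) := ll_continuousOn.mono (fun x hx => by
    have : (1 : ℝ) ≤ x := hx.1
    exact lt_of_lt_of_le one_pos this)
  have h1 : ll 1 ≤ 3 := by
    have := l_le (x := 1) one_pos
    unfold ll
    linarith
  have h4 : 3 ≤ ll 4 := by
    unfold ll
    have h2 := one_sub_exp_neg_pos (x := 4) (by norm_num)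
    rw [le_div_iff₀ h2]
    have := exp_pos (-4)
    linarith
  obtain ⟨t, ht, hlt⟩ := intermediate_value_Icc (by norm_num : (1 : ℝ) ≤ 4) hc ⟨h1, h4⟩
  exact ⟨t, by linarith [ht.1], hlt⟩

lemma ratio_lt (hs : s.Nonempty) (ha : ∀ i ∈ s, 0 < a i) {c₁ c₂ : ℝ} (hc₁ : 0 < c₁) (hc : c₁ < c₂)
    {t t' : ℝ} (ht : 0 < t) (htt' : t < t') :
    FF s a (t / c₂) / FF s a (t / c₁) < FF s a (t' / c₂) / FF s a (t' / c₁) := by
  have hc₂ : 0 < c₂ := hc₁.trans hc
  unfold FF
  rw [← Finset.prod_div_distrib, ← Finset.prod_div_distrib]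
  apply Finset.prod_lt_prod_of_nonempty _ _ hs
  · intro i hi
    exact div_pos (one_sub_exp_neg_pos (mul_pos (ha i hi) (div_pos ht hc₂)))
      (one_sub_exp_neg_pos (mul_pos (ha i hi) (div_pos ht hc₁)))
  · intro i hi
    have h := factor_ratio_mono (u := a i / c₂) (v := a i / c₁) (s := t) (t := t')
      (div_pos (ha i hi) hc₂) (div_lt_div_of_pos_left (ha i hi) hc₁ hc) ht htt'
    have e : ∀ (c t : ℝ), a i * (t / c) = a i / c * t := fun c t => by ring
    rw [e c₂ t, e c₁ t, e c₂ t', e c₁ t']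
    exact h

/-- Single crossing: `N c₁ ≤ 0` implies `N c₂ < 0` for `c₁ < c₂`. -/
lemma NN_crossing (hs : s.Nonempty) (ha : ∀ i ∈ s, 0 < a i) {c₁ c₂ : ℝ} (hc₁ : 0 < c₁)
    (hc : c₁ < c₂) (h1 : NN s a c₁ ≤ 0) : NN s a c₂ < 0 := by
  have hc₂ : 0 < c₂ := hc₁.trans hc
  obtain ⟨t0, ht0, hl0⟩ := exists_t0
  set ρ : ℝ → ℝ := fun t => FF s a (t / c₂) / FF s a (t / c₁) with hρ
  have hρpos : 0 < ρ t0 := div_pos (FF_pos ha (div_pos ht0 hc₂)) (FF_pos ha (div_pos ht0 hc₁))
  have i1 := NN_integrable ha hc₁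
  have i2 := NN_integrable ha hc₂
  -- the integrand of `ρ t0 * N c₁ - N c₂`
  set D : ℝ → ℝ := fun t => ρ t0 * (kk t * (3 - ll t) * FF s a (t / c₁)) -
    kk t * (3 - ll t) * FF s a (t / c₂) with hD
  have hDint : IntegrableOn D (Ioi 0) := (i1.const_mul _).sub i2
  have hDeq : ∀ t ∈ Ioi (0 : ℝ), D t = kk t * (3 - ll t) * FF s a (t / c₁) * (ρ t0 - ρ t) := by
    intro t ht
    have hne := (FF_pos ha (div_pos ht hc₁)).ne'
    simp only [hD, hρ]
    field_simp
  have hDpos : ∀ t ∈ Ioi (0 : ℝ), t ≠ t0 → 0 < D t := by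
    intro t ht hne
    have ht' : 0 < t := ht
    rw [hDeq t ht]
    have hk := b_pos ht'
    have hF := FF_pos ha (div_pos ht' hc₁)
    rcases lt_or_gt_of_ne hne with hlt | hgt
    · have e1 : ll t < 3 := by rw [← hl0]; exact l_mono ht' hlt
      have e2 : ρ t < ρ t0 := ratio_lt hs ha hc₁ hc ht' hlt
      have e3 : 0 < kk t := hk
      exact mul_pos (mul_pos (mul_pos e3 (by linarith)) hF) (by linarith)
    · have e1 : 3 < ll t := by rw [← hl0]; exact l_mono ht0 hgt
      have e2 : ρ t0 < ρ t := ratio_lt hs ha hc₁ hc ht0 hgt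
      have e3 : 0 < kk t := hk
      have : kk t * (3 - ll t) * FF s a (t / c₁) < 0 :=
        mul_neg_of_neg_of_pos (mul_neg_of_pos_of_neg e3 (by linarith)) hF
      exact mul_pos_of_neg_of_neg this (by linarith)
  have hDnn : ∀ t ∈ Ioi (0 : ℝ), 0 ≤ D t := by
    intro t ht
    by_cases h : t = t0
    · rw [hDeq t ht, h, sub_self, mul_zero]
    · exact (hDpos t ht h).le
  have hpos : 0 < ∫ t in Ioi 0, D t := by
    rw [setIntegral_pos_iff_support_of_nonneg_ae
      ((ae_restrict_iff' measurableSet_Ioi).mpr (ae_of_all _ hDnn)) hDint]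
    have hsub : Ioo 0 t0 ⊆ Function.support D ∩ Ioi 0 := by
      intro t ht
      exact ⟨(hDpos t ht.1 ht.2.ne).ne', ht.1⟩
    refine lt_of_lt_of_le ?_ (measure_mono hsub)
    rw [Real.volume_Ioo]
    simpa using ht0
  have hval : ∫ t in Ioi 0, D t = ρ t0 * NN s a c₁ - NN s a c₂ := by
    rw [integral_sub (i1.const_mul _) i2, integral_const_mul]
    rfl
  rw [hval] at hpos
  nlinarith

end Pool.Agent.Helper46.MaxExp
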