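import Pool.Agent.Helper46.MaxExpB

open MeasureTheory Set Filter Topology Real

namespace Pool.Agent.Helper46.MaxExp

variable {ι : Type*} {s : Finset ι} {a : ι → ℝ}

/-- `h c = ∫ c² k(c m) F(m) dm`. -/
noncomputable def hh (s : Finset ι) (a : ι → ℝ) (c : ℝ) : ℝ :=
  ∫ m in Ioi 0, c ^ 2 * kk (c * m) * FF s a m

lemma kk_hasDerivAt {x : ℝ} (hx : 0 < x) : HasDerivAt kk (kk x * (1 - ll x) / x) x := by
  have h1 := exp_sub_one_pos hx
  have h2 : HasDerivAt (fun t : ℝ => exp t - 1) (exp x) x := (Real.hasDerivAt_exp x).sub_const 1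
  have h3 := (hasDerivAt_id x).fun_div h2 h1.ne'
  have h4 := one_sub_exp_neg_pos hx
  have e : (1 * (exp x - 1) - id x * exp x) / (exp x - 1) ^ 2 = kk x * (1 - ll x) / x := by
    unfold kk ll
    have h5 : exp (-x) = (exp x)⁻¹ := Real.exp_neg x
    have h6 : (1 : ℝ) - exp (-x) = (exp x - 1) / exp x := by
      rw [h5]
      field_simp
    rw [h6]
    have h7 := (exp_pos x).ne'
    have h8 := h1.ne'
    simp only [id]
    field_simp
  rw [e] at h3
  exact h3

lemma integrand_hasDerivAt {c m : ℝ} (hc : 0 < c) (hm : 0 < m) (F : ℝ) :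
    HasDerivAt (fun c => c ^ 2 * kk (c * m) * F) (c * kk (c * m) * (3 - ll (c * m)) * F) c := by
  have hcm : 0 < c * m := mul_pos hc hm
  have h1 : HasDerivAt (fun c : ℝ => c * m) m c := by
    simpa using (hasDerivAt_id c).mul_const m
  have h2 : HasDerivAt (fun c => kk (c * m)) (kk (c * m) * (1 - ll (c * m)) / (c * m) * m) c := by
    have h0 := kk_hasDerivAt hcm
    exact HasDerivAt.comp (h₂ := kk) (h := fun c : ℝ => c * m) c h0 h1
  have h3 : HasDerivAt (fun c : ℝ => c ^ 2) (2 * c) c := by
    simpa using hasDerivAt_pow 2 c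
  have h4 := (h3.fun_mul h2).mul_const F
  have e : (2 * c * kk (c * m) + c ^ 2 * (kk (c * m) * (1 - ll (c * m)) / (c * m) * m)) * F =
      c * kk (c * m) * (3 - ll (c * m)) * F := by
    have := hm.ne'
    have := hc.ne'
    field_simp
    ring
  rw [e] at h4
  exact h4

lemma hh_hasDerivAt (ha : ∀ i ∈ s, 0 < a i) {c : ℝ} (hc : 0 < c) :
    HasDerivAt (hh s a) (NN s a c) c := by
  have hF1 : ∀ m ∈ Ioi (0 : ℝ), |FF s a m| ≤ 1 := by
    intro m hm
    rw [abs_of_pos (FF_pos ha hm)]
    exact FF_le_one ha hm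
  have hcontk : ∀ c > 0, ContinuousOn (fun m => kk (c * m)) (Ioi 0) := by
    intro c hc
    apply kk_continuousOn.comp (by fun_prop)
    intro m hm
    exact mul_pos hc hm
  have hcontl : ∀ c > 0, ContinuousOn (fun m => ll (c * m)) (Ioi 0) := by
    intro c hc
    apply ll_continuousOn.comp (by fun_prop)
    intro m hm
    exact mul_pos hc hm
  have key := hasDerivAt_integral_of_dominated_loc_of_deriv_le
    (μ := volume.restrict (Ioi (0 : ℝ))) (F := fun c m => c ^ 2 * kk (c * m) * FF s a m)
    (F' := fun c m => c * kk (c * m) * (3 - ll (c * m)) * FF s a m)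
    (x₀ := c) (s := Ioo (c / 2) (2 * c)) (bound := fun m => 16 * c * exp (-(m * (c / 8))))
    (Ioo_mem_nhds (by linarith) (by linarith)) ?_ ?_ ?_ ?_ ?_ ?_
  · have h1 := key.2
    have e : ∫ m in Ioi 0, c * kk (c * m) * (3 - ll (c * m)) * FF s a m = NN s a c := by
      have h2 := integral_comp_mul_left_Ioi (fun t => kk t * (3 - ll t) * FF s a (t / c)) 0 hc
      rw [mul_zero] at h2
      unfold NN
      have h3 : ∫ m in Ioi 0, c * kk (c * m) * (3 - ll (c * m)) * FF s a m =
          c * ∫ m in Ioi 0, kk (c * m) * (3 - ll (c * m)) * FF s a (c * m / c) := by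
        rw [← integral_const_mul]
        apply integral_congr_ae
        filter_upwards with m
        rw [mul_div_cancel_left₀ m hc.ne']
        ring
      rw [h3, h2, smul_eq_mul, ← mul_assoc, mul_inv_cancel₀ hc.ne', one_mul]
    rw [e] at h1
    exact h1
  · -- measurability near c
    filter_upwards [Ioi_mem_nhds hc] with c' hc'
    apply ContinuousOn.aestronglyMeasurable _ measurableSet_Ioi
    exact (continuousOn_const.mul (hcontk c' hc')).mul FF_continuous.continuousOn
  · -- integrability at c
    have hint := integrable_exp_neg_quarter (c := c / 2) (by positivity) (c ^ 2)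
    apply Integrable.mono' hint
    · apply ContinuousOn.aestronglyMeasurable _ measurableSet_Ioi
      exact (continuousOn_const.mul (hcontk c hc)).mul FF_continuous.continuousOn
    · filter_upwards [ae_restrict_mem measurableSet_Ioi] with m hm
      have hm0 : 0 < m := hm
      have hcm : 0 < c * m := mul_pos hc hm0
      rw [norm_mul, norm_mul, Real.norm_eq_abs, Real.norm_eq_abs, Real.norm_eq_abs]
      have h1 : |kk (c * m)| ≤ exp (-(c * m / 2)) := by
        have hkp : 0 < kk (c * m) := b_pos hcm
        rw [abs_of_pos hkp]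
        exact b_bound hcm
      calc |c ^ 2| * |kk (c * m)| * |FF s a m| ≤ |c ^ 2| * exp (-(c * m / 2)) * 1 := by
            apply mul_le_mul _ (hF1 m hm) (abs_nonneg _) (by positivity)
            exact mul_le_mul_of_nonneg_left h1 (abs_nonneg _)
        _ = c ^ 2 * exp (-(m * (c / 2))) := by
            rw [mul_one, abs_of_pos (by positivity)]
            congr 2
            ring
  · -- measurability of derivative
    apply ContinuousOn.aestronglyMeasurable _ measurableSet_Ioi
    exact (((continuousOn_const.mul (hcontk c hc)).mul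
      (continuousOn_const.sub (hcontl c hc)))).mul FF_continuous.continuousOn
  · -- bound
    filter_upwards [ae_restrict_mem measurableSet_Ioi] with m hm
    intro c' hc'
    have hm0 : 0 < m := hm
    have hc'0 : 0 < c' := by linarith [hc'.1]
    have hcm : 0 < c' * m := mul_pos hc'0 hm0
    have h1 := kk_bound hcm
    have e : c' * kk (c' * m) * (3 - ll (c' * m)) * FF s a m =
        c' * (kk (c' * m) * (3 - ll (c' * m))) * FF s a m := by ring
    rw [e, norm_mul, norm_mul, Real.norm_eq_abs, Real.norm_eq_abs, Real.norm_eq_abs]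
    have h2 : exp (-(c' * m / 4)) ≤ exp (-(m * (c / 8))) := by
      apply Real.exp_le_exp.mpr
      nlinarith [hc'.1]
    calc |c'| * |kk (c' * m) * (3 - ll (c' * m))| * |FF s a m|
        ≤ (2 * c) * (8 * exp (-(m * (c / 8)))) * 1 := by
          apply mul_le_mul _ (hF1 m hm) (abs_nonneg _) (by positivity)
          apply mul_le_mul _ _ (abs_nonneg _) (by positivity)
          · rw [abs_of_pos hc'0]
            exact hc'.2.le
          · linarith
      _ = 16 * c * exp (-(m * (c / 8))) := by ring
  · exact integrable_exp_neg_quarter (c := c / 8) (by positivity) (16 * c)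
  · filter_upwards [ae_restrict_mem measurableSet_Ioi] with m hm
    intro c' hc'
    have hc'0 : 0 < c' := by linarith [hc'.1]
    exact integrand_hasDerivAt hc'0 hm _

/-- `h` takes no value three times. -/
lemma hh_three (hs : s.Nonempty) (ha : ∀ i ∈ s, 0 < a i) {p q r : ℝ} (hp : 0 < p) (hpq : p < q)
    (hqr : q < r) (h1 : hh s a p = hh s a q) (h2 : hh s a q = hh s a r) : False := by
  have hq : 0 < q := hp.trans hpq
  have hcont : ∀ x y : ℝ, 0 < x → ContinuousOn (hh s a) (Icc x y) := by
    intro x y hx z hz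
    exact (hh_hasDerivAt ha (lt_of_lt_of_le hx hz.1)).continuousAt.continuousWithinAt
  obtain ⟨c₁, hc₁, e1⟩ := exists_hasDerivAt_eq_zero hpq (hcont p q hp) h1
    (f' := NN s a) (fun x hx => hh_hasDerivAt ha (hp.trans hx.1))
  obtain ⟨c₂, hc₂, e2⟩ := exists_hasDerivAt_eq_zero hqr (hcont q r hq) h2
    (f' := NN s a) (fun x hx => hh_hasDerivAt ha (hq.trans hx.1))
  have h3 := NN_crossing hs ha (hp.trans hc₁.1) (hc₁.2.trans hc₂.1) e1.le
  rw [e2] at h3
  exact lt_irrefl _ h3

end Pool.Agent.Helper46.MaxExp
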