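import Pool.Agent.Helper46.MaxExpC

open MeasureTheory Set Filter Topology Real

namespace Pool.Agent.Helper46.MaxExp

variable {ι : Type*} {s : Finset ι} {a : ι → ℝ}

/-- The alternating sum over all subsets (the empty set contributes `0`). -/
noncomputable def SS (s : Finset ι) (a : ι → ℝ) : ℝ :=
  ∑ J ∈ s.powerset, (-1) ^ (J.card + 1) * (∑ j ∈ J, a j)⁻¹

lemma integral_exp_neg {A : ℝ} (hA : 0 < A) : ∫ m in Ioi (0 : ℝ), exp (-(A * m)) = A⁻¹ := by
  have h := integral_exp_mul_Ioi (a := -A) (by linarith) 0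
  have e : ∀ m : ℝ, exp (-(A * m)) = exp (-A * m) := fun m => by congr 1; ring
  simp_rw [e, h]
  simp [neg_div]

lemma integrable_exp_neg {A : ℝ} (hA : 0 < A) :
    IntegrableOn (fun m : ℝ => exp (-(A * m))) (Ioi 0) := by
  have h := integrable_exp_neg_quarter hA 1
  refine h.congr_fun (fun t _ => ?_) measurableSet_Ioi
  simp only [one_mul]
  congr 1
  ring

lemma integral_mul_exp_neg {A : ℝ} (hA : 0 < A) :
    ∫ m in Ioi (0 : ℝ), m * exp (-(A * m)) = (A ^ 2)⁻¹ := by
  have h := Real.integral_rpow_mul_exp_neg_mul_Ioi (a := 2) (r := A) (by norm_num) hA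
  have e : ∫ m in Ioi (0 : ℝ), m * exp (-(A * m)) =
      ∫ t in Ioi (0 : ℝ), t ^ ((2 : ℝ) - 1) * exp (-(A * t)) := by
    apply setIntegral_congr_fun measurableSet_Ioi
    intro t _
    simp only
    rw [show (2 : ℝ) - 1 = 1 by norm_num, Real.rpow_one]
  rw [e, h]
  rw [Real.Gamma_two, mul_one, Real.div_rpow one_pos.le hA.le]
  norm_num

lemma integrable_mul_exp_neg {A : ℝ} (hA : 0 < A) :
    IntegrableOn (fun m : ℝ => m * exp (-(A * m))) (Ioi 0) := by
  by_contra hcon
  have h := integral_mul_exp_neg hA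
  rw [integral_undef hcon] at h
  have : 0 < (A ^ 2)⁻¹ := by positivity
  linarith

/-- Expansion of the product. -/
lemma FF_expand (m : ℝ) :
    FF s a m = ∑ J ∈ s.powerset, (-1) ^ J.card * exp (-((∑ j ∈ J, a j) * m)) := by
  unfold FF
  have h1 : ∀ i, 1 - exp (-(a i * m)) = 1 + (-exp (-(a i * m))) := fun i => by ring
  simp_rw [h1]
  rw [Finset.prod_one_add]
  apply Finset.sum_congr rfl
  intro J _
  rw [Finset.prod_neg]
  congr 1
  rw [← Real.exp_sum]
  congr 1
  rw [Finset.sum_neg_distrib, Finset.sum_mul]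

lemma sum_pos_of_mem (ha : ∀ i ∈ s, 0 < a i) {J : Finset ι} (hJ : J ⊆ s) (hne : J.Nonempty) :
    0 < ∑ j ∈ J, a j :=
  Finset.sum_pos (fun j hj => ha j (hJ hj)) hne

open Classical in
lemma one_sub_FF_expand (m : ℝ) :
    1 - FF s a m = ∑ J ∈ s.powerset.erase ∅, (-1) ^ (J.card + 1) * exp (-((∑ j ∈ J, a j) * m)) := by
  rw [FF_expand]
  have h : (∅ : Finset ι) ∈ s.powerset := Finset.empty_mem_powerset s
  rw [← Finset.add_sum_erase _ _ h]
  simp only [Finset.card_empty, pow_zero, Finset.sum_empty, zero_mul, neg_zero, Real.exp_zero,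
    mul_one]
  rw [sub_add_eq_sub_sub, sub_self, zero_sub, ← Finset.sum_neg_distrib]
  apply Finset.sum_congr rfl
  intro J _
  rw [pow_succ]
  ring

open Classical in
lemma SS_eq_integral (ha : ∀ i ∈ s, 0 < a i) :
    SS s a = ∫ m in Ioi (0 : ℝ), (1 - FF s a m) := by
  simp_rw [one_sub_FF_expand]
  rw [integral_finsetSum]
  · unfold SS
    have h : (∅ : Finset ι) ∈ s.powerset := Finset.empty_mem_powerset s
    rw [← Finset.add_sum_erase _ _ h]
    simp only [Finset.sum_empty, inv_zero, mul_zero, zero_add]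
    apply Finset.sum_congr rfl
    intro J hJ
    rw [integral_const_mul, integral_exp_neg]
    apply sum_pos_of_mem ha
    · exact Finset.mem_powerset.mp (Finset.mem_of_mem_erase hJ)
    · exact Finset.nonempty_iff_ne_empty.mpr (Finset.ne_of_mem_erase hJ)
  · intro J hJ
    apply Integrable.const_mul
    apply integrable_exp_neg
    apply sum_pos_of_mem ha
    · exact Finset.mem_powerset.mp (Finset.mem_of_mem_erase hJ)
    · exact Finset.nonempty_iff_ne_empty.mpr (Finset.ne_of_mem_erase hJ)

open Classical in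
lemma integrable_one_sub_FF (ha : ∀ i ∈ s, 0 < a i) :
    IntegrableOn (fun m => 1 - FF s a m) (Ioi 0) := by
  simp_rw [one_sub_FF_expand]
  apply integrable_finsetSum
  intro J hJ
  apply Integrable.const_mul
  apply integrable_exp_neg
  apply sum_pos_of_mem ha
  · exact Finset.mem_powerset.mp (Finset.mem_of_mem_erase hJ)
  · exact Finset.nonempty_iff_ne_empty.mpr (Finset.ne_of_mem_erase hJ)

lemma SS_nonneg (ha : ∀ i ∈ s, 0 < a i) : 0 ≤ SS s a := by
  rw [SS_eq_integral ha]
  apply setIntegral_nonneg measurableSet_Ioi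
  intro m hm
  have := FF_le_one ha hm
  linarith

lemma SS_erase_le [DecidableEq ι] (ha : ∀ i ∈ s, 0 < a i) {i : ι} (hi : i ∈ s) :
    SS (s.erase i) a ≤ SS s a := by
  have ha' : ∀ j ∈ s.erase i, 0 < a j := fun j hj => ha j (Finset.mem_of_mem_erase hj)
  rw [SS_eq_integral ha, SS_eq_integral ha']
  apply setIntegral_mono_on (integrable_one_sub_FF ha') (integrable_one_sub_FF ha) measurableSet_Ioi
  intro m hm
  have h1 : FF s a m = (1 - exp (-(a i * m))) * FF (s.erase i) a m := by
    unfold FF
    rw [Finset.mul_prod_erase s (fun i => 1 - exp (-(a i * m))) hi]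
  have h2 := FF_pos ha' hm
  have h3 := exp_pos (-(a i * m))
  rw [h1]
  nlinarith

lemma SS_scale {c : ℝ} : SS s (fun i => c * a i) = c⁻¹ * SS s a := by
  unfold SS
  rw [Finset.mul_sum]
  apply Finset.sum_congr rfl
  intro J _
  rw [← Finset.mul_sum, mul_inv]
  ring

/-- The partial derivative sums. -/
lemma deriv_sum_eq [DecidableEq ι] (ha : ∀ i ∈ s, 0 < a i) {i : ι} (hi : i ∈ s) :
    (a i) ^ 3 * ∑ J ∈ s.powerset with i ∈ J, (-1) ^ (J.card + 1) * ((∑ j ∈ J, a j) ^ 2)⁻¹ =
      hh s a (a i) := by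
  have hai := ha i hi
  -- the integral form
  have h1 : ∑ J ∈ s.powerset with i ∈ J, (-1) ^ (J.card + 1) * ((∑ j ∈ J, a j) ^ 2)⁻¹ =
      ∫ m in Ioi (0 : ℝ), m * (exp (-(a i * m)) * FF (s.erase i) a m) := by
    have e : ∀ m : ℝ, m * (exp (-(a i * m)) * FF (s.erase i) a m) =
        ∑ J ∈ s.powerset with i ∈ J, (-1) ^ (J.card + 1) * (m * exp (-((∑ j ∈ J, a j) * m))) := by
      intro m
      rw [FF_expand, Finset.mul_sum, Finset.mul_sum]
      refine Finset.sum_nbij' (fun J => insert i J) (fun J => J.erase i) ?_ ?_ ?_ ?_ ?_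
      · intro J hJ
        rw [Finset.mem_powerset] at hJ
        rw [Finset.mem_filter, Finset.mem_powerset]
        refine ⟨?_, Finset.mem_insert_self _ _⟩
        intro x hx
        rcases Finset.mem_insert.mp hx with rfl | hx
        · exact hi
        · exact Finset.mem_of_mem_erase (hJ hx)
      · intro J hJ
        rw [Finset.mem_filter, Finset.mem_powerset] at hJ
        rw [Finset.mem_powerset]
        exact Finset.erase_subset_erase i hJ.1
      · intro J hJ
        rw [Finset.mem_powerset] at hJ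
        apply Finset.erase_insert
        intro h
        exact Finset.notMem_erase i s (hJ h)
      · intro J hJ
        rw [Finset.mem_filter] at hJ
        exact Finset.insert_erase hJ.2
      · intro J hJ
        rw [Finset.mem_powerset] at hJ
        have hiJ : i ∉ J := fun h => Finset.notMem_erase i s (hJ h)
        rw [Finset.card_insert_of_notMem hiJ, Finset.sum_insert hiJ]
        have e2 : exp (-((a i + ∑ j ∈ J, a j) * m)) =
            exp (-(a i * m)) * exp (-((∑ j ∈ J, a j) * m)) := by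
          rw [← exp_add]
          congr 1
          ring
        rw [e2, pow_succ, pow_succ]
        ring
    simp_rw [e]
    rw [integral_finsetSum]
    · apply Finset.sum_congr rfl
      intro J hJ
      rw [Finset.mem_filter, Finset.mem_powerset] at hJ
      rw [integral_const_mul, integral_mul_exp_neg]
      exact sum_pos_of_mem ha hJ.1 ⟨i, hJ.2⟩
    · intro J hJ
      rw [Finset.mem_filter, Finset.mem_powerset] at hJ
      apply Integrable.const_mul
      exact integrable_mul_exp_neg (sum_pos_of_mem ha hJ.1 ⟨i, hJ.2⟩)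
  rw [h1, ← integral_const_mul]
  unfold hh
  apply setIntegral_congr_fun measurableSet_Ioi
  intro m hm
  have hm0 : 0 < m := hm
  have hF : FF s a m = (1 - exp (-(a i * m))) * FF (s.erase i) a m := by
    unfold FF
    rw [Finset.mul_prod_erase s (fun i => 1 - exp (-(a i * m))) hi]
  simp only
  rw [hF]
  unfold kk
  have hx : 0 < a i * m := mul_pos hai hm0
  rw [b_eq hx]
  have := (one_sub_exp_neg_pos hx).ne'
  field_simp

end Pool.Agent.Helper46.MaxExp
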