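import Pool.Agent.Helper46.MaxExpD

open MeasureTheory Set Filter Topology Real

namespace Pool.Agent.Helper46.MaxExp

variable {ι : Type*} {s : Finset ι}

/-- `a = u^{-1/2}`. -/
noncomputable def rt (u : ι → ℝ) (i : ι) : ℝ := (Real.sqrt (u i))⁻¹

lemma rt_pos {u : ι → ℝ} {i : ι} (h : 0 < u i) : 0 < rt u i :=
  inv_pos.mpr (Real.sqrt_pos.mpr h)

lemma rt_sq {u : ι → ℝ} {i : ι} (h : 0 < u i) : ((rt u i) ^ 2)⁻¹ = u i := by
  unfold rt
  rw [inv_pow, inv_inv, Real.sq_sqrt h.le]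

/-- Derivative along a line. -/
lemma SS_line_hasDerivAt [DecidableEq ι] {u v : ι → ℝ} (hu : ∀ i ∈ s, 0 < u i) :
    HasDerivAt (fun ε : ℝ => SS s (rt (fun i => u i + ε * v i)))
      ((1 / 2) * ∑ i ∈ s, v i * hh s (rt u) (rt u i)) 0 := by
  have ha : ∀ i ∈ s, 0 < rt u i := fun i hi => rt_pos (hu i hi)
  have h1 : ∀ i ∈ s, HasDerivAt (fun ε : ℝ => rt (fun i => u i + ε * v i) i)
      (-(1 / 2) * v i * (rt u i) ^ 3) 0 := by
    intro i hi
    have hui := hu i hi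
    have h2 : HasDerivAt (fun ε : ℝ => u i + ε * v i) (v i) 0 := by
      simpa using ((hasDerivAt_id (0 : ℝ)).mul_const (v i)).const_add (u i)
    have h3 : HasDerivAt (fun ε : ℝ => Real.sqrt (u i + ε * v i))
        (v i / (2 * Real.sqrt (u i + 0 * v i))) 0 := by
      apply h2.sqrt
      rw [zero_mul, add_zero]
      exact hui.ne'
    have hsq : 0 < Real.sqrt (u i) := Real.sqrt_pos.mpr hui
    have h4 := h3.fun_inv (by rw [zero_mul, add_zero]; exact hsq.ne')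
    rw [zero_mul, add_zero] at h4
    have e : -(v i / (2 * Real.sqrt (u i))) / Real.sqrt (u i) ^ 2 =
        -(1 / 2) * v i * (rt u i) ^ 3 := by
      unfold rt
      field_simp
    rw [e] at h4
    exact h4
  have h5 : ∀ J ∈ s.powerset, HasDerivAt
      (fun ε : ℝ => (-1 : ℝ) ^ (J.card + 1) * (∑ j ∈ J, rt (fun i => u i + ε * v i) j)⁻¹)
      ((-1) ^ (J.card + 1) * (((1 / 2) * ∑ j ∈ J, v j * (rt u j) ^ 3) *
        ((∑ j ∈ J, rt u j) ^ 2)⁻¹)) 0 := by
    intro J hJ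
    rw [Finset.mem_powerset] at hJ
    apply HasDerivAt.const_mul
    by_cases hne : J.Nonempty
    · have h6 : HasDerivAt (fun ε : ℝ => ∑ j ∈ J, rt (fun i => u i + ε * v i) j)
          (∑ j ∈ J, (-(1 / 2) * v j * (rt u j) ^ 3)) 0 := by
        apply HasDerivAt.fun_sum
        intro j hj
        exact h1 j (hJ hj)
      have hval : ∑ j ∈ J, rt (fun i => u i + (0 : ℝ) * v i) j = ∑ j ∈ J, rt u j := by
        apply Finset.sum_congr rfl
        intro j _
        simp [rt]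
      have hpos : 0 < ∑ j ∈ J, rt u j := sum_pos_of_mem ha hJ hne
      have h7 := h6.fun_inv (by rw [hval]; exact hpos.ne')
      rw [hval] at h7
      have e : -(∑ j ∈ J, (-(1 / 2) * v j * (rt u j) ^ 3)) / (∑ j ∈ J, rt u j) ^ 2 =
          ((1 / 2) * ∑ j ∈ J, v j * (rt u j) ^ 3) * ((∑ j ∈ J, rt u j) ^ 2)⁻¹ := by
        rw [← Finset.sum_neg_distrib, div_eq_mul_inv, Finset.mul_sum]
        congr 1
        apply Finset.sum_congr rfl
        intro j _
        ring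
      rw [e] at h7
      exact h7
    · rw [Finset.not_nonempty_iff_eq_empty] at hne
      subst hne
      simp only [Finset.sum_empty, inv_zero, mul_zero, zero_mul]
      exact hasDerivAt_const _ _
  have h8 : HasDerivAt (fun ε : ℝ => SS s (rt (fun i => u i + ε * v i)))
      (∑ J ∈ s.powerset, (-1) ^ (J.card + 1) * (((1 / 2) * ∑ j ∈ J, v j * (rt u j) ^ 3) *
        ((∑ j ∈ J, rt u j) ^ 2)⁻¹)) 0 := by
    unfold SS
    exact HasDerivAt.fun_sum h5
  have e : ∑ J ∈ s.powerset, (-1 : ℝ) ^ (J.card + 1) * (((1 / 2) * ∑ j ∈ J, v j * (rt u j) ^ 3) *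
        ((∑ j ∈ J, rt u j) ^ 2)⁻¹) = (1 / 2) * ∑ i ∈ s, v i * hh s (rt u) (rt u i) := by
    have e1 : ∀ i ∈ s, v i * hh s (rt u) (rt u i) = ∑ J ∈ s.powerset with i ∈ J,
        (v i * (rt u i) ^ 3) * ((-1) ^ (J.card + 1) * ((∑ j ∈ J, rt u j) ^ 2)⁻¹) := by
      intro i hi
      rw [← deriv_sum_eq ha hi, ← Finset.mul_sum]
      ring
    rw [Finset.sum_congr rfl e1]
    have e2 : ∀ J ∈ s.powerset, (-1 : ℝ) ^ (J.card + 1) * (((1 / 2) * ∑ j ∈ J, v j * (rt u j) ^ 3) *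
        ((∑ j ∈ J, rt u j) ^ 2)⁻¹) = (1 / 2) * ∑ i ∈ J,
        (v i * (rt u i) ^ 3) * ((-1) ^ (J.card + 1) * ((∑ j ∈ J, rt u j) ^ 2)⁻¹) := by
      intro J _
      rw [← Finset.sum_mul]
      ring
    rw [Finset.sum_congr rfl e2, ← Finset.mul_sum]
    congr 1
    apply Finset.sum_comm'
    intro J i
    simp only [Finset.mem_powerset, Finset.mem_filter]
    constructor
    · rintro ⟨h1, h2⟩
      exact ⟨⟨h1, h2⟩, h1 h2⟩
    · rintro ⟨⟨h1, h2⟩, -⟩
      exact ⟨h1, h2⟩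
  rw [e] at h8
  exact h8

/-- Moving mass between two coordinates. -/
lemma SS_pair_hasDerivAt [DecidableEq ι] {u : ι → ℝ} (hu : ∀ i ∈ s, 0 < u i) {i j : ι} (hi : i ∈ s)
    (hj : j ∈ s) :
    HasDerivAt (fun ε : ℝ => SS s (rt (fun l => u l + ε * ((if l = i then 1 else 0) -
      (if l = j then 1 else 0))))) ((1 / 2) * (hh s (rt u) (rt u i) - hh s (rt u) (rt u j))) 0 := by
  have h := SS_line_hasDerivAt (v := fun l => (if l = i then (1 : ℝ) else 0) -
    (if l = j then 1 else 0)) hu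
  have e : ∑ l ∈ s, ((if l = i then (1 : ℝ) else 0) - (if l = j then 1 else 0)) *
      hh s (rt u) (rt u l) = hh s (rt u) (rt u i) - hh s (rt u) (rt u j) := by
    simp only [sub_mul, Finset.sum_sub_distrib, ite_mul, one_mul, zero_mul, Finset.sum_ite_eq', hi,
      hj, if_true]
  rw [e] at h
  exact h

end Pool.Agent.Helper46.MaxExp
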