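import Pool.Agent.Helper46.MaxExpE

open MeasureTheory Set Filter Topology Real

namespace Pool.Agent.Helper46.MaxExp

/-- Two-valued integral. -/
noncomputable def I2 (k l : ℕ) (p q : ℝ) : ℝ :=
  ∫ m in Ioi (0 : ℝ), (1 - (1 - exp (-(p * m))) ^ k * (1 - exp (-(q * m))) ^ l)

/-- The two-valued inequality for all multiplicities up to `N`. -/
def TV (N : ℕ) : Prop := ∀ k l : ℕ, 1 ≤ k + l → k + l ≤ N → ∀ p q : ℝ, 0 < p → 0 < q →
  k * (p ^ 2)⁻¹ + l * (q ^ 2)⁻¹ ≤ (I2 k l p q) ^ 2

variable {ι : Type*} {s : Finset ι}

lemma hh_three' {a : ι → ℝ} (hs : s.Nonempty) (ha : ∀ i ∈ s, 0 < a i) {x y z : ℝ} (hx : 0 < x)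
    (hy : 0 < y) (hz : 0 < z) (hxy : x ≠ y) (hyz : y ≠ z) (hxz : x ≠ z)
    (h1 : hh s a x = hh s a y) (h2 : hh s a y = hh s a z) : False := by
  rcases lt_or_gt_of_ne hxy with h | h <;> rcases lt_or_gt_of_ne hyz with h' | h' <;>
    rcases lt_or_gt_of_ne hxz with h'' | h''
  · exact hh_three hs ha hx h h' h1 h2
  · linarith
  · exact hh_three hs ha hx h'' h' (h1.trans h2) h2.symm
  · exact hh_three hs ha hz h'' h (h1.trans h2).symm h1
  · exact hh_three hs ha hy h h'' h1.symm (h1.trans h2)
  · exact hh_three hs ha hy h' h'' h2 (h1.trans h2).symm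
  · linarith
  · exact hh_three hs ha hz h' h h2.symm h1.symm

lemma SS_congr {a b : ι → ℝ} (h : ∀ i ∈ s, a i = b i) : SS s a = SS s b := by
  unfold SS
  apply Finset.sum_congr rfl
  intro J hJ
  rw [Finset.mem_powerset] at hJ
  rw [Finset.sum_congr rfl (fun j hj => h j (hJ hj))]

theorem main_ineq [Fintype ι] [DecidableEq ι] (hTV : TV 6) (n : ℕ) :
    ∀ s : Finset ι, s.card = n → n ≤ 6 → ∀ a : ι → ℝ, (∀ i ∈ s, 0 < a i) →
      ∑ i ∈ s, ((a i) ^ 2)⁻¹ ≤ (SS s a) ^ 2 := by
  induction n with
  | zero =>
    intro s hs _ a _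
    rw [Finset.card_eq_zero] at hs
    subst hs
    simp [SS]
  | succ n ih =>
    intro s hs hn a ha
    have hne : s.Nonempty := by
      rw [← Finset.card_pos, hs]
      omega
    by_contra hcon
    rw [not_le] at hcon
    set U : ℝ := ∑ i ∈ s, ((a i) ^ 2)⁻¹ with hU
    have hUpos : 0 < U := Finset.sum_pos (fun i hi => by
      have := ha i hi
      positivity) hne
    set u₀ : ι → ℝ := fun i => if i ∈ s then ((a i) ^ 2)⁻¹ / U else 0 with hu₀
    have hu₀s : ∀ i ∈ s, u₀ i = ((a i) ^ 2)⁻¹ / U := fun i hi => by simp [hu₀, hi]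
    have hu₀pos : ∀ i ∈ s, 0 < u₀ i := fun i hi => by
      rw [hu₀s i hi]
      have := ha i hi
      positivity
    have hrt₀ : ∀ i ∈ s, rt u₀ i = Real.sqrt U * a i := by
      intro i hi
      have hai := ha i hi
      unfold rt
      rw [hu₀s i hi, Real.sqrt_div (by positivity), Real.sqrt_inv, Real.sqrt_sq hai.le]
      field_simp
    have hSS₀ : (SS s (rt u₀)) ^ 2 < 1 := by
      rw [SS_congr hrt₀, SS_scale, mul_pow, inv_pow, Real.sq_sqrt hUpos.le, inv_mul_lt_iff₀ hUpos,
        mul_one]
      exact hcon
    set τ := (SS s (rt u₀)) ^ 2 with hτ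
    have hτ0 : 0 ≤ τ := sq_nonneg _
    -- choose δ
    obtain ⟨i₁, hi₁, hmin₁⟩ := s.exists_min_image u₀ hne
    set δ := min (u₀ i₁) ((1 - τ) / 2) with hδ
    have hδ0 : 0 < δ := lt_min (hu₀pos i₁ hi₁) (by linarith)
    have hδ1 : δ < 1 - τ := lt_of_le_of_lt (min_le_right _ _) (by linarith)
    have hδu : ∀ i ∈ s, δ ≤ u₀ i := fun i hi => (min_le_left _ _).trans (hmin₁ i hi)
    -- the compact set
    set K : Set (ι → ℝ) := {u | (∀ i ∈ s, δ ≤ u i) ∧ (∀ i ∉ s, u i = 0) ∧ ∑ i ∈ s, u i = 1} with hK
    have hKclosed : IsClosed K := by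
      have h1 : IsClosed {u : ι → ℝ | ∀ i ∈ s, δ ≤ u i} := by
        simp only [setOf_forall]
        exact isClosed_iInter (fun i => isClosed_iInter (fun _ =>
          isClosed_le continuous_const (continuous_apply i)))
      have h2 : IsClosed {u : ι → ℝ | ∀ i ∉ s, u i = 0} := by
        simp only [setOf_forall]
        exact isClosed_iInter (fun i => isClosed_iInter (fun _ =>
          isClosed_eq (continuous_apply i) continuous_const))
      have h3 : IsClosed {u : ι → ℝ | ∑ i ∈ s, u i = 1} :=
        isClosed_eq (continuous_finset_sum _ (fun i _ => continuous_apply i)) continuous_const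
      exact h1.inter (h2.inter h3)
    have hKsub : K ⊆ Set.Icc (fun _ => (0 : ℝ)) (fun _ => 1) := by
      rintro u ⟨h1, h2, h3⟩
      constructor
      · intro i
        by_cases hi : i ∈ s
        · exact hδ0.le.trans (h1 i hi)
        · exact (h2 i hi).ge
      · intro i
        by_cases hi : i ∈ s
        · calc u i ≤ ∑ j ∈ s, u j :=
              Finset.single_le_sum (fun j hj => hδ0.le.trans (h1 j hj)) hi
            _ = 1 := h3
        · rw [h2 i hi]
          exact zero_le_one
    have hKcompact : IsCompact K := isCompact_Icc.of_isClosed_subset hKclosed hKsub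
    have hu₀K : u₀ ∈ K := by
      refine ⟨hδu, fun i hi => by simp [hu₀, hi], ?_⟩
      rw [Finset.sum_congr rfl hu₀s, ← Finset.sum_div, div_self hUpos.ne']
    have hcont : ContinuousOn (fun u : ι → ℝ => SS s (rt u)) K := by
      unfold SS
      apply continuousOn_finset_sum
      intro J hJ
      rw [Finset.mem_powerset] at hJ
      apply ContinuousOn.mul continuousOn_const
      by_cases hJe : J.Nonempty
      · apply ContinuousOn.inv₀
        · apply continuousOn_finset_sum
          intro j hj
          unfold rt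
          apply ContinuousOn.inv₀
          · exact (Real.continuous_sqrt.comp (continuous_apply j)).continuousOn
          · intro u hu
            exact (Real.sqrt_pos.mpr (lt_of_lt_of_le hδ0 (hu.1 j (hJ hj)))).ne'
        · intro u hu
          exact (Finset.sum_pos (fun j hj => rt_pos (lt_of_lt_of_le hδ0 (hu.1 j (hJ hj)))) hJe).ne'
      · rw [Finset.not_nonempty_iff_eq_empty] at hJe
        subst hJe
        simp only [Finset.sum_empty, inv_zero]
        exact continuousOn_const
    obtain ⟨u, huK, humin⟩ := hKcompact.exists_isMinOn ⟨u₀, hu₀K⟩ hcont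
    have hupos : ∀ i ∈ s, 0 < u i := fun i hi => lt_of_lt_of_le hδ0 (huK.1 i hi)
    have ha' : ∀ i ∈ s, 0 < rt u i := fun i hi => rt_pos (hupos i hi)
    have hSSle : SS s (rt u) ≤ SS s (rt u₀) := humin hu₀K
    have hSSnn : 0 ≤ SS s (rt u) := SS_nonneg ha'
    have hSSsq : (SS s (rt u)) ^ 2 ≤ τ := pow_le_pow_left₀ hSSnn hSSle 2
    -- interior
    have hint : ∀ i ∈ s, δ < u i := by
      intro i hi
      refine lt_of_le_of_ne (huK.1 i hi) ?_
      intro heq
      have hcard : (s.erase i).card = n := by
        rw [Finset.card_erase_of_mem hi, hs]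
        omega
      have ha'' : ∀ j ∈ s.erase i, 0 < rt u j := fun j hj => ha' j (Finset.mem_of_mem_erase hj)
      have h1 := ih (s.erase i) hcard (by omega) (rt u) ha''
      have h2 : ∑ j ∈ s.erase i, ((rt u j) ^ 2)⁻¹ = 1 - δ := by
        rw [Finset.sum_congr rfl (fun j hj => rt_sq (hupos j (Finset.mem_of_mem_erase hj)))]
        have h3 := Finset.add_sum_erase s u hi
        rw [huK.2.2, ← heq] at h3
        linarith
      have h3 : SS (s.erase i) (rt u) ≤ SS s (rt u) := SS_erase_le ha' hi
      have h4 : (SS (s.erase i) (rt u)) ^ 2 ≤ (SS s (rt u)) ^ 2 :=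
        pow_le_pow_left₀ (SS_nonneg ha'') h3 2
      rw [h2] at h1
      linarith
    -- critical point
    have hcrit : ∀ i ∈ s, ∀ j ∈ s, hh s (rt u) (rt u i) = hh s (rt u) (rt u j) := by
      intro i hi j hj
      by_cases hij : i = j
      · rw [hij]
      have hder := SS_pair_hasDerivAt hupos hi hj
      have hloc : IsLocalMin (fun ε : ℝ => SS s (rt (fun l => u l + ε *
          ((if l = i then 1 else 0) - (if l = j then 1 else 0))))) 0 := by
        have hi' := hint i hi
        have hj' := hint j hj
        have hnhds : Ioo (-(u i - δ)) (u j - δ) ∈ 𝓝 (0 : ℝ) :=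
          Ioo_mem_nhds (by linarith) (by linarith)
        filter_upwards [hnhds] with ε hε
        have hmem : (fun l => u l + ε * ((if l = i then (1 : ℝ) else 0) -
            (if l = j then 1 else 0))) ∈ K := by
          refine ⟨fun l hl => ?_, fun l hl => ?_, ?_⟩
          · by_cases h1 : l = i
            · subst h1
              simp only [if_true, hij, if_false, sub_zero, mul_one]
              linarith [hε.1]
            · by_cases h2 : l = j
              · subst h2
                simp only [h1, if_true, if_false, zero_sub, mul_neg, mul_one]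
                linarith [hε.2]
              · simp only [h1, h2, if_false, sub_zero, mul_zero, add_zero]
                exact huK.1 l hl
          · have h1 : l ≠ i := fun h => hl (h ▸ hi)
            have h2 : l ≠ j := fun h => hl (h ▸ hj)
            simp only [h1, h2, if_false, sub_zero, mul_zero, add_zero]
            exact huK.2.1 l hl
          · rw [Finset.sum_add_distrib, ← Finset.mul_sum, Finset.sum_sub_distrib,
              Finset.sum_ite_eq', Finset.sum_ite_eq', if_pos hi, if_pos hj, sub_self, mul_zero,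
              add_zero]
            exact huK.2.2
        have h0 : SS s (rt (fun l => u l + (0 : ℝ) * ((if l = i then 1 else 0) -
            (if l = j then 1 else 0)))) = SS s (rt u) := by
          congr 1
          funext l
          simp [rt]
        rw [h0]
        exact humin hmem
      have h1 := hloc.hasDerivAt_eq_zero hder
      linarith
    -- at most two values
    obtain ⟨i₀, hi₀⟩ := hne
    set p := rt u i₀ with hp
    have hp0 : 0 < p := ha' i₀ hi₀
    have htwo : ∃ q : ℝ, 0 < q ∧ ∀ i ∈ s, rt u i ≠ p → rt u i = q := by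
      by_cases hall : ∃ j ∈ s, rt u j ≠ p
      · obtain ⟨j, hj, hjp⟩ := hall
        refine ⟨rt u j, ha' j hj, ?_⟩
        intro i hi hip
        by_contra hiq
        exact hh_three' ⟨i₀, hi₀⟩ ha' hp0 (ha' j hj) (ha' i hi) (Ne.symm hjp) (Ne.symm hiq)
          (Ne.symm hip) (hcrit i₀ hi₀ j hj) (hcrit j hj i hi)
      · push Not at hall
        exact ⟨1, one_pos, fun i hi hip => absurd (hall i hi) hip⟩
    obtain ⟨q, hq0, hq⟩ := htwo
    set k := (s.filter (fun i => rt u i = p)).card with hk
    set l := (s.filter (fun i => ¬ rt u i = p)).card with hl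
    have hkl : k + l = n + 1 := by
      rw [← hs]
      exact Finset.card_filter_add_card_filter_not _
    have hFF : ∀ m, FF s (rt u) m = (1 - exp (-(p * m))) ^ k * (1 - exp (-(q * m))) ^ l := by
      intro m
      unfold FF
      rw [← Finset.prod_filter_mul_prod_filter_not s (fun i => rt u i = p)]
      congr 1
      · rw [Finset.prod_congr rfl (g := fun _ => 1 - exp (-(p * m)))]
        · rw [Finset.prod_const]
        · intro i hi
          rw [Finset.mem_filter] at hi
          rw [hi.2]
      · rw [Finset.prod_congr rfl (g := fun _ => 1 - exp (-(q * m)))]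
        · rw [Finset.prod_const]
        · intro i hi
          rw [Finset.mem_filter] at hi
          rw [hq i hi.1 hi.2]
    have hI : SS s (rt u) = I2 k l p q := by
      rw [SS_eq_integral ha']
      unfold I2
      simp_rw [hFF]
    have hsum : (k : ℝ) * (p ^ 2)⁻¹ + l * (q ^ 2)⁻¹ = 1 := by
      have h1 : ∑ i ∈ s, u i = ∑ i ∈ s, ((rt u i) ^ 2)⁻¹ :=
        Finset.sum_congr rfl (fun i hi => (rt_sq (hupos i hi)).symm)
      rw [huK.2.2, ← Finset.sum_filter_add_sum_filter_not s (fun i => rt u i = p)] at h1
      rw [h1]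
      congr 1
      · rw [Finset.sum_congr rfl (g := fun _ => (p ^ 2)⁻¹)]
        · rw [Finset.sum_const, nsmul_eq_mul]
        · intro i hi
          rw [Finset.mem_filter] at hi
          rw [hi.2]
      · rw [Finset.sum_congr rfl (g := fun _ => (q ^ 2)⁻¹)]
        · rw [Finset.sum_const, nsmul_eq_mul]
        · intro i hi
          rw [Finset.mem_filter] at hi
          rw [hq i hi.1 hi.2]
    have hfin := hTV k l (by omega) (by omega) p q hp0 hq0
    rw [hsum, ← hI] at hfin
    linarith

end Pool.Agent.Helper46.MaxExp
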