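import Pool.Agent.Helper46.MaxExpF

open MeasureTheory Set Filter Topology Real

namespace Pool.Agent.Helper46.MaxExp

/-- Closed form of the two-valued integral at `p = 1`, `q = 1 + t`. -/
noncomputable def JJ (k l : ℕ) (t : ℝ) : ℝ :=
  ∑ i ∈ Finset.range (k + 1), ∑ j ∈ Finset.range (l + 1),
    (-1) ^ (i + j + 1) * (k.choose i : ℝ) * (l.choose j : ℝ) * ((i : ℝ) + j * (1 + t))⁻¹

lemma JJ_0_1 {t : ℝ} (ht : 0 ≤ t) : (0 : ℝ) + 1 * ((1 + t) ^ 2)⁻¹ ≤ (JJ 0 1 t) ^ 2 := by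
  have h1 : (0 : ℝ) < 1 + t := by linarith
  have hJ : JJ 0 1 t = (1) / ((1 + t)) := by
    unfold JJ
    simp only [Finset.sum_range_succ, Finset.sum_range_zero]
    norm_num [Nat.choose]
  have hD : (0 : ℝ) < (1 + t) := by positivity
  have e : (0 : ℝ) + 1 * ((1 + t) ^ 2)⁻¹ =
      (0 * ((1 + t)) ^ 2 + 1 * (1) ^ 2) / ((1 + t)) ^ 2 := by
    field_simp
  rw [hJ, e, div_pow]
  apply div_le_div_of_nonneg_right _ (by positivity)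
  have hP : (1) ^ 2 - (0 * ((1 + t)) ^ 2 + 1 * (1) ^ 2) = 0 := by ring
  have hP0 : 0 ≤ 0 := by positivity
  linarith

lemma JJ_1_0 {t : ℝ} (ht : 0 ≤ t) : (1 : ℝ) + 0 * ((1 + t) ^ 2)⁻¹ ≤ (JJ 1 0 t) ^ 2 := by
  have h1 : (0 : ℝ) < 1 + t := by linarith
  have hJ : JJ 1 0 t = (1) / (1) := by
    unfold JJ
    simp only [Finset.sum_range_succ, Finset.sum_range_zero]
    norm_num [Nat.choose]
  rw [hJ]
  norm_num

lemma JJ_0_2 {t : ℝ} (ht : 0 ≤ t) : (0 : ℝ) + 2 * ((1 + t) ^ 2)⁻¹ ≤ (JJ 0 2 t) ^ 2 := by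
  have h1 : (0 : ℝ) < 1 + t := by linarith
  have hJ : JJ 0 2 t = ((3 / 2)) / ((1 + t)) := by
    unfold JJ
    simp only [Finset.sum_range_succ, Finset.sum_range_zero]
    norm_num [Nat.choose]
    field_simp
    ring
  have hD : (0 : ℝ) < (1 + t) := by positivity
  have e : (0 : ℝ) + 2 * ((1 + t) ^ 2)⁻¹ =
      (0 * ((1 + t)) ^ 2 + 2 * (1) ^ 2) / ((1 + t)) ^ 2 := by
    field_simp
  rw [hJ, e, div_pow]
  apply div_le_div_of_nonneg_right _ (by positivity)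
  have hP : ((3 / 2)) ^ 2 - (0 * ((1 + t)) ^ 2 + 2 * (1) ^ 2) = (1 / 4) := by ring
  have hP0 : 0 ≤ (1 / 4) := by positivity
  linarith

lemma JJ_1_1 {t : ℝ} (ht : 0 ≤ t) : (1 : ℝ) + 1 * ((1 + t) ^ 2)⁻¹ ≤ (JJ 1 1 t) ^ 2 := by
  have h1 : (0 : ℝ) < 1 + t := by linarith
  have hJ : JJ 1 1 t = (3 + 3 * t + 1 * t ^ 2) / ((1 + t) * (2 + t)) := by
    unfold JJ
    simp only [Finset.sum_range_succ, Finset.sum_range_zero]
    norm_num [Nat.choose]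
    field_simp
    ring
  have hD : (0 : ℝ) < (1 + t) * (2 + t) := by positivity
  have e : (1 : ℝ) + 1 * ((1 + t) ^ 2)⁻¹ =
      (1 * ((1 + t) * (2 + t)) ^ 2 + 1 * ((2 + t)) ^ 2) / ((1 + t) * (2 + t)) ^ 2 := by
    field_simp
  rw [hJ, e, div_pow]
  apply div_le_div_of_nonneg_right _ (by positivity)
  have hP : (3 + 3 * t + 1 * t ^ 2) ^ 2 - (1 * ((1 + t) * (2 + t)) ^ 2 + 1 * ((2 + t)) ^ 2) = 1 + 2 * t + 1 * t ^ 2 := by ring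
  have hP0 : 0 ≤ 1 + 2 * t + 1 * t ^ 2 := by positivity
  linarith

lemma JJ_2_0 {t : ℝ} (ht : 0 ≤ t) : (2 : ℝ) + 0 * ((1 + t) ^ 2)⁻¹ ≤ (JJ 2 0 t) ^ 2 := by
  have h1 : (0 : ℝ) < 1 + t := by linarith
  have hJ : JJ 2 0 t = ((3 / 2)) / (1) := by
    unfold JJ
    simp only [Finset.sum_range_succ, Finset.sum_range_zero]
    norm_num [Nat.choose]
  rw [hJ]
  norm_num

lemma JJ_0_3 {t : ℝ} (ht : 0 ≤ t) : (0 : ℝ) + 3 * ((1 + t) ^ 2)⁻¹ ≤ (JJ 0 3 t) ^ 2 := by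
  have h1 : (0 : ℝ) < 1 + t := by linarith
  have hJ : JJ 0 3 t = ((11 / 6)) / ((1 + t)) := by
    unfold JJ
    simp only [Finset.sum_range_succ, Finset.sum_range_zero]
    norm_num [Nat.choose]
    field_simp
    ring
  have hD : (0 : ℝ) < (1 + t) := by positivity
  have e : (0 : ℝ) + 3 * ((1 + t) ^ 2)⁻¹ =
      (0 * ((1 + t)) ^ 2 + 3 * (1) ^ 2) / ((1 + t)) ^ 2 := by
    field_simp
  rw [hJ, e, div_pow]
  apply div_le_div_of_nonneg_right _ (by positivity)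
  have hP : ((11 / 6)) ^ 2 - (0 * ((1 + t)) ^ 2 + 3 * (1) ^ 2) = (13 / 36) := by ring
  have hP0 : 0 ≤ (13 / 36) := by positivity
  linarith

lemma JJ_1_2 {t : ℝ} (ht : 0 ≤ t) : (1 : ℝ) + 2 * ((1 + t) ^ 2)⁻¹ ≤ (JJ 1 2 t) ^ 2 := by
  have h1 : (0 : ℝ) < 1 + t := by linarith
  have hJ : JJ 1 2 t = (11 + (33 / 2) * t + 9 * t ^ 2 + 2 * t ^ 3) / ((1 + t) * (2 + t) * (3 + 2 * t)) := by
    unfold JJ
    simp only [Finset.sum_range_succ, Finset.sum_range_zero]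
    norm_num [Nat.choose]
    field_simp
    ring
  have hD : (0 : ℝ) < (1 + t) * (2 + t) * (3 + 2 * t) := by positivity
  have e : (1 : ℝ) + 2 * ((1 + t) ^ 2)⁻¹ =
      (1 * ((1 + t) * (2 + t) * (3 + 2 * t)) ^ 2 + 2 * ((2 + t) * (3 + 2 * t)) ^ 2) / ((1 + t) * (2 + t) * (3 + 2 * t)) ^ 2 := by
    field_simp
  rw [hJ, e, div_pow]
  apply div_le_div_of_nonneg_right _ (by positivity)
  have hP : (11 + (33 / 2) * t + 9 * t ^ 2 + 2 * t ^ 3) ^ 2 - (1 * ((1 + t) * (2 + t) * (3 + 2 * t)) ^ 2 + 2 * ((2 + t) * (3 + 2 * t)) ^ 2) = 13 + 39 * t + (189 / 4) * t ^ 2 + 27 * t ^ 3 + 6 * t ^ 4 := by ring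
  have hP0 : 0 ≤ 13 + 39 * t + (189 / 4) * t ^ 2 + 27 * t ^ 3 + 6 * t ^ 4 := by positivity
  linarith

lemma JJ_2_1 {t : ℝ} (ht : 0 ≤ t) : (2 : ℝ) + 1 * ((1 + t) ^ 2)⁻¹ ≤ (JJ 2 1 t) ^ 2 := by
  have h1 : (0 : ℝ) < 1 + t := by linarith
  have hJ : JJ 2 1 t = (11 + (33 / 2) * t + 9 * t ^ 2 + (3 / 2) * t ^ 3) / ((1 + t) * (2 + t) * (3 + t)) := by
    unfold JJ
    simp only [Finset.sum_range_succ, Finset.sum_range_zero]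
    norm_num [Nat.choose]
    field_simp
    ring
  have hD : (0 : ℝ) < (1 + t) * (2 + t) * (3 + t) := by positivity
  have e : (2 : ℝ) + 1 * ((1 + t) ^ 2)⁻¹ =
      (2 * ((1 + t) * (2 + t) * (3 + t)) ^ 2 + 1 * ((2 + t) * (3 + t)) ^ 2) / ((1 + t) * (2 + t) * (3 + t)) ^ 2 := by
    field_simp
  rw [hJ, e, div_pow]
  apply div_le_div_of_nonneg_right _ (by positivity)
  have hP : (11 + (33 / 2) * t + 9 * t ^ 2 + (3 / 2) * t ^ 3) ^ 2 - (2 * ((1 + t) * (2 + t) * (3 + t)) ^ 2 + 1 * ((2 + t) * (3 + t)) ^ 2) = 13 + 39 * t + (189 / 4) * t ^ 2 + 32 * t ^ 3 + (27 / 2) * t ^ 4 + 3 * t ^ 5 + (1 / 4) * t ^ 6 := by ring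
  have hP0 : 0 ≤ 13 + 39 * t + (189 / 4) * t ^ 2 + 32 * t ^ 3 + (27 / 2) * t ^ 4 + 3 * t ^ 5 + (1 / 4) * t ^ 6 := by positivity
  linarith

lemma JJ_3_0 {t : ℝ} (ht : 0 ≤ t) : (3 : ℝ) + 0 * ((1 + t) ^ 2)⁻¹ ≤ (JJ 3 0 t) ^ 2 := by
  have h1 : (0 : ℝ) < 1 + t := by linarith
  have hJ : JJ 3 0 t = ((11 / 6)) / (1) := by
    unfold JJ
    simp only [Finset.sum_range_succ, Finset.sum_range_zero]
    norm_num [Nat.choose]
  rw [hJ]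
  norm_num

lemma JJ_0_4 {t : ℝ} (ht : 0 ≤ t) : (0 : ℝ) + 4 * ((1 + t) ^ 2)⁻¹ ≤ (JJ 0 4 t) ^ 2 := by
  have h1 : (0 : ℝ) < 1 + t := by linarith
  have hJ : JJ 0 4 t = ((25 / 12)) / ((1 + t)) := by
    unfold JJ
    simp only [Finset.sum_range_succ, Finset.sum_range_zero]
    norm_num [Nat.choose]
    field_simp
    ring
  have hD : (0 : ℝ) < (1 + t) := by positivity
  have e : (0 : ℝ) + 4 * ((1 + t) ^ 2)⁻¹ =
      (0 * ((1 + t)) ^ 2 + 4 * (1) ^ 2) / ((1 + t)) ^ 2 := by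
    field_simp
  rw [hJ, e, div_pow]
  apply div_le_div_of_nonneg_right _ (by positivity)
  have hP : ((25 / 12)) ^ 2 - (0 * ((1 + t)) ^ 2 + 4 * (1) ^ 2) = (49 / 144) := by ring
  have hP0 : 0 ≤ (49 / 144) := by positivity
  linarith

lemma JJ_1_3 {t : ℝ} (ht : 0 ≤ t) : (1 : ℝ) + 3 * ((1 + t) ^ 2)⁻¹ ≤ (JJ 1 3 t) ^ 2 := by
  have h1 : (0 : ℝ) < 1 + t := by linarith
  have hJ : JJ 1 3 t = (50 + (325 / 3) * t + (535 / 6) * t ^ 2 + 35 * t ^ 3 + 6 * t ^ 4) / ((1 + t) * (2 + t) * (3 + 2 * t) * (4 + 3 * t)) := by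
    unfold JJ
    simp only [Finset.sum_range_succ, Finset.sum_range_zero]
    norm_num [Nat.choose]
    field_simp
    ring
  have hD : (0 : ℝ) < (1 + t) * (2 + t) * (3 + 2 * t) * (4 + 3 * t) := by positivity
  have e : (1 : ℝ) + 3 * ((1 + t) ^ 2)⁻¹ =
      (1 * ((1 + t) * (2 + t) * (3 + 2 * t) * (4 + 3 * t)) ^ 2 + 3 * ((2 + t) * (3 + 2 * t) * (4 + 3 * t)) ^ 2) / ((1 + t) * (2 + t) * (3 + 2 * t) * (4 + 3 * t)) ^ 2 := by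
    field_simp
  rw [hJ, e, div_pow]
  apply div_le_div_of_nonneg_right _ (by positivity)
  have hP : (50 + (325 / 3) * t + (535 / 6) * t ^ 2 + 35 * t ^ 3 + 6 * t ^ 4) ^ 2 - (1 * ((1 + t) * (2 + t) * (3 + 2 * t) * (4 + 3 * t)) ^ 2 + 3 * ((2 + t) * (3 + 2 * t) * (4 + 3 * t)) ^ 2) = 196 + (2548 / 3) * t + (14659 / 9) * t ^ 2 + (15943 / 9) * t ^ 3 + (41113 / 36) * t ^ 4 + (1223 / 3) * t ^ 5 + 62 * t ^ 6 := by ring
  have hP0 : 0 ≤ 196 + (2548 / 3) * t + (14659 / 9) * t ^ 2 + (15943 / 9) * t ^ 3 + (41113 / 36) * t ^ 4 + (1223 / 3) * t ^ 5 + 62 * t ^ 6 := by positivity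
  linarith

lemma JJ_2_2 {t : ℝ} (ht : 0 ≤ t) : (2 : ℝ) + 2 * ((1 + t) ^ 2)⁻¹ ≤ (JJ 2 2 t) ^ 2 := by
  have h1 : (0 : ℝ) < 1 + t := by linarith
  have hJ : JJ 2 2 t = ((75 / 2) + 75 * t + 60 * t ^ 2 + (45 / 2) * t ^ 3 + 3 * t ^ 4) / ((1 + t) * (2 + t) * (3 + 2 * t) * (3 + t)) := by
    unfold JJ
    simp only [Finset.sum_range_succ, Finset.sum_range_zero]
    norm_num [Nat.choose]
    field_simp
    ring
  have hD : (0 : ℝ) < (1 + t) * (2 + t) * (3 + 2 * t) * (3 + t) := by positivity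
  have e : (2 : ℝ) + 2 * ((1 + t) ^ 2)⁻¹ =
      (2 * ((1 + t) * (2 + t) * (3 + 2 * t) * (3 + t)) ^ 2 + 2 * ((2 + t) * (3 + 2 * t) * (3 + t)) ^ 2) / ((1 + t) * (2 + t) * (3 + 2 * t) * (3 + t)) ^ 2 := by
    field_simp
  rw [hJ, e, div_pow]
  apply div_le_div_of_nonneg_right _ (by positivity)
  have hP : ((75 / 2) + 75 * t + 60 * t ^ 2 + (45 / 2) * t ^ 3 + 3 * t ^ 4) ^ 2 - (2 * ((1 + t) * (2 + t) * (3 + 2 * t) * (3 + t)) ^ 2 + 2 * ((2 + t) * (3 + 2 * t) * (3 + t)) ^ 2) = (441 / 4) + 441 * t + 801 * t ^ 2 + (1719 / 2) * t ^ 3 + 602 * t ^ 4 + 286 * t ^ 5 + (353 / 4) * t ^ 6 + 15 * t ^ 7 + 1 * t ^ 8 := by ring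
  have hP0 : 0 ≤ (441 / 4) + 441 * t + 801 * t ^ 2 + (1719 / 2) * t ^ 3 + 602 * t ^ 4 + 286 * t ^ 5 + (353 / 4) * t ^ 6 + 15 * t ^ 7 + 1 * t ^ 8 := by positivity
  linarith

lemma JJ_3_1 {t : ℝ} (ht : 0 ≤ t) : (3 : ℝ) + 1 * ((1 + t) ^ 2)⁻¹ ≤ (JJ 3 1 t) ^ 2 := by
  have h1 : (0 : ℝ) < 1 + t := by linarith
  have hJ : JJ 3 1 t = (50 + (275 / 3) * t + (385 / 6) * t ^ 2 + (55 / 3) * t ^ 3 + (11 / 6) * t ^ 4) / ((1 + t) * (2 + t) * (3 + t) * (4 + t)) := by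
    unfold JJ
    simp only [Finset.sum_range_succ, Finset.sum_range_zero]
    norm_num [Nat.choose]
    field_simp
    ring
  have hD : (0 : ℝ) < (1 + t) * (2 + t) * (3 + t) * (4 + t) := by positivity
  have e : (3 : ℝ) + 1 * ((1 + t) ^ 2)⁻¹ =
      (3 * ((1 + t) * (2 + t) * (3 + t) * (4 + t)) ^ 2 + 1 * ((2 + t) * (3 + t) * (4 + t)) ^ 2) / ((1 + t) * (2 + t) * (3 + t) * (4 + t)) ^ 2 := by
    field_simp
  rw [hJ, e, div_pow]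
  apply div_le_div_of_nonneg_right _ (by positivity)
  have hP : (50 + (275 / 3) * t + (385 / 6) * t ^ 2 + (55 / 3) * t ^ 3 + (11 / 6) * t ^ 4) ^ 2 - (3 * ((1 + t) * (2 + t) * (3 + t) * (4 + t)) ^ 2 + 1 * ((2 + t) * (3 + t) * (4 + t)) ^ 2) = 196 + (2156 / 3) * t + (10543 / 9) * t ^ 2 + (10271 / 9) * t ^ 3 + (25553 / 36) * t ^ 4 + (2438 / 9) * t ^ 5 + (1087 / 18) * t ^ 6 + (65 / 9) * t ^ 7 + (13 / 36) * t ^ 8 := by ring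
  have hP0 : 0 ≤ 196 + (2156 / 3) * t + (10543 / 9) * t ^ 2 + (10271 / 9) * t ^ 3 + (25553 / 36) * t ^ 4 + (2438 / 9) * t ^ 5 + (1087 / 18) * t ^ 6 + (65 / 9) * t ^ 7 + (13 / 36) * t ^ 8 := by positivity
  linarith

lemma JJ_4_0 {t : ℝ} (ht : 0 ≤ t) : (4 : ℝ) + 0 * ((1 + t) ^ 2)⁻¹ ≤ (JJ 4 0 t) ^ 2 := by
  have h1 : (0 : ℝ) < 1 + t := by linarith
  have hJ : JJ 4 0 t = ((25 / 12)) / (1) := by
    unfold JJ
    simp only [Finset.sum_range_succ, Finset.sum_range_zero]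
    norm_num [Nat.choose]
  rw [hJ]
  norm_num

lemma JJ_0_5 {t : ℝ} (ht : 0 ≤ t) : (0 : ℝ) + 5 * ((1 + t) ^ 2)⁻¹ ≤ (JJ 0 5 t) ^ 2 := by
  have h1 : (0 : ℝ) < 1 + t := by linarith
  have hJ : JJ 0 5 t = ((137 / 60)) / ((1 + t)) := by
    unfold JJ
    simp only [Finset.sum_range_succ, Finset.sum_range_zero]
    norm_num [Nat.choose]
    field_simp
    ring
  have hD : (0 : ℝ) < (1 + t) := by positivity
  have e : (0 : ℝ) + 5 * ((1 + t) ^ 2)⁻¹ =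
      (0 * ((1 + t)) ^ 2 + 5 * (1) ^ 2) / ((1 + t)) ^ 2 := by
    field_simp
  rw [hJ, e, div_pow]
  apply div_le_div_of_nonneg_right _ (by positivity)
  have hP : ((137 / 60)) ^ 2 - (0 * ((1 + t)) ^ 2 + 5 * (1) ^ 2) = (769 / 3600) := by ring
  have hP0 : 0 ≤ (769 / 3600) := by positivity
  linarith

lemma JJ_1_4 {t : ℝ} (ht : 0 ≤ t) : (1 : ℝ) + 4 * ((1 + t) ^ 2)⁻¹ ≤ (JJ 1 4 t) ^ 2 := by
  have h1 : (0 : ℝ) < 1 + t := by linarith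
  have hJ : JJ 1 4 t = (274 + (4795 / 6) * t + (11105 / 12) * t ^ 2 + (3265 / 6) * t ^ 3 + 170 * t ^ 4 + 24 * t ^ 5) / ((1 + t) * (2 + t) * (3 + 2 * t) * (4 + 3 * t) * (5 + 4 * t)) := by
    unfold JJ
    simp only [Finset.sum_range_succ, Finset.sum_range_zero]
    norm_num [Nat.choose]
    field_simp
    ring
  have hD : (0 : ℝ) < (1 + t) * (2 + t) * (3 + 2 * t) * (4 + 3 * t) * (5 + 4 * t) := by positivity
  have e : (1 : ℝ) + 4 * ((1 + t) ^ 2)⁻¹ =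
      (1 * ((1 + t) * (2 + t) * (3 + 2 * t) * (4 + 3 * t) * (5 + 4 * t)) ^ 2 + 4 * ((2 + t) * (3 + 2 * t) * (4 + 3 * t) * (5 + 4 * t)) ^ 2) / ((1 + t) * (2 + t) * (3 + 2 * t) * (4 + 3 * t) * (5 + 4 * t)) ^ 2 := by
    field_simp
  rw [hJ, e, div_pow]
  apply div_le_div_of_nonneg_right _ (by positivity)
  have hP : (274 + (4795 / 6) * t + (11105 / 12) * t ^ 2 + (3265 / 6) * t ^ 3 + 170 * t ^ 4 + 24 * t ^ 5) ^ 2 - (1 * ((1 + t) * (2 + t) * (3 + 2 * t) * (4 + 3 * t) * (5 + 4 * t)) ^ 2 + 4 * ((2 + t) * (3 + 2 * t) * (4 + 3 * t) * (5 + 4 * t)) ^ 2) = 3076 + (53830 / 3) * t + (1754485 / 36) * t ^ 2 + (2911523 / 36) * t ^ 3 + (4272899 / 48) * t ^ 4 + (2358593 / 36) * t ^ 5 + (1114345 / 36) * t ^ 6 + (25394 / 3) * t ^ 7 + 1016 * t ^ 8 := by ring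
  have hP0 : 0 ≤ 3076 + (53830 / 3) * t + (1754485 / 36) * t ^ 2 + (2911523 / 36) * t ^ 3 + (4272899 / 48) * t ^ 4 + (2358593 / 36) * t ^ 5 + (1114345 / 36) * t ^ 6 + (25394 / 3) * t ^ 7 + 1016 * t ^ 8 := by positivity
  linarith

lemma JJ_2_3 {t : ℝ} (ht : 0 ≤ t) : (2 : ℝ) + 3 * ((1 + t) ^ 2)⁻¹ ≤ (JJ 2 3 t) ^ 2 := by
  have h1 : (0 : ℝ) < 1 + t := by linarith
  have hJ : JJ 2 3 t = (822 + (5343 / 2) * t + (22075 / 6) * t ^ 2 + (8320 / 3) * t ^ 3 + (2415 / 2) * t ^ 4 + (567 / 2) * t ^ 5 + 27 * t ^ 6) / ((1 + t) * (2 + t) * (3 + 2 * t) * (4 + 3 * t) * (3 + t) * (5 + 3 * t)) := by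
    unfold JJ
    simp only [Finset.sum_range_succ, Finset.sum_range_zero]
    norm_num [Nat.choose]
    field_simp
    ring
  have hD : (0 : ℝ) < (1 + t) * (2 + t) * (3 + 2 * t) * (4 + 3 * t) * (3 + t) * (5 + 3 * t) := by positivity
  have e : (2 : ℝ) + 3 * ((1 + t) ^ 2)⁻¹ =
      (2 * ((1 + t) * (2 + t) * (3 + 2 * t) * (4 + 3 * t) * (3 + t) * (5 + 3 * t)) ^ 2 + 3 * ((2 + t) * (3 + 2 * t) * (4 + 3 * t) * (3 + t) * (5 + 3 * t)) ^ 2) / ((1 + t) * (2 + t) * (3 + 2 * t) * (4 + 3 * t) * (3 + t) * (5 + 3 * t)) ^ 2 := by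
    field_simp
  rw [hJ, e, div_pow]
  apply div_le_div_of_nonneg_right _ (by positivity)
  have hP : (822 + (5343 / 2) * t + (22075 / 6) * t ^ 2 + (8320 / 3) * t ^ 3 + (2415 / 2) * t ^ 4 + (567 / 2) * t ^ 5 + 27 * t ^ 6) ^ 2 - (2 * ((1 + t) * (2 + t) * (3 + 2 * t) * (4 + 3 * t) * (3 + t) * (5 + 3 * t)) ^ 2 + 3 * ((2 + t) * (3 + 2 * t) * (4 + 3 * t) * (3 + t) * (5 + 3 * t)) ^ 2) = 27684 + 179946 * t + (2257609 / 4) * t ^ 2 + (2244927 / 2) * t ^ 3 + (56115085 / 36) * t ^ 4 + (28368677 / 18) * t ^ 5 + (10637692 / 9) * t ^ 6 + (1319705 / 2) * t ^ 7 + (1083049 / 4) * t ^ 8 + (157689 / 2) * t ^ 9 + (60813 / 4) * t ^ 10 + 1701 * t ^ 11 + 81 * t ^ 12 := by ring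
  have hP0 : 0 ≤ 27684 + 179946 * t + (2257609 / 4) * t ^ 2 + (2244927 / 2) * t ^ 3 + (56115085 / 36) * t ^ 4 + (28368677 / 18) * t ^ 5 + (10637692 / 9) * t ^ 6 + (1319705 / 2) * t ^ 7 + (1083049 / 4) * t ^ 8 + (157689 / 2) * t ^ 9 + (60813 / 4) * t ^ 10 + 1701 * t ^ 11 + 81 * t ^ 12 := by positivity
  linarith

lemma JJ_3_2 {t : ℝ} (ht : 0 ≤ t) : (3 : ℝ) + 2 * ((1 + t) ^ 2)⁻¹ ≤ (JJ 3 2 t) ^ 2 := by
  have h1 : (0 : ℝ) < 1 + t := by linarith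
  have hJ : JJ 3 2 t = (822 + (4521 / 2) * t + (7955 / 3) * t ^ 2 + (5005 / 3) * t ^ 3 + (1155 / 2) * t ^ 4 + (308 / 3) * t ^ 5 + (22 / 3) * t ^ 6) / ((1 + t) * (2 + t) * (3 + 2 * t) * (3 + t) * (4 + t) * (5 + 2 * t)) := by
    unfold JJ
    simp only [Finset.sum_range_succ, Finset.sum_range_zero]
    norm_num [Nat.choose]
    field_simp
    ring
  have hD : (0 : ℝ) < (1 + t) * (2 + t) * (3 + 2 * t) * (3 + t) * (4 + t) * (5 + 2 * t) := by positivity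
  have e : (3 : ℝ) + 2 * ((1 + t) ^ 2)⁻¹ =
      (3 * ((1 + t) * (2 + t) * (3 + 2 * t) * (3 + t) * (4 + t) * (5 + 2 * t)) ^ 2 + 2 * ((2 + t) * (3 + 2 * t) * (3 + t) * (4 + t) * (5 + 2 * t)) ^ 2) / ((1 + t) * (2 + t) * (3 + 2 * t) * (3 + t) * (4 + t) * (5 + 2 * t)) ^ 2 := by
    field_simp
  rw [hJ, e, div_pow]
  apply div_le_div_of_nonneg_right _ (by positivity)
  have hP : (822 + (4521 / 2) * t + (7955 / 3) * t ^ 2 + (5005 / 3) * t ^ 3 + (1155 / 2) * t ^ 4 + (308 / 3) * t ^ 5 + (22 / 3) * t ^ 6) ^ 2 - (3 * ((1 + t) * (2 + t) * (3 + 2 * t) * (3 + t) * (4 + t) * (5 + 2 * t)) ^ 2 + 2 * ((2 + t) * (3 + 2 * t) * (3 + t) * (4 + t) * (5 + 2 * t)) ^ 2) = 27684 + 152262 * t + (1648561 / 4) * t ^ 2 + 715009 * t ^ 3 + (7804549 / 9) * t ^ 4 + (13628039 / 18) * t ^ 5 + (4295440 / 9) * t ^ 6 + (1934339 / 9) * t ^ 7 + (2441045 / 36) * t ^ 8 +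 (130832 / 9) * t ^ 9 + (18094 / 9) * t ^ 10 + (1456 / 9) * t ^ 11 + (52 / 9) * t ^ 12 := by ring
  have hP0 : 0 ≤ 27684 + 152262 * t + (1648561 / 4) * t ^ 2 + 715009 * t ^ 3 + (7804549 / 9) * t ^ 4 + (13628039 / 18) * t ^ 5 + (4295440 / 9) * t ^ 6 + (1934339 / 9) * t ^ 7 + (2441045 / 36) * t ^ 8 + (130832 / 9) * t ^ 9 + (18094 / 9) * t ^ 10 + (1456 / 9) * t ^ 11 + (52 / 9) * t ^ 12 := by positivity
  linarith

lemma JJ_4_1 {t : ℝ} (ht : 0 ≤ t) : (4 : ℝ) + 1 * ((1 + t) ^ 2)⁻¹ ≤ (JJ 4 1 t) ^ 2 := by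
  have h1 : (0 : ℝ) < 1 + t := by linarith
  have hJ : JJ 4 1 t = (274 + (3425 / 6) * t + (1875 / 4) * t ^ 2 + (2125 / 12) * t ^ 3 + (125 / 4) * t ^ 4 + (25 / 12) * t ^ 5) / ((1 + t) * (2 + t) * (3 + t) * (4 + t) * (5 + t)) := by
    unfold JJ
    simp only [Finset.sum_range_succ, Finset.sum_range_zero]
    norm_num [Nat.choose]
    field_simp
    ring
  have hD : (0 : ℝ) < (1 + t) * (2 + t) * (3 + t) * (4 + t) * (5 + t) := by positivity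
  have e : (4 : ℝ) + 1 * ((1 + t) ^ 2)⁻¹ =
      (4 * ((1 + t) * (2 + t) * (3 + t) * (4 + t) * (5 + t)) ^ 2 + 1 * ((2 + t) * (3 + t) * (4 + t) * (5 + t)) ^ 2) / ((1 + t) * (2 + t) * (3 + t) * (4 + t) * (5 + t)) ^ 2 := by
    field_simp
  rw [hJ, e, div_pow]
  apply div_le_div_of_nonneg_right _ (by positivity)
  have hP : (274 + (3425 / 6) * t + (1875 / 4) * t ^ 2 + (2125 / 12) * t ^ 3 + (125 / 4) * t ^ 4 + (25 / 12) * t ^ 5) ^ 2 - (4 * ((1 + t) * (2 + t) * (3 + t) * (4 + t) * (5 + t)) ^ 2 + 1 * ((2 + t) * (3 + t) * (4 + t) * (5 + t)) ^ 2) = 3076 + (38450 / 3) * t + (923965 / 36) * t ^ 2 + (386039 / 12) * t ^ 3 + (3774053 / 144) * t ^ 4 + (109587 / 8) * t ^ 5 + (220985 / 48) * t ^ 6 + (5957 / 6) * t ^ 7 + (19211 / 144) * t ^ 8 + (245 / 24) * t ^ 9 + (49 / 144) * t ^ 10 := by ring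
  have hP0 : 0 ≤ 3076 + (38450 / 3) * t + (923965 / 36) * t ^ 2 + (386039 / 12) * t ^ 3 + (3774053 / 144) * t ^ 4 + (109587 / 8) * t ^ 5 + (220985 / 48) * t ^ 6 + (5957 / 6) * t ^ 7 + (19211 / 144) * t ^ 8 + (245 / 24) * t ^ 9 + (49 / 144) * t ^ 10 := by positivity
  linarith

lemma JJ_5_0 {t : ℝ} (ht : 0 ≤ t) : (5 : ℝ) + 0 * ((1 + t) ^ 2)⁻¹ ≤ (JJ 5 0 t) ^ 2 := by
  have h1 : (0 : ℝ) < 1 + t := by linarith
  have hJ : JJ 5 0 t = ((137 / 60)) / (1) := by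
    unfold JJ
    simp only [Finset.sum_range_succ, Finset.sum_range_zero]
    norm_num [Nat.choose]
  rw [hJ]
  norm_num

lemma JJ_0_6 {t : ℝ} (ht : 0 ≤ t) : (0 : ℝ) + 6 * ((1 + t) ^ 2)⁻¹ ≤ (JJ 0 6 t) ^ 2 := by
  have h1 : (0 : ℝ) < 1 + t := by linarith
  have hJ : JJ 0 6 t = ((49 / 20)) / ((1 + t)) := by
    unfold JJ
    simp only [Finset.sum_range_succ, Finset.sum_range_zero]
    norm_num [Nat.choose]
    field_simp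
    ring
  have hD : (0 : ℝ) < (1 + t) := by positivity
  have e : (0 : ℝ) + 6 * ((1 + t) ^ 2)⁻¹ =
      (0 * ((1 + t)) ^ 2 + 6 * (1) ^ 2) / ((1 + t)) ^ 2 := by
    field_simp
  rw [hJ, e, div_pow]
  apply div_le_div_of_nonneg_right _ (by positivity)
  have hP : ((49 / 20)) ^ 2 - (0 * ((1 + t)) ^ 2 + 6 * (1) ^ 2) = (1 / 400) := by ring
  have hP0 : 0 ≤ (1 / 400) := by positivity
  linarith

lemma JJ_1_5 {t : ℝ} (ht : 0 ≤ t) : (1 : ℝ) + 5 * ((1 + t) ^ 2)⁻¹ ≤ (JJ 1 5 t) ^ 2 := by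
  have h1 : (0 : ℝ) < 1 + t := by linarith
  have hJ : JJ 1 5 t = (1764 + (32781 / 5) * t + (150437 / 15) * t ^ 2 + (489377 / 60) * t ^ 3 + (113869 / 30) * t ^ 4 + 994 * t ^ 5 + 120 * t ^ 6) / ((1 + t) * (2 + t) * (3 + 2 * t) * (4 + 3 * t) * (5 + 4 * t) * (6 + 5 * t)) := by
    unfold JJ
    simp only [Finset.sum_range_succ, Finset.sum_range_zero]
    norm_num [Nat.choose]
    field_simp
    ring
  have hD : (0 : ℝ) < (1 + t) * (2 + t) * (3 + 2 * t) * (4 + 3 * t) * (5 + 4 * t) * (6 + 5 * t) := by positivity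
  have e : (1 : ℝ) + 5 * ((1 + t) ^ 2)⁻¹ =
      (1 * ((1 + t) * (2 + t) * (3 + 2 * t) * (4 + 3 * t) * (5 + 4 * t) * (6 + 5 * t)) ^ 2 + 5 * ((2 + t) * (3 + 2 * t) * (4 + 3 * t) * (5 + 4 * t) * (6 + 5 * t)) ^ 2) / ((1 + t) * (2 + t) * (3 + 2 * t) * (4 + 3 * t) * (5 + 4 * t) * (6 + 5 * t)) ^ 2 := by
    field_simp
  rw [hJ, e, div_pow]
  apply div_le_div_of_nonneg_right _ (by positivity)
  have hP : (1764 + (32781 / 5) * t + (150437 / 15) * t ^ 2 + (489377 / 60) * t ^ 3 + (113869 / 30) * t ^ 4 + 994 * t ^ 5 + 120 * t ^ 6) ^ 2 - (1 * ((1 + t) * (2 + t) * (3 + 2 * t) * (4 + 3 * t) * (5 + 4 * t) * (6 + 5 * t)) ^ 2 + 5 * ((2 + t) * (3 + 2 * t) * (4 + 3 * t) * (5 + 4 * t) * (6 + 5 * t)) ^ 2) = 1296 + (48168 / 5) * t + (3737121 / 25) * t ^ 2 + (20790388 / 25) * t ^ 3 + (1027763729 / 450) * t ^ 4 + (1656864283 / 450) * t ^ 5 + (1497996393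 / 400) * t ^ 6 + (2203665173 / 900) * t ^ 7 + (902709601 / 900) * t ^ 8 + (3527506 / 15) * t ^ 9 + 24152 * t ^ 10 := by ring
  have hP0 : 0 ≤ 1296 + (48168 / 5) * t + (3737121 / 25) * t ^ 2 + (20790388 / 25) * t ^ 3 + (1027763729 / 450) * t ^ 4 + (1656864283 / 450) * t ^ 5 + (1497996393 / 400) * t ^ 6 + (2203665173 / 900) * t ^ 7 + (902709601 / 900) * t ^ 8 + (3527506 / 15) * t ^ 9 + 24152 * t ^ 10 := by positivity
  linarith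

lemma JJ_2_4 {t : ℝ} (ht : 0 ≤ t) : (2 : ℝ) + 4 * ((1 + t) ^ 2)⁻¹ ≤ (JJ 2 4 t) ^ 2 := by
  have h1 : (0 : ℝ) < 1 + t := by linarith
  have hJ : JJ 2 4 t = (4410 + (35133 / 2) * t + (361711 / 12) * t ^ 2 + (174755 / 6) * t ^ 3 + (206815 / 12) * t ^ 4 + (12495 / 2) * t ^ 5 + 1269 * t ^ 6 + 108 * t ^ 7) / ((1 + t) * (2 + t) * (3 + 2 * t) * (4 + 3 * t) * (5 + 4 * t) * (3 + t) * (5 + 3 * t)) := by
    unfold JJ
    simp only [Finset.sum_range_succ, Finset.sum_range_zero]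
    norm_num [Nat.choose]
    field_simp
    ring
  have hD : (0 : ℝ) < (1 + t) * (2 + t) * (3 + 2 * t) * (4 + 3 * t) * (5 + 4 * t) * (3 + t) * (5 + 3 * t) := by positivity
  have e : (2 : ℝ) + 4 * ((1 + t) ^ 2)⁻¹ =
      (2 * ((1 + t) * (2 + t) * (3 + 2 * t) * (4 + 3 * t) * (5 + 4 * t) * (3 + t) * (5 + 3 * t)) ^ 2 + 4 * ((2 + t) * (3 + 2 * t) * (4 + 3 * t) * (5 + 4 * t) * (3 + t) * (5 + 3 * t)) ^ 2) / ((1 + t) * (2 + t) * (3 + 2 * t) * (4 + 3 * t) * (5 + 4 * t) * (3 + t) * (5 + 3 * t)) ^ 2 := by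
    field_simp
  rw [hJ, e, div_pow]
  apply div_le_div_of_nonneg_right _ (by positivity)
  have hP : (4410 + (35133 / 2) * t + (361711 / 12) * t ^ 2 + (174755 / 6) * t ^ 3 + (206815 / 12) * t ^ 4 + (12495 / 2) * t ^ 5 + 1269 * t ^ 6 + 108 * t ^ 7) ^ 2 - (2 * ((1 + t) * (2 + t) * (3 + 2 * t) * (4 + 3 * t) * (5 + 4 * t) * (3 + t) * (5 + 3 * t)) ^ 2 + 4 * ((2 + t) * (3 + 2 * t) * (4 + 3 * t) * (5 + 4 * t) * (3 + t) * (5 + 3 * t)) ^ 2) = 8100 + 64530 * t + (5630829 / 4) * t ^ 2 + (35016281 / 4) * t ^ 3 + (3897499897 / 144) * t ^ 4 + (924684607 / 18) * t ^ 5 + (1583435509 / 24) * t ^ 6 + (543126593 / 9) * t ^ 7 + (5811400609 / 144) * t ^ 8 + (79571447 / 4) * t ^ 9 + (28636699 / 4) * t ^ 10 + 1823121 * t ^ 11 + 308133 * t ^ 12 + 30456 * t ^ 13 + 1296 * t ^ 14 := by ring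
  have hP0 : 0 ≤ 8100 + 64530 * t + (5630829 / 4) * t ^ 2 + (35016281 / 4) * t ^ 3 + (3897499897 / 144) * t ^ 4 + (924684607 / 18) * t ^ 5 + (1583435509 / 24) * t ^ 6 + (543126593 / 9) * t ^ 7 + (5811400609 / 144) * t ^ 8 + (79571447 / 4) * t ^ 9 + (28636699 / 4) * t ^ 10 + 1823121 * t ^ 11 + 308133 * t ^ 12 + 30456 * t ^ 13 + 1296 * t ^ 14 := by positivity
  linarith

lemma JJ_3_3 {t : ℝ} (ht : 0 ≤ t) : (3 : ℝ) + 3 * ((1 + t) ^ 2)⁻¹ ≤ (JJ 3 3 t) ^ 2 := by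
  have h1 : (0 : ℝ) < 1 + t := by linarith
  have hJ : JJ 3 3 t = (17640 + 70560 * t + (249025 / 2) * t ^ 2 + (253155 / 2) * t ^ 3 + (241955 / 3) * t ^ 4 + (195965 / 6) * t ^ 5 + (48697 / 6) * t ^ 6 + 1122 * t ^ 7 + 66 * t ^ 8) / ((1 + t) * (2 + t) * (3 + 2 * t) * (4 + 3 * t) * (3 + t) * (5 + 3 * t) * (4 + t) * (5 + 2 * t)) := by
    unfold JJ
    simp only [Finset.sum_range_succ, Finset.sum_range_zero]
    norm_num [Nat.choose]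
    field_simp
    ring
  have hD : (0 : ℝ) < (1 + t) * (2 + t) * (3 + 2 * t) * (4 + 3 * t) * (3 + t) * (5 + 3 * t) * (4 + t) * (5 + 2 * t) := by positivity
  have e : (3 : ℝ) + 3 * ((1 + t) ^ 2)⁻¹ =
      (3 * ((1 + t) * (2 + t) * (3 + 2 * t) * (4 + 3 * t) * (3 + t) * (5 + 3 * t) * (4 + t) * (5 + 2 * t)) ^ 2 + 3 * ((2 + t) * (3 + 2 * t) * (4 + 3 * t) * (3 + t) * (5 + 3 * t) * (4 + t) * (5 + 2 * t)) ^ 2) / ((1 + t) * (2 + t) * (3 + 2 * t) * (4 + 3 * t) * (3 + t) * (5 + 3 * t) * (4 + t) * (5 + 2 * t)) ^ 2 := by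
    field_simp
  rw [hJ, e, div_pow]
  apply div_le_div_of_nonneg_right _ (by positivity)
  have hP : (17640 + 70560 * t + (249025 / 2) * t ^ 2 + (253155 / 2) * t ^ 3 + (241955 / 3) * t ^ 4 + (195965 / 6) * t ^ 5 + (48697 / 6) * t ^ 6 + 1122 * t ^ 7 + 66 * t ^ 8) ^ 2 - (3 * ((1 + t) * (2 + t) * (3 + 2 * t) * (4 + 3 * t) * (3 + t) * (5 + 3 * t) * (4 + t) * (5 + 2 * t)) ^ 2 + 3 * ((2 + t) * (3 + 2 * t) * (4 + 3 * t) * (3 + t) * (5 + 3 * t) * (4 + t) * (5 + 2 * t)) ^ 2) = 129600 + 1036800 * t + 24935400 * t ^ 2 + 156403800 * t ^ 3 + (1966077409 / 4) * t ^ 4 + (1926082227 / 2) * t ^ 5 + (15577789583 / 12) * t ^ 6 + (7601644115 / 6) * t ^ 7 + (8276343730 / 9) * t ^ 8 + (9042557843 / 18) * t ^ 9 + (827081949 / 4) * t ^ 10 + (1144547597 / 18) * t ^ 11 + (516237709 / 36) * t ^ 12 + 2295508 * t ^ 13 + 246466 * t ^ 14 + 15912 * t ^ 15 + 468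 * t ^ 16 := by ring
  have hP0 : 0 ≤ 129600 + 1036800 * t + 24935400 * t ^ 2 + 156403800 * t ^ 3 + (1966077409 / 4) * t ^ 4 + (1926082227 / 2) * t ^ 5 + (15577789583 / 12) * t ^ 6 + (7601644115 / 6) * t ^ 7 + (8276343730 / 9) * t ^ 8 + (9042557843 / 18) * t ^ 9 + (827081949 / 4) * t ^ 10 + (1144547597 / 18) * t ^ 11 + (516237709 / 36) * t ^ 12 + 2295508 * t ^ 13 + 246466 * t ^ 14 + 15912 * t ^ 15 + 468 * t ^ 16 := by positivity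
  linarith

lemma JJ_4_2 {t : ℝ} (ht : 0 ≤ t) : (4 : ℝ) + 2 * ((1 + t) ^ 2)⁻¹ ≤ (JJ 4 2 t) ^ 2 := by
  have h1 : (0 : ℝ) < 1 + t := by linarith
  have hJ : JJ 4 2 t = (4410 + (26607 / 2) * t + (208243 / 12) * t ^ 2 + (149275 / 12) * t ^ 3 + (62125 / 12) * t ^ 4 + (14875 / 12) * t ^ 5 + (475 / 3) * t ^ 6 + (25 / 3) * t ^ 7) / ((1 + t) * (2 + t) * (3 + 2 * t) * (3 + t) * (4 + t) * (5 + 2 * t) * (5 + t)) := by
    unfold JJ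
    simp only [Finset.sum_range_succ, Finset.sum_range_zero]
    norm_num [Nat.choose]
    field_simp
    ring
  have hD : (0 : ℝ) < (1 + t) * (2 + t) * (3 + 2 * t) * (3 + t) * (4 + t) * (5 + 2 * t) * (5 + t) := by positivity
  have e : (4 : ℝ) + 2 * ((1 + t) ^ 2)⁻¹ =
      (4 * ((1 + t) * (2 + t) * (3 + 2 * t) * (3 + t) * (4 + t) * (5 + 2 * t) * (5 + t)) ^ 2 + 2 * ((2 + t) * (3 + 2 * t) * (3 + t) * (4 + t) * (5 + 2 * t) * (5 + t)) ^ 2) / ((1 + t) * (2 + t) * (3 + 2 * t) * (3 + t) * (4 + t) * (5 + 2 * t) * (5 + t)) ^ 2 := by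
    field_simp
  rw [hJ, e, div_pow]
  apply div_le_div_of_nonneg_right _ (by positivity)
  have hP : (4410 + (26607 / 2) * t + (208243 / 12) * t ^ 2 + (149275 / 12) * t ^ 3 + (62125 / 12) * t ^ 4 + (14875 / 12) * t ^ 5 + (475 / 3) * t ^ 6 + (25 / 3) * t ^ 7) ^ 2 - (4 * ((1 + t) * (2 + t) * (3 + 2 * t) * (3 + t) * (4 + t) * (5 + 2 * t) * (5 + t)) ^ 2 + 2 * ((2 + t) * (3 + 2 * t) * (3 + t) * (4 + t) * (5 + 2 * t) * (5 + t)) ^ 2) = 8100 + 48870 * t + (5223669 / 4) * t ^ 2 + (24213907 / 4) * t ^ 3 + (1919865205 / 144) * t ^ 4 + (1266287707 / 72) * t ^ 5 + (732987905 / 48) * t ^ 6 + (82246351 / 9) * t ^ 7 + (555498515 / 144) * t ^ 8 + (27807557 / 24) * t ^ 9 + (35498153 / 144) * t ^ 10 + (327487 / 9) * t ^ 11 + (21319 / 6) * t ^ 12 + (1862 / 9) * t ^ 13 + (49 / 9) * t ^ 14 := by ring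
  have hP0 : 0 ≤ 8100 + 48870 * t + (5223669 / 4) * t ^ 2 + (24213907 / 4) * t ^ 3 + (1919865205 / 144) * t ^ 4 + (1266287707 / 72) * t ^ 5 + (732987905 / 48) * t ^ 6 + (82246351 / 9) * t ^ 7 + (555498515 / 144) * t ^ 8 + (27807557 / 24) * t ^ 9 + (35498153 / 144) * t ^ 10 + (327487 / 9) * t ^ 11 + (21319 / 6) * t ^ 12 + (1862 / 9) * t ^ 13 + (49 / 9) * t ^ 14 := by positivity
  linarith

lemma JJ_5_1 {t : ℝ} (ht : 0 ≤ t) : (5 : ℝ) + 1 * ((1 + t) ^ 2)⁻¹ ≤ (JJ 5 1 t) ^ 2 := by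
  have h1 : (0 : ℝ) < 1 + t := by linarith
  have hJ : JJ 5 1 t = (1764 + (20139 / 5) * t + (55622 / 15) * t ^ 2 + (6713 / 4) * t ^ 3 + (4795 / 12) * t ^ 4 + (959 / 20) * t ^ 5 + (137 / 60) * t ^ 6) / ((1 + t) * (2 + t) * (3 + t) * (4 + t) * (5 + t) * (6 + t)) := by
    unfold JJ
    simp only [Finset.sum_range_succ, Finset.sum_range_zero]
    norm_num [Nat.choose]
    field_simp
    ring
  have hD : (0 : ℝ) < (1 + t) * (2 + t) * (3 + t) * (4 + t) * (5 + t) * (6 + t) := by positivity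
  have e : (5 : ℝ) + 1 * ((1 + t) ^ 2)⁻¹ =
      (5 * ((1 + t) * (2 + t) * (3 + t) * (4 + t) * (5 + t) * (6 + t)) ^ 2 + 1 * ((2 + t) * (3 + t) * (4 + t) * (5 + t) * (6 + t)) ^ 2) / ((1 + t) * (2 + t) * (3 + t) * (4 + t) * (5 + t) * (6 + t)) ^ 2 := by
    field_simp
  rw [hJ, e, div_pow]
  apply div_le_div_of_nonneg_right _ (by positivity)
  have hP : (1764 + (20139 / 5) * t + (55622 / 15) * t ^ 2 + (6713 / 4) * t ^ 3 + (4795 / 12) * t ^ 4 + (959 / 20) * t ^ 5 + (137 / 60) * t ^ 6) ^ 2 - (5 * ((1 + t) * (2 + t) * (3 + t) * (4 + t) * (5 + t) * (6 + t)) ^ 2 + 1 * ((2 + t) * (3 + t) * (4 + t) * (5 + t) * (6 + t)) ^ 2) = 1296 + (29592 / 5) * t + (3226281 / 25) * t ^ 2 + (10462622 / 25) * t ^ 3 + (260178083 / 450) * t ^ 4 + (13104019 / 30) * t ^ 5 + (735059657 / 3600) * t ^ 6 + (12583013 / 200) * t ^ 7 + (15743789 / 1200) * t ^ 8 + (36881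 / 20) * t ^ 9 + (604679 / 3600) * t ^ 10 + (5383 / 600) * t ^ 11 + (769 / 3600) * t ^ 12 := by ring
  have hP0 : 0 ≤ 1296 + (29592 / 5) * t + (3226281 / 25) * t ^ 2 + (10462622 / 25) * t ^ 3 + (260178083 / 450) * t ^ 4 + (13104019 / 30) * t ^ 5 + (735059657 / 3600) * t ^ 6 + (12583013 / 200) * t ^ 7 + (15743789 / 1200) * t ^ 8 + (36881 / 20) * t ^ 9 + (604679 / 3600) * t ^ 10 + (5383 / 600) * t ^ 11 + (769 / 3600) * t ^ 12 := by positivity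
  linarith

lemma JJ_6_0 {t : ℝ} (ht : 0 ≤ t) : (6 : ℝ) + 0 * ((1 + t) ^ 2)⁻¹ ≤ (JJ 6 0 t) ^ 2 := by
  have h1 : (0 : ℝ) < 1 + t := by linarith
  have hJ : JJ 6 0 t = ((49 / 20)) / (1) := by
    unfold JJ
    simp only [Finset.sum_range_succ, Finset.sum_range_zero]
    norm_num [Nat.choose]
  rw [hJ]
  norm_num

end Pool.Agent.Helper46.MaxExp
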