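import Pool.Agent.Helper46.MaxExpG

open MeasureTheory Set Filter Topology Real

namespace Pool.Agent.Helper46.MaxExp

/-- Closed form of `I2`. -/
noncomputable def CF (k l : ℕ) (p q : ℝ) : ℝ :=
  ∑ i ∈ Finset.range (k + 1), ∑ j ∈ Finset.range (l + 1),
    (-1) ^ (i + j + 1) * (k.choose i : ℝ) * (l.choose j : ℝ) * ((i : ℝ) * p + j * q)⁻¹

lemma one_sub_pow_expand (k : ℕ) (x : ℝ) :
    (1 - x) ^ k = ∑ i ∈ Finset.range (k + 1), (-1) ^ i * (k.choose i : ℝ) * x ^ i := by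
  have h := add_pow (-x) 1 k
  rw [show (1 - x) = -x + 1 by ring, h]
  apply Finset.sum_congr rfl
  intro i _
  rw [neg_pow, one_pow]
  ring

lemma exp_mul_pow' (p m : ℝ) (i : ℕ) : exp (-(p * m)) ^ i = exp (-((i : ℝ) * p * m)) := by
  rw [← exp_nat_mul]
  congr 1
  ring

lemma term_integral {c : ℝ} (hc : 0 < c) : ∫ m in Ioi (0:ℝ), exp (-(c * m)) = c⁻¹ := by
  have h := integral_exp_mul_Ioi (a := -c) (by linarith) 0
  have h2 : (fun m : ℝ => exp (-(c * m))) = fun m => exp (-c * m) := by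
    ext m; congr 1; ring
  rw [h2, h]
  simp
  
lemma term_integrable {c : ℝ} (hc : 0 < c) :
    IntegrableOn (fun m : ℝ => exp (-(c * m))) (Ioi 0) := by
  have h := exp_neg_integrableOn_Ioi 0 hc
  apply h.congr_fun _ measurableSet_Ioi
  intro m _
  simp only
  congr 1
  ring

/-- The termwise integrand. -/
noncomputable def gg (k l : ℕ) (p q : ℝ) (i j : ℕ) (m : ℝ) : ℝ :=
  if i = 0 ∧ j = 0 then 0 else
    ((-1) ^ (i + j + 1) * (k.choose i : ℝ) * (l.choose j : ℝ)) *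
      exp (-(((i : ℝ) * p + j * q) * m))

lemma pos_of_ne {p q : ℝ} (hp : 0 < p) (hq : 0 < q) {i j : ℕ} (h : ¬ (i = 0 ∧ j = 0)) :
    0 < (i : ℝ) * p + j * q := by
  rcases Nat.eq_zero_or_pos i with hi | hi
  · have hj : 0 < j := by
      rcases Nat.eq_zero_or_pos j with hj | hj
      · exact absurd ⟨hi, hj⟩ h
      · exact hj
    have : (0:ℝ) < j := by exact_mod_cast hj
    positivity
  · have : (0:ℝ) < i := by exact_mod_cast hi
    positivity

lemma gg_integrable (k l : ℕ) {p q : ℝ} (hp : 0 < p) (hq : 0 < q) (i j : ℕ) :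
    IntegrableOn (gg k l p q i j) (Ioi 0) := by
  unfold gg
  by_cases h : i = 0 ∧ j = 0
  · simp only [h, and_self, if_true]
    exact integrableOn_zero
  · simp only [h, if_false]
    exact (term_integrable (pos_of_ne hp hq h)).const_mul _

lemma gg_integral (k l : ℕ) {p q : ℝ} (hp : 0 < p) (hq : 0 < q) (i j : ℕ) :
    ∫ m in Ioi (0:ℝ), gg k l p q i j m =
      (-1) ^ (i + j + 1) * (k.choose i : ℝ) * (l.choose j : ℝ) * ((i : ℝ) * p + j * q)⁻¹ := by
  unfold gg
  by_cases h : i = 0 ∧ j = 0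
  · simp [h]
  · simp only [h, if_false]
    rw [integral_const_mul, term_integral (pos_of_ne hp hq h)]

lemma sum_gg (k l : ℕ) (p q m : ℝ) :
    1 - (1 - exp (-(p * m))) ^ k * (1 - exp (-(q * m))) ^ l =
      ∑ i ∈ Finset.range (k + 1), ∑ j ∈ Finset.range (l + 1), gg k l p q i j m := by
  rw [one_sub_pow_expand, one_sub_pow_expand, Finset.sum_mul_sum]
  have h1 : (1 : ℝ) = ∑ i ∈ Finset.range (k + 1), ∑ j ∈ Finset.range (l + 1),
      (if i = 0 ∧ j = 0 then (1:ℝ) else 0) := by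
    rw [Finset.sum_eq_single 0, Finset.sum_eq_single 0]
    · simp
    · intro b _ hb
      simp [hb]
    · intro h
      exact absurd (Finset.mem_range.2 (Nat.succ_pos _)) h
    · intro b _ hb
      apply Finset.sum_eq_zero
      intro j _
      simp [hb]
    · intro h
      exact absurd (Finset.mem_range.2 (Nat.succ_pos _)) h
  have key : ∀ X : ℝ, 1 - X = (∑ i ∈ Finset.range (k + 1), ∑ j ∈ Finset.range (l + 1),
      (if i = 0 ∧ j = 0 then (1:ℝ) else 0)) - X := fun X => by rw [← h1]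
  rw [key]
  rw [← Finset.sum_sub_distrib]
  apply Finset.sum_congr rfl
  intro i _
  rw [← Finset.sum_sub_distrib]
  apply Finset.sum_congr rfl
  intro j _
  unfold gg
  by_cases h : i = 0 ∧ j = 0
  · obtain ⟨rfl, rfl⟩ := h
    simp
  · simp only [h, if_false]
    rw [exp_mul_pow', exp_mul_pow']
    have : exp (-(((i : ℝ) * p + j * q) * m)) =
        exp (-((i:ℝ) * p * m)) * exp (-((j:ℝ) * q * m)) := by
      rw [← exp_add]
      congr 1
      ring
    rw [this]
    ring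

lemma I2_eq_CF (k l : ℕ) {p q : ℝ} (hp : 0 < p) (hq : 0 < q) : I2 k l p q = CF k l p q := by
  unfold I2 CF
  simp_rw [sum_gg]
  rw [integral_finsetSum]
  · apply Finset.sum_congr rfl
    intro i _
    rw [integral_finsetSum]
    · apply Finset.sum_congr rfl
      intro j _
      exact gg_integral k l hp hq i j
    · intro j _
      exact gg_integrable k l hp hq i j
  · intro i _
    exact integrable_finsetSum _ (fun j _ => gg_integrable k l hp hq i j)

lemma I2_symm (k l : ℕ) (p q : ℝ) : I2 k l p q = I2 l k q p := by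
  unfold I2
  congr 1
  ext m
  ring

lemma CF_scale (k l : ℕ) {c : ℝ} (p q : ℝ) :
    CF k l (c * p) (c * q) = c⁻¹ * CF k l p q := by
  unfold CF
  rw [Finset.mul_sum]
  apply Finset.sum_congr rfl
  intro i _
  rw [Finset.mul_sum]
  apply Finset.sum_congr rfl
  intro j _
  have : (i:ℝ) * (c * p) + j * (c * q) = c * (i * p + j * q) := by ring
  rw [this, mul_inv]
  ring

lemma CF_eq_JJ (k l : ℕ) (t : ℝ) : CF k l 1 (1 + t) = JJ k l t := by
  unfold CF JJ
  simp only [mul_one]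

lemma JJ_all (k l : ℕ) (h1 : 1 ≤ k + l) (h6 : k + l ≤ 6) {t : ℝ} (ht : 0 ≤ t) :
    (k : ℝ) + l * ((1 + t) ^ 2)⁻¹ ≤ (JJ k l t) ^ 2 := by
  have hk : k ≤ 6 := by omega
  have hl : l ≤ 6 := by omega
  interval_cases k <;> interval_cases l <;> first
    | omega
    | exact_mod_cast JJ_0_1 ht
    | exact_mod_cast JJ_0_2 ht
    | exact_mod_cast JJ_0_3 ht
    | exact_mod_cast JJ_0_4 ht
    | exact_mod_cast JJ_0_5 ht
    | exact_mod_cast JJ_0_6 ht
    | exact_mod_cast JJ_1_0 ht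
    | exact_mod_cast JJ_1_1 ht
    | exact_mod_cast JJ_1_2 ht
    | exact_mod_cast JJ_1_3 ht
    | exact_mod_cast JJ_1_4 ht
    | exact_mod_cast JJ_1_5 ht
    | exact_mod_cast JJ_2_0 ht
    | exact_mod_cast JJ_2_1 ht
    | exact_mod_cast JJ_2_2 ht
    | exact_mod_cast JJ_2_3 ht
    | exact_mod_cast JJ_2_4 ht
    | exact_mod_cast JJ_3_0 ht
    | exact_mod_cast JJ_3_1 ht
    | exact_mod_cast JJ_3_2 ht
    | exact_mod_cast JJ_3_3 ht
    | exact_mod_cast JJ_4_0 ht
    | exact_mod_cast JJ_4_1 ht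
    | exact_mod_cast JJ_4_2 ht
    | exact_mod_cast JJ_5_0 ht
    | exact_mod_cast JJ_5_1 ht
    | exact_mod_cast JJ_6_0 ht

lemma TV_le {k l : ℕ} (h1 : 1 ≤ k + l) (h6 : k + l ≤ 6) {p q : ℝ} (hp : 0 < p) (hpq : p ≤ q) :
    (k : ℝ) * (p ^ 2)⁻¹ + l * (q ^ 2)⁻¹ ≤ (I2 k l p q) ^ 2 := by
  have hq : 0 < q := lt_of_lt_of_le hp hpq
  have ht : 0 ≤ q / p - 1 := by
    have := (one_le_div hp).2 hpq
    linarith
  have h := JJ_all k l h1 h6 ht
  rw [← CF_eq_JJ] at h
  have e1 : 1 + (q / p - 1) = q / p := by ring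
  rw [e1] at h
  rw [I2_eq_CF k l hp hq]
  have e2 : CF k l p q = p⁻¹ * CF k l 1 (q / p) := by
    rw [← CF_scale k l 1 (q / p)]
    congr 1
    · ring
    · field_simp
  rw [e2, mul_pow]
  have e3 : (k : ℝ) * (p ^ 2)⁻¹ + l * (q ^ 2)⁻¹ =
      (p⁻¹) ^ 2 * ((k : ℝ) + l * ((q / p) ^ 2)⁻¹) := by
    field_simp
  rw [e3]
  exact mul_le_mul_of_nonneg_left h (by positivity)

lemma TV_six : TV 6 := by
  intro k l h1 h6 p q hp hq
  rcases le_total p q with h | h
  · exact TV_le h1 h6 hp h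
  · have h' := TV_le (k := l) (l := k) (by omega) (by omega) hq h
    rw [I2_symm k l p q]
    linarith

/-- The inequality for at most six variables. -/
theorem main_le_six {ι : Type*} [Fintype ι] [DecidableEq ι] (s : Finset ι) (hs : s.card ≤ 6)
    (a : ι → ℝ) (ha : ∀ i ∈ s, 0 < a i) :
    ∑ i ∈ s, ((a i) ^ 2)⁻¹ ≤ (SS s a) ^ 2 :=
  main_ineq TV_six s.card s rfl hs a ha

end Pool.Agent.Helper46.MaxExp
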