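import Pool.Agent.Helper46.MaxExpH

open MeasureTheory Set Filter Topology Real

namespace Pool.Agent.Helper46.MaxExp

/-- The harmonic integral `∫ (1 - (1 - e^{-m})^n)`. -/
noncomputable def HI (n : ℕ) : ℝ := ∫ m in Ioi (0:ℝ), (1 - (1 - exp (-m)) ^ n)

lemma HI_integrable (n : ℕ) : IntegrableOn (fun m : ℝ => 1 - (1 - exp (-m)) ^ n) (Ioi 0) := by
  have h : ∀ m : ℝ, 1 - (1 - exp (-m)) ^ n =
      ∑ i ∈ Finset.range (n + 1), ∑ j ∈ Finset.range (0 + 1), gg n 0 1 1 i j m := by
    intro m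
    rw [← sum_gg]
    simp
  simp_rw [h]
  apply integrable_finsetSum
  intro i _
  apply integrable_finsetSum
  intro j _
  exact gg_integrable n 0 one_pos one_pos i j

lemma HI_zero : HI 0 = 0 := by
  unfold HI
  simp

lemma HI_succ_sub (n : ℕ) : HI (n + 1) - HI n = 1 / (n + 1) := by
  unfold HI
  rw [← integral_sub (HI_integrable _) (HI_integrable _)]
  have e : ∀ m : ℝ, (1 - (1 - exp (-m)) ^ (n + 1)) - (1 - (1 - exp (-m)) ^ n) =
      (1 - exp (-m)) ^ n * exp (-m) := by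
    intro m
    rw [pow_succ]
    ring
  simp_rw [e]
  have hd : ∀ x ∈ Ici (0:ℝ), HasDerivAt (fun m : ℝ => (1 - exp (-m)) ^ (n + 1) / (n + 1))
      ((1 - exp (-x)) ^ n * exp (-x)) x := by
    intro x _
    have h1 : HasDerivAt (fun m : ℝ => exp (-m)) (exp (-x) * (-1)) x :=
      (hasDerivAt_neg x).exp
    have h2 : HasDerivAt (fun m : ℝ => 1 - exp (-m)) (-(exp (-x) * (-1))) x :=
      h1.const_sub 1
    have h3 := (h2.fun_pow (n + 1)).div_const ((n:ℝ) + 1)
    have : (n:ℝ) + 1 ≠ 0 := by positivity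
    refine h3.congr_deriv ?_
    rw [div_eq_iff this]
    push_cast
    ring
  have hlim : Tendsto (fun m : ℝ => (1 - exp (-m)) ^ (n + 1) / ((n:ℝ) + 1)) atTop
      (𝓝 (1 / ((n:ℝ) + 1))) := by
    have h1 : Tendsto (fun m : ℝ => exp (-m)) atTop (𝓝 0) :=
      tendsto_exp_neg_atTop_nhds_zero
    have h2 : Tendsto (fun m : ℝ => 1 - exp (-m)) atTop (𝓝 (1 - 0)) :=
      tendsto_const_nhds.sub h1
    have h3 := (h2.pow (n + 1)).div_const ((n:ℝ) + 1)
    simpa using h3
  have hint : IntegrableOn (fun m : ℝ => (1 - exp (-m)) ^ n * exp (-m)) (Ioi 0) := by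
    have := (HI_integrable (n + 1)).sub (HI_integrable n)
    refine this.congr_fun ?_ measurableSet_Ioi
    intro m _
    exact e m
  rw [integral_Ioi_of_hasDerivAt_of_tendsto' hd hint hlim]
  simp

lemma SS_one (n : ℕ) : SS (Finset.univ : Finset (Fin n)) (fun _ => 1) = HI n := by
  rw [SS_eq_integral (fun i _ => one_pos)]
  unfold HI FF
  simp

lemma HI_seven : HI 7 = 363 / 140 := by
  have h0 := HI_succ_sub 0
  have h1 := HI_succ_sub 1
  have h2 := HI_succ_sub 2
  have h3 := HI_succ_sub 3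
  have h4 := HI_succ_sub 4
  have h5 := HI_succ_sub 5
  have h6 := HI_succ_sub 6
  have hz := HI_zero
  norm_num at h0 h1 h2 h3 h4 h5 h6
  linarith

lemma HI_lt_sqrt {n : ℕ} (hn : 7 ≤ n) : HI n < Real.sqrt n := by
  induction n, hn using Nat.le_induction with
  | base =>
    rw [HI_seven]
    apply Real.lt_sqrt_of_sq_lt
    norm_num
  | succ n hn ih =>
    have h := HI_succ_sub n
    have hn' : (7:ℝ) ≤ n := by exact_mod_cast hn
    set u := Real.sqrt (n:ℝ) with hu
    set v := Real.sqrt ((n + 1 : ℕ) : ℝ) with hv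
    have hu2 : u ^ 2 = n := Real.sq_sqrt (by positivity)
    have hv2 : v ^ 2 = n + 1 := by
      rw [hv, Real.sq_sqrt (by positivity)]
      push_cast
      ring
    have hu0 : 0 ≤ u := Real.sqrt_nonneg _
    have hv0 : 2 ≤ v := by
      rw [hv]
      apply Real.le_sqrt_of_sq_le
      push_cast
      linarith
    have huv : u ≤ v := by
      apply Real.sqrt_le_sqrt
      push_cast
      linarith
    -- v - u = 1/(v+u) ≥ 1/(2v) ≥ 1/v^2
    have h1 : 1 / ((n:ℝ) + 1) ≤ v - u := by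
      rw [← hv2]
      rw [div_le_iff₀ (by positivity)]
      nlinarith [mul_nonneg (sub_nonneg.2 huv) (sub_nonneg.2 hv0)]
    linarith

end Pool.Agent.Helper46.MaxExp
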