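import Pool.Agent.Helper5.N2.Stmts2

/-!
# Helpers for the rows EXH, LIO, CY: logarithm and coordinate functions in `Sm`
-/

set_option autoImplicit false
open scoped ContDiff
open N2

namespace N246

/-- a real element: its value is the real part -/
lemma val_real {f : Sm} (h : cj f = f) (p : ℝ × ℝ) : ((f.val p).re : ℂ) = f.val p := by
  have h1 : (cj f).val p = f.val p := by rw [h]
  rw [cj_val] at h1
  exact (Complex.conj_eq_iff_re.1 h1)

lemma cj_of_real {f : Sm} (h : ∀ p, ((f.val p).re : ℂ) = f.val p) : cj f = f := by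
  apply Sm.ext
  intro p
  rw [cj_val]
  exact Complex.conj_eq_iff_re.2 (h p)

/-- real part as a smooth real function -/
lemma re_contDiff (f : Sm) : ContDiff ℝ ∞ (fun p => (f.val p).re) :=
  Complex.reCLM.contDiff.comp f.contDiff

lemma re_continuous (f : Sm) : Continuous (fun p => (f.val p).re) :=
  (re_contDiff f).continuous

/-- derivative of a real valued function seen as complex valued -/
lemma fderiv_ofReal {r : ℝ × ℝ → ℝ} {p : ℝ × ℝ} (h : DifferentiableAt ℝ r p) (e : ℝ × ℝ) :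
    fderiv ℝ (fun q => ((r q : ℝ) : ℂ)) p e = ((fderiv ℝ r p e : ℝ) : ℂ) := by
  have h1 : HasFDerivAt (fun q => ((r q : ℝ) : ℂ)) (Complex.ofRealCLM.comp (fderiv ℝ r p)) p :=
    Complex.ofRealCLM.hasFDerivAt.comp p h.hasFDerivAt
  rw [h1.fderiv]
  rfl

/-- composition with a smooth real function of a real variable on the positive axis: the logarithm -/
lemma exists_log (s : Sm) (hs : cj s = s) (hp : ∀ p, 0 < (s.val p).re) :
    ∃ L : Sm, (∀ p, L.val p = ((Real.log (s.val p).re : ℝ) : ℂ)) ∧ cj L = L ∧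
      D L * s = D s ∧ D' L * s = D' s := by
  have hr : ContDiff ℝ ∞ (fun p => (s.val p).re) := re_contDiff s
  have hl : ContDiff ℝ ∞ (fun p => Real.log (s.val p).re) := hr.log (fun p => (hp p).ne')
  have hc : ContDiff ℝ ∞ (fun p => ((Real.log (s.val p).re : ℝ) : ℂ)) :=
    Complex.ofRealCLM.contDiff.comp hl
  have key : ∀ (p e : ℝ × ℝ), fderiv ℝ (fun p => ((Real.log (s.val p).re : ℝ) : ℂ)) p e * s.val p
      = fderiv ℝ s.val p e := by
    intro p e
    have hd : DifferentiableAt ℝ (fun p => (s.val p).re) p :=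
      hr.contDiffAt.differentiableAt (by simp)
    have hdl : DifferentiableAt ℝ (fun p => Real.log (s.val p).re) p :=
      hl.contDiffAt.differentiableAt (by simp)
    rw [fderiv_ofReal hdl]
    have h1 : s.val = fun q => (((s.val q).re : ℝ) : ℂ) := by
      funext q; exact (val_real hs q).symm
    have h2 : fderiv ℝ s.val p e = ((fderiv ℝ (fun q => (s.val q).re) p e : ℝ) : ℂ) := by
      conv_lhs => rw [h1]
      exact fderiv_ofReal hd e
    have h3 : fderiv ℝ (fun q => Real.log (s.val q).re) p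
        = ((s.val p).re)⁻¹ • fderiv ℝ (fun q => (s.val q).re) p :=
      (hd.hasFDerivAt.log (hp p).ne').fderiv
    rw [h2, h3, ← val_real hs p, ← Complex.ofReal_mul]
    congr 1
    simp only [ContinuousLinearMap.smul_apply, smul_eq_mul, Complex.ofReal_re]
    field_simp [(hp p).ne']
  refine ⟨Sm.mk _ hc, fun p => rfl, ?_, ?_, ?_⟩
  · apply cj_of_real
    intro p
    simp
  · apply Sm.ext
    intro p
    rw [mul_val, D_val, D_val, mk_val]
    linear_combination (1 / 2 : ℂ) * key p (1, 0) - (1 / 2 : ℂ) * Complex.I * key p (0, 1)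
  · apply Sm.ext
    intro p
    rw [mul_val, D'_val, D'_val, mk_val]
    linear_combination (1 / 2 : ℂ) * key p (1, 0) + (1 / 2 : ℂ) * Complex.I * key p (0, 1)

/-- the coordinate `z` -/
noncomputable def Zf : Sm := Sm.mk (fun q => (q.1 : ℂ) + (q.2 : ℂ) * Complex.I) (by
  have h1 : ContDiff ℝ ∞ (fun q : ℝ × ℝ => (q.1 : ℂ)) := Complex.ofRealCLM.contDiff.comp contDiff_fst
  have h2 : ContDiff ℝ ∞ (fun q : ℝ × ℝ => (q.2 : ℂ)) := Complex.ofRealCLM.contDiff.comp contDiff_snd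
  exact h1.add (h2.mul contDiff_const))

lemma Zf_val (q : ℝ × ℝ) : Zf.val q = (q.1 : ℂ) + (q.2 : ℂ) * Complex.I := rfl

lemma fderiv_Zf (q e : ℝ × ℝ) : fderiv ℝ Zf.val q e = (e.1 : ℂ) + (e.2 : ℂ) * Complex.I := by
  have h1 : HasFDerivAt (fun q : ℝ × ℝ => (q.1 : ℂ))
      (Complex.ofRealCLM.comp (ContinuousLinearMap.fst ℝ ℝ ℝ)) q :=
    (Complex.ofRealCLM.comp (ContinuousLinearMap.fst ℝ ℝ ℝ)).hasFDerivAt
  have h2 : HasFDerivAt (fun q : ℝ × ℝ => (q.2 : ℂ))
      (Complex.ofRealCLM.comp (ContinuousLinearMap.snd ℝ ℝ ℝ)) q :=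
    (Complex.ofRealCLM.comp (ContinuousLinearMap.snd ℝ ℝ ℝ)).hasFDerivAt
  have h3 := h1.add (h2.mul_const Complex.I)
  have h4 : fderiv ℝ Zf.val q = _ := h3.fderiv
  rw [h4]
  simp [mul_comm]

lemma D_Zf : D Zf = 1 := by
  apply Sm.ext
  intro p
  rw [D_val, fderiv_Zf, fderiv_Zf, one_val]
  simp only [Complex.ofReal_one, Complex.ofReal_zero, zero_mul, add_zero, zero_add, one_mul]
  rw [Complex.I_mul_I]; norm_num

lemma D'_Zf : D' Zf = 0 := by
  apply Sm.ext
  intro p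
  rw [D'_val, fderiv_Zf, fderiv_Zf, zero_val]
  simp only [Complex.ofReal_one, Complex.ofReal_zero, zero_mul, add_zero, zero_add, one_mul]
  rw [Complex.I_mul_I]; norm_num

lemma D_cjZf : D (cj Zf) = 0 := by rw [D_cj, D'_Zf, map_zero]
lemma D'_cjZf : D' (cj Zf) = 1 := by rw [D'_cj, D_Zf, map_one]

/-- `z - a` -/
noncomputable def Wf (a : ℂ) : Sm := Zf - Cst a

lemma D_Wf (a : ℂ) : D (Wf a) = 1 := by rw [Wf, D_sub, D_Zf, D_Cst, sub_zero]
lemma D'_Wf (a : ℂ) : D' (Wf a) = 0 := by rw [Wf, D'_sub, D'_Zf, D'_Cst, sub_zero]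
lemma D_cjWf (a : ℂ) : D (cj (Wf a)) = 0 := by rw [D_cj, D'_Wf, map_zero]
lemma D'_cjWf (a : ℂ) : D' (cj (Wf a)) = 1 := by rw [D'_cj, D_Wf, map_one]

/-- `1 + c |z - a|²` -/
noncomputable def sf (a : ℂ) (c : ℝ) : Sm := 1 + Cst (c : ℂ) * (Wf a * cj (Wf a))

/-- squared distance -/
def dsq (a : ℂ) (p : ℝ × ℝ) : ℝ := (p.1 - a.re) ^ 2 + (p.2 - a.im) ^ 2

lemma dsq_nonneg (a : ℂ) (p : ℝ × ℝ) : 0 ≤ dsq a p := by
  unfold dsq; positivity

lemma WW_val (a : ℂ) (p : ℝ × ℝ) : (Wf a * cj (Wf a)).val p = ((dsq a p : ℝ) : ℂ) := by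
  rw [mul_val, cj_val, Complex.mul_conj, Wf, sub_val, Zf_val, Cst_val]
  congr 1
  rw [Complex.normSq_apply]
  simp only [Complex.sub_re, Complex.add_re, Complex.ofReal_re, Complex.mul_re, Complex.ofReal_im,
    Complex.I_re, Complex.I_im, Complex.sub_im, Complex.add_im, Complex.mul_im, dsq]
  ring

lemma sf_val (a : ℂ) (c : ℝ) (p : ℝ × ℝ) : (sf a c).val p = ((1 + c * dsq a p : ℝ) : ℂ) := by
  rw [sf, add_val, one_val, mul_val, WW_val, Cst_val]
  push_cast
  ring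

lemma cj_sf (a : ℂ) (c : ℝ) : cj (sf a c) = sf a c := by
  apply cj_of_real
  intro p
  rw [sf_val, Complex.ofReal_re]

lemma D_sf (a : ℂ) (c : ℝ) : D (sf a c) = Cst (c : ℂ) * cj (Wf a) := by
  rw [sf, D_add, D_one, D_mul, D_Cst, D_mul, D_Wf, D_cjWf]
  ring

lemma D'_sf (a : ℂ) (c : ℝ) : D' (sf a c) = Cst (c : ℂ) * Wf a := by
  rw [sf, D'_add, D'_one, D'_mul, D'_Cst, D'_mul, D'_Wf, D'_cjWf]
  ring

lemma D'D_sf (a : ℂ) (c : ℝ) : D' (D (sf a c)) = Cst (c : ℂ) := by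
  rw [D_sf, D'_mul, D'_Cst, D'_cjWf]
  ring

/-- `D' D` of a logarithm -/
lemma D'D_log {L s : Sm} (h1 : D L * s = D s) (h2 : D' L * s = D' s) :
    D' (D L) * (s * s) = D' (D s) * s - D s * D' s := by
  have h3 : D' (D L) * s + D L * D' s = D' (D s) := by
    rw [← D'_mul, h1]
  linear_combination s * h3 - D' s * h1

end N246
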