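import Pool.Agent.Helper46.N2Base

/-! # Row CY: maximum principle with cut-off -/

set_option autoImplicit false
open N2 Filter Topology

namespace N246

/-- the pure inequality at the maximum -/
lemma cy_pure (α β κ R U η F nf Lf Lu : ℝ) (hR : 0 < R) (hU : 0 < U) (hη : 0 < η) (hη1 : η ≤ 1)
    (hF : 0 < F) (hκ : 0 < κ) (hβ : 0 ≤ β)
    (h1 : nf ≤ κ * F) (h2 : Lf ≤ κ * F * (1 + Real.sqrt U)) (h3 : F * (α * U ^ 2 - β * U) ≤ Lu)
    (h4 : η ^ 2 * Lu ≤ 6 * U * nf / R ^ 2 + 2 * η * U * Lf / R) :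
    α * (η ^ 2 * U) ≤ β + 6 * κ / R ^ 2 + 2 * κ / R + 2 * κ / R * (1 + η ^ 2 * U) := by
  have hsU := Real.sqrt_nonneg U
  have hsq : Real.sqrt U ^ 2 = U := Real.sq_sqrt hU.le
  have e1 : η ^ 2 * (F * (α * U ^ 2 - β * U)) ≤ 6 * U * (κ * F) / R ^ 2
      + 2 * η * U * (κ * F * (1 + Real.sqrt U)) / R := by
    have a1 : η ^ 2 * (F * (α * U ^ 2 - β * U)) ≤ η ^ 2 * Lu :=
      mul_le_mul_of_nonneg_left h3 (by positivity)
    have a2 : 6 * U * nf / R ^ 2 ≤ 6 * U * (κ * F) / R ^ 2 := by gcongr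
    have a3 : 2 * η * U * Lf / R ≤ 2 * η * U * (κ * F * (1 + Real.sqrt U)) / R := by gcongr
    linarith
  have hFU : 0 < F * U := mul_pos hF hU
  have e2 : (F * U) * (η ^ 2 * (α * U - β)) ≤ (F * U) * (6 * κ / R ^ 2 + 2 * κ / R * (η * (1 + Real.sqrt U))) := by
    have a1 : (F * U) * (η ^ 2 * (α * U - β)) = η ^ 2 * (F * (α * U ^ 2 - β * U)) := by ring
    have a2 : (F * U) * (6 * κ / R ^ 2 + 2 * κ / R * (η * (1 + Real.sqrt U)))
        = 6 * U * (κ * F) / R ^ 2 + 2 * η * U * (κ * F * (1 + Real.sqrt U)) / R := by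
      field_simp
    rw [a1, a2]; exact e1
  have e3 := le_of_mul_le_mul_left e2 hFU
  have e4 : η * (1 + Real.sqrt U) ≤ 1 + (1 + η ^ 2 * U) := by
    have a1 : η * Real.sqrt U ≤ 1 + η ^ 2 * U := by
      nlinarith [sq_nonneg (η * Real.sqrt U - 1), sq_nonneg (η * Real.sqrt U)]
    nlinarith
  have e5 : 2 * κ / R * (η * (1 + Real.sqrt U)) ≤ 2 * κ / R * (1 + (1 + η ^ 2 * U)) :=
    mul_le_mul_of_nonneg_left e4 (by positivity)
  have e6 : β * η ^ 2 ≤ β := by nlinarith [sq_nonneg η, mul_nonneg hβ (sub_nonneg.2 hη1)]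
  have e7 : 2 * κ / R * (1 + (1 + η ^ 2 * U)) = 2 * κ / R + 2 * κ / R * (1 + η ^ 2 * U) := by ring
  nlinarith

theorem st_CY (hM : ST_MAX) : ST_CY := by
  intro u f F α β κ hu hf hF hFp hu0 hα hβ hκ hf0 hcomp hDf hLf hLu p0
  simp only [ev_val] at *
  by_contra hcon
  push Not at hcon
  set u0 : ℝ := (u.val p0).re with hu0def
  have hu0pos : 0 < u0 := lt_of_le_of_lt (div_nonneg hβ hα.le) hcon
  set f0 : ℝ := (f.val p0).re with hf0def
  -- for all R > f0
  have key : ∀ R : ℝ, 0 < R → f0 < R → ∃ S : ℝ, (1 - f0 / R) ^ 2 * u0 ≤ S ∧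
      α * S ≤ β + 6 * κ / R ^ 2 + 2 * κ / R + 2 * κ / R * (1 + S) := by
    intro R hR hfR
    set e : Sm := 1 - Cst ((R⁻¹ : ℝ) : ℂ) * f with he
    set G : Sm := e * e * u with hG
    have her : cj e = e := by rw [he, map_sub, map_one, map_mul, cj_real, hf]
    have hGr : cj G = G := by rw [hG, map_mul, map_mul, her, hu]
    have hev : ∀ q, e.val q = ((1 - (f.val q).re / R : ℝ) : ℂ) := by
      intro q
      rw [he, sub_val, one_val, mul_val, Cst_val, ← val_real hf q]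
      push_cast
      rw [Complex.ofReal_re]
      ring
    have hGv : ∀ q, (G.val q).re = (1 - (f.val q).re / R) ^ 2 * (u.val q).re := by
      intro q
      rw [hG, mul_val, mul_val, hev, ← Complex.ofReal_mul, Complex.re_ofReal_mul]
      ring
    obtain ⟨q, hqK, hqmax⟩ := (hcomp R).exists_isMaxOn ⟨p0, by
      rw [Set.mem_ofPred_eq]; exact hfR.le⟩ (re_continuous G).continuousOn
    have hq0 : (G.val p0).re ≤ (G.val q).re := hqmax (by rw [Set.mem_ofPred_eq]; exact hfR.le)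
    have hG0 : 0 < (G.val p0).re := by
      rw [hGv]
      have h1 : 0 < 1 - f0 / R := by
        rw [sub_pos, div_lt_one hR]; exact hfR
      positivity
    have hGq : 0 < (G.val q).re := lt_of_lt_of_le hG0 hq0
    have hfq : (f.val q).re ≤ R := hqK
    have hηne : 1 - (f.val q).re / R ≠ 0 := by
      intro h
      rw [hGv, h] at hGq
      norm_num at hGq
    have hη0 : 0 ≤ 1 - (f.val q).re / R := by
      rw [sub_nonneg, div_le_one hR]; exact hfq
    have hη : 0 < 1 - (f.val q).re / R := lt_of_le_of_ne hη0 (Ne.symm hηne)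
    have hfq2 : (f.val q).re < R := by
      rw [sub_pos, div_lt_one hR] at hη; exact hη
    have hUq : 0 < (u.val q).re := by
      rw [hGv] at hGq
      by_contra hh
      push Not at hh
      have h2 : (u.val q).re = 0 := le_antisymm hh (hu0 q)
      rw [h2] at hGq
      norm_num at hGq
    have hmax : IsLocalMax (fun x => (G.val x).re) q := by
      have hopen : {x : ℝ × ℝ | (f.val x).re < R} ∈ 𝓝 q :=
        (isOpen_lt (re_continuous f) continuous_const).mem_nhds hfq2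
      filter_upwards [hopen] with x hx
      have hx2 : (f.val x).re ≤ R := le_of_lt hx
      exact hqmax hx2
    obtain ⟨hD0, hDD⟩ := hM G q hGr hmax
    have hDe : D e = - (Cst ((R⁻¹ : ℝ) : ℂ) * D f) := by
      rw [he, D_sub, D_one, D_mul, D_Cst]; ring
    have hD'e : D' e = - (Cst ((R⁻¹ : ℝ) : ℂ) * D' f) := by
      rw [he, D'_sub, D'_one, D'_mul, D'_Cst]; ring
    have hD'De : D' (D e) = - (Cst ((R⁻¹ : ℝ) : ℂ) * D' (D f)) := by
      rw [hDe, D'_neg, D'_mul, D'_Cst]; ring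
    have hDG : D G = 2 * e * D e * u + e * e * D u := by
      rw [hG, D_mul, D_mul]; ring
    have hD'DG : D' (D G) = 2 * D' e * D e * u + 2 * e * D' (D e) * u + 2 * e * D e * D' u
        + 2 * e * D' e * D u + e * e * D' (D u) := by
      rw [hDG, D'_add, D'_mul, D'_mul, D'_mul, D'_mul, D'_mul, D'_ofNat]
      ring
    -- values at q
    have hD'f : (D' f).val q = (starRingEnd ℂ) ((D f).val q) := by
      have h1 : D' (cj f) = cj (D f) := D'_cj f
      rw [hf] at h1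
      rw [h1, cj_val]
    have hD'u : (D' u).val q = (starRingEnd ℂ) ((D u).val q) := by
      have h1 : D' (cj u) = cj (D u) := D'_cj u
      rw [hu] at h1
      rw [h1, cj_val]
    set η : ℝ := 1 - (f.val q).re / R with hηdef
    set U : ℝ := (u.val q).re with hUdef
    have hUc : u.val q = (U : ℂ) := (val_real hu q).symm
    have hec : e.val q = (η : ℂ) := hev q
    set df : ℂ := (D f).val q with hdf
    set du : ℂ := (D u).val q with hdu
    have hRc : ((R⁻¹ : ℝ) : ℂ) = (R : ℂ)⁻¹ := by push_cast; rfl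
    have hRne : (R : ℂ) ≠ 0 := by exact_mod_cast hR.ne'
    have hηc : (η : ℂ) ≠ 0 := by exact_mod_cast hη.ne'
    have v1 : (D e).val q = - ((R : ℂ)⁻¹ * df) := by
      rw [hDe, neg_val, mul_val, Cst_val, hRc]
    have v2 : (D' e).val q = - ((R : ℂ)⁻¹ * (starRingEnd ℂ) df) := by
      rw [hD'e, neg_val, mul_val, Cst_val, hRc, hD'f]
    have v3 : (D' (D e)).val q = - ((R : ℂ)⁻¹ * (D' (D f)).val q) := by
      rw [hD'De, neg_val, mul_val, Cst_val, hRc]
    have two_val : (2 : Sm).val q = 2 := by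
      have : (2 : Sm) = 1 + 1 := by norm_num
      rw [this, add_val, one_val]; norm_num
    have w1 : (η : ℂ) * du = 2 * (R : ℂ)⁻¹ * df * U := by
      have h1 := hD0
      rw [ev_val, hDG] at h1
      simp only [add_val, mul_val, two_val, v1, hec, hUc] at h1
      have h2 : (η : ℂ) * ((η : ℂ) * du - 2 * (R : ℂ)⁻¹ * df * U) = 0 := by
        rw [← h1]; ring
      rcases mul_eq_zero.1 h2 with h3 | h3
      · exact absurd h3 hηc
      · exact sub_eq_zero.1 h3
    have w2 : (η : ℂ) * (starRingEnd ℂ) du = 2 * (R : ℂ)⁻¹ * (starRingEnd ℂ) df * U := by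
      have h1 := congrArg (starRingEnd ℂ) w1
      simpa only [map_mul, Complex.conj_ofReal, map_inv₀, map_ofNat] using h1
    have hnn : df * (starRingEnd ℂ) df = ((‖df‖ ^ 2 : ℝ) : ℂ) := by
      rw [Complex.mul_conj, Complex.normSq_eq_norm_sq]
    have w3 : (D' (D G)).val q = ((- 6 * U * ‖df‖ ^ 2 / R ^ 2 : ℝ) : ℂ)
        - ((2 * η * U / R : ℝ) : ℂ) * (D' (D f)).val q + ((η ^ 2 : ℝ) : ℂ) * (D' (D u)).val q := by
      rw [hD'DG]
      simp only [add_val, mul_val, two_val, v1, v2, v3, hec, hUc, hD'u]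
      push_cast at hnn ⊢
      have g1 : (2 : ℂ) * (η : ℂ) * -((R : ℂ)⁻¹ * df) * (starRingEnd ℂ) du
          = -(4 * (R : ℂ)⁻¹ * (R : ℂ)⁻¹ * U * (df * (starRingEnd ℂ) df)) := by
        linear_combination (-2 * (R : ℂ)⁻¹ * df) * w2
      have g2 : (2 : ℂ) * (η : ℂ) * -((R : ℂ)⁻¹ * (starRingEnd ℂ) df) * du
          = -(4 * (R : ℂ)⁻¹ * (R : ℂ)⁻¹ * U * (df * (starRingEnd ℂ) df)) := by
        linear_combination (-2 * (R : ℂ)⁻¹ * (starRingEnd ℂ) df) * w1
      rw [g1, g2, hnn]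
      have g3 : (2 : ℂ) * -((R : ℂ)⁻¹ * (starRingEnd ℂ) df) * -((R : ℂ)⁻¹ * df) * U
          = 2 * (R : ℂ)⁻¹ * (R : ℂ)⁻¹ * U * (df * (starRingEnd ℂ) df) := by ring
      rw [g3, hnn]
      field_simp
      ring
    have w4 : ((D' (D G)).val q).re = - 6 * U * ‖df‖ ^ 2 / R ^ 2
        - 2 * η * U / R * ((D' (D f)).val q).re + η ^ 2 * ((D' (D u)).val q).re := by
      rw [w3, Complex.add_re, Complex.sub_re, Complex.ofReal_re, Complex.re_ofReal_mul,
        Complex.re_ofReal_mul]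
    have w5 : ((D' (D G)).val q).re ≤ 0 := by
      have h1 : ‖(D (D G)).val q‖ ≤ -((D' (D G)).val q).re := hDD
      linarith [norm_nonneg ((D (D G)).val q)]
    refine ⟨(G.val q).re, ?_, ?_⟩
    · rw [hGv p0] at hq0
      exact hq0
    · rw [hGv]
      apply cy_pure α β κ R U η (F.val q).re (‖df‖ ^ 2) ((D' (D f)).val q).re
        ((D' (D u)).val q).re hR hUq hη _ (hFp q) hκ hβ (hDf q) (hLf q) (hLu q)
      · rw [w4] at w5
        have h1 : 6 * U * ‖df‖ ^ 2 / R ^ 2 = -(- 6 * U * ‖df‖ ^ 2 / R ^ 2) := by ring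
        have h2 : 2 * η * U * ((D' (D f)).val q).re / R = 2 * η * U / R * ((D' (D f)).val q).re := by ring
        rw [h1, h2]
        linarith
      · rw [hηdef]
        have : 0 ≤ (f.val q).re / R := div_nonneg (hf0 q) hR.le
        linarith
  -- let R tend to infinity
  have hinv : Tendsto (fun R : ℝ => R⁻¹) atTop (𝓝 0) := tendsto_inv_atTop_zero
  have hL : Tendsto (fun R : ℝ => (α - 2 * κ * R⁻¹) * ((1 - f0 * R⁻¹) ^ 2 * u0)) atTop
      (𝓝 ((α - 2 * κ * 0) * ((1 - f0 * 0) ^ 2 * u0))) :=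
    (tendsto_const_nhds.sub (hinv.const_mul _)).mul
      (((tendsto_const_nhds.sub (hinv.const_mul _)).pow 2).mul tendsto_const_nhds)
  have hRt : Tendsto (fun R : ℝ => β + 6 * κ * R⁻¹ ^ 2 + 4 * κ * R⁻¹) atTop
      (𝓝 (β + 6 * κ * 0 ^ 2 + 4 * κ * 0)) :=
    (tendsto_const_nhds.add ((hinv.pow 2).const_mul _)).add (hinv.const_mul _)
  have hle : ∀ᶠ R : ℝ in atTop, (α - 2 * κ * R⁻¹) * ((1 - f0 * R⁻¹) ^ 2 * u0)
      ≤ β + 6 * κ * R⁻¹ ^ 2 + 4 * κ * R⁻¹ := by
    filter_upwards [eventually_gt_atTop 0, eventually_gt_atTop f0, eventually_gt_atTop (2 * κ / α)]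
      with R hR hfR hRα
    obtain ⟨S, hS1, hS2⟩ := key R hR hfR
    have h1 : 0 < α - 2 * κ * R⁻¹ := by
      rw [sub_pos, ← div_eq_mul_inv, div_lt_iff₀ hR]
      rw [div_lt_iff₀ hα] at hRα
      linarith
    have h2 : (1 - f0 * R⁻¹) ^ 2 * u0 ≤ S := by
      rw [← div_eq_mul_inv]; exact hS1
    have h3 := mul_le_mul_of_nonneg_left h2 h1.le
    have h4 : 6 * κ / R ^ 2 = 6 * κ * R⁻¹ ^ 2 := by rw [div_eq_mul_inv, inv_pow]
    have h5 : 2 * κ / R = 2 * κ * R⁻¹ := by rw [div_eq_mul_inv]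
    rw [h4, h5] at hS2
    nlinarith
  have hfin := le_of_tendsto_of_tendsto hL hRt hle
  have h1 : α * u0 ≤ β := by
    have : (α - 2 * κ * 0) * ((1 - f0 * 0) ^ 2 * u0) = α * u0 := by ring
    rw [this] at hfin
    linarith
  rw [div_lt_iff₀ hα] at hcon
  linarith

end N246
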