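import Pool.Agent.Helper46.N2Base

/-! # Row EXH: the exhaustion `log (1 + |z|²)` -/

set_option autoImplicit false
open N2

namespace N246

lemma isCompact_dsq (a : ℂ) (R : ℝ) : IsCompact {p : ℝ × ℝ | dsq a p ≤ R} := by
  apply Metric.isCompact_of_isClosed_isBounded
  · apply isClosed_le _ continuous_const
    unfold dsq
    fun_prop
  · rw [Metric.isBounded_iff_subset_closedBall (a.re, a.im)]
    refine ⟨|R| + 1, fun p hp => ?_⟩
    rw [Set.mem_ofPred_eq, dsq] at hp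
    rw [Metric.mem_closedBall, Prod.dist_eq, max_le_iff, Real.dist_eq, Real.dist_eq]
    have h0 := le_abs_self R
    constructor <;> apply abs_le_of_sq_le_sq' _ (by positivity) |> abs_le.2
    · nlinarith [sq_nonneg (p.2 - a.im), abs_nonneg R]
    · nlinarith [sq_nonneg (p.1 - a.re), abs_nonneg R]

theorem st_EXH : ST_EXH := by
  have hpos : ∀ p, 0 < ((sf 0 1).val p).re := by
    intro p
    rw [sf_val, Complex.ofReal_re]
    have := dsq_nonneg 0 p
    linarith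
  obtain ⟨L, hL, hLr, h1, h2⟩ := exists_log (sf 0 1) (cj_sf 0 1) hpos
  have hd : ∀ p : ℝ × ℝ, dsq 0 p = p.1 ^ 2 + p.2 ^ 2 := by
    intro p; simp [dsq]
  have hval : ∀ p : ℝ × ℝ, (ev p L).re = Real.log (1 + (p.1 ^ 2 + p.2 ^ 2)) := by
    intro p
    rw [ev_val, hL, Complex.ofReal_re, sf_val, Complex.ofReal_re, hd, one_mul]
  have hs : ∀ p, (sf 0 1).val p = ((1 + (p.1 ^ 2 + p.2 ^ 2) : ℝ) : ℂ) := by
    intro p
    rw [sf_val, hd, one_mul]
  have hq : ∀ p : ℝ × ℝ, 0 < 1 + (p.1 ^ 2 + p.2 ^ 2) := fun p => by positivity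
  refine ⟨L, hLr, hval, ?_, ?_, ?_, ?_⟩
  · intro p
    rw [hval]
    exact Real.log_nonneg (by nlinarith [sq_nonneg p.1, sq_nonneg p.2])
  · intro R
    have h3 : {p | (ev p L).re ≤ R} = {p | dsq 0 p ≤ Real.exp R - 1} := by
      ext p
      rw [Set.mem_ofPred_eq, Set.mem_ofPred_eq, hval, hd, Real.log_le_iff_le_exp (hq p)]
      constructor <;> intro h <;> linarith
    rw [h3]
    exact isCompact_dsq 0 _
  · intro p
    have h3 : (D L).val p * (sf 0 1).val p = (starRingEnd ℂ) ((Wf 0).val p) := by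
      rw [← mul_val, h1, D_sf, mul_val, Cst_val, cj_val]
      simp
    have h4 : ‖(Wf 0).val p‖ ^ 2 = p.1 ^ 2 + p.2 ^ 2 := by
      have h5 := WW_val 0 p
      rw [mul_val, cj_val, Complex.mul_conj, Complex.normSq_eq_norm_sq, hd] at h5
      exact_mod_cast h5
    have h5 : ‖(D L).val p‖ * (1 + (p.1 ^ 2 + p.2 ^ 2)) = ‖(Wf 0).val p‖ := by
      have h6 := congrArg norm h3
      rw [norm_mul, RCLike.norm_conj, hs, Complex.norm_real, Real.norm_eq_abs, abs_of_pos (hq p)] at h6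
      exact h6
    rw [ev_val, le_div_iff₀ (hq p)]
    have h7 : (‖(D L).val p‖ * (1 + (p.1 ^ 2 + p.2 ^ 2))) ^ 2 = p.1 ^ 2 + p.2 ^ 2 := by
      rw [h5, h4]
    have h8 : ‖(D L).val p‖ ^ 2 * (1 + (p.1 ^ 2 + p.2 ^ 2)) * (1 + (p.1 ^ 2 + p.2 ^ 2))
        ≤ 1 * (1 + (p.1 ^ 2 + p.2 ^ 2)) := by nlinarith
    exact le_of_mul_le_mul_right h8 (hq p)
  · intro p
    have h3e := D'D_log h1 h2
    rw [D'D_sf, D_sf, D'_sf] at h3e
    have h3 := congrArg (fun g : Sm => g.val p) h3e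
    simp only [mul_val, sub_val, Cst_val, cj_val] at h3
    have h5 := WW_val 0 p
    rw [mul_val, cj_val, hd] at h5
    have h6 : (D' (D L)).val p * (((1 + (p.1 ^ 2 + p.2 ^ 2) : ℝ) : ℂ) * ((1 + (p.1 ^ 2 + p.2 ^ 2) : ℝ) : ℂ))
        = 1 := by
      rw [hs] at h3
      rw [h3]
      push_cast at h5 ⊢
      linear_combination - h5
    have h7 : (D' (D L)).val p = ((1 / ((1 + (p.1 ^ 2 + p.2 ^ 2)) * (1 + (p.1 ^ 2 + p.2 ^ 2))) : ℝ) : ℂ) := by
      have h8 : (((1 + (p.1 ^ 2 + p.2 ^ 2) : ℝ) : ℂ)) ≠ 0 := by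
        exact_mod_cast (hq p).ne'
      rw [Complex.ofReal_div, Complex.ofReal_mul, eq_div_iff (mul_ne_zero h8 h8), h6, Complex.ofReal_one]
    rw [ev_val, h7, Complex.ofReal_re]
    apply one_div_le_one_div_of_le (hq p)
    nlinarith [sq_nonneg p.1, sq_nonneg p.2]

end N246
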