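import Pool.Agent.Helper46.N2Base

/-! # Row LIO: Liouville theorem for subharmonic functions on the plane -/

set_option autoImplicit false
open N2 Filter Topology

namespace N246

/-- the barrier `log (1 + log (1 + c |z - a|²))` -/
lemma exists_barrier (a : ℂ) (c : ℝ) (hc : 0 < c) : ∃ v : Sm, cj v = v ∧
    (∀ p, (v.val p).re = Real.log (1 + Real.log (1 + c * dsq a p))) ∧
    (∀ p, 4 < c * dsq a p → ((D' (D v)).val p).re < 0) := by
  have hr : ∀ p, 0 ≤ c * dsq a p := fun p => mul_nonneg hc.le (dsq_nonneg a p)
  have hpos : ∀ p, 0 < ((sf a c).val p).re := by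
    intro p
    rw [sf_val, Complex.ofReal_re]
    have := hr p
    linarith
  obtain ⟨L, hL, hLr, h1, h2⟩ := exists_log (sf a c) (cj_sf a c) hpos
  have hLv : ∀ p, L.val p = ((Real.log (1 + c * dsq a p) : ℝ) : ℂ) := by
    intro p
    rw [hL, sf_val, Complex.ofReal_re]
  have hLnn : ∀ p, 0 ≤ Real.log (1 + c * dsq a p) := fun p =>
    Real.log_nonneg (by have := hr p; linarith)
  have ht : cj (1 + L) = 1 + L := by rw [map_add, map_one, hLr]
  have htv : ∀ p, (1 + L).val p = ((1 + Real.log (1 + c * dsq a p) : ℝ) : ℂ) := by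
    intro p
    rw [add_val, one_val, hLv]
    push_cast
    ring
  have hpos2 : ∀ p, 0 < ((1 + L).val p).re := by
    intro p
    rw [htv, Complex.ofReal_re]
    have := hLnn p
    linarith
  obtain ⟨v, hv, hvr, h3, h4⟩ := exists_log (1 + L) ht hpos2
  refine ⟨v, hvr, ?_, ?_⟩
  · intro p
    rw [hv, Complex.ofReal_re, htv, Complex.ofReal_re]
  · intro p hp
    have e1 := D'D_log h1 h2
    have e2 := D'D_log h3 h4
    have hDt : D (1 + L) = D L := by rw [D_add, D_one, zero_add]
    have hDt' : D' (1 + L) = D' L := by rw [D'_add, D'_one, zero_add]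
    rw [hDt, hDt'] at e2
    rw [D'D_sf, D_sf, D'_sf] at e1
    rw [D_sf] at h1
    rw [D'_sf] at h2
    have g1 := congrArg (fun g : Sm => g.val p) e1
    have g2 := congrArg (fun g : Sm => g.val p) e2
    have k1 := congrArg (fun g : Sm => g.val p) h1
    have k2 := congrArg (fun g : Sm => g.val p) h2
    simp only [mul_val, sub_val, Cst_val, cj_val, sf_val, htv] at g1 g2 k1 k2
    have hw := WW_val a p
    rw [mul_val, cj_val] at hw
    set d : ℝ := dsq a p with hd
    set s : ℝ := 1 + c * d with hs
    set t : ℝ := 1 + Real.log s with htt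
    have hs0 : 5 < s := by linarith
    have ht0 : 1 ≤ t := by
      have := hLnn p
      linarith
    have hsC : (s : ℂ) ≠ 0 := by
      have : s ≠ 0 := by linarith
      exact_mod_cast this
    -- (D L)(D' L) s² = c² d = c (s - 1)
    have q1 : (D L).val p * (D' L).val p * ((s : ℂ) * s) = ((c * (s - 1) : ℝ) : ℂ) := by
      have : (c : ℂ) * (c * d) = ((c * (s - 1) : ℝ) : ℂ) := by
        rw [hs]; push_cast; ring
      rw [← this]
      linear_combination (D' L).val p * s * k1 + (c : ℂ) * (starRingEnd ℂ) ((Wf a).val p) * k2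
        + (c : ℂ) * c * hw
    have q2 : (D' (D L)).val p * ((s : ℂ) * s) = (c : ℂ) := by
      have : (c : ℂ) * (c * d) = ((c * (s - 1) : ℝ) : ℂ) := by
        rw [hs]; push_cast; ring
      rw [g1]
      push_cast at this ⊢
      linear_combination - (c : ℂ) * c * hw - this
    have q3 : (D' (D v)).val p * (((s * s * (t * t)) : ℝ) : ℂ) = ((c * (t - (s - 1)) : ℝ) : ℂ) := by
      push_cast
      push_cast at q1
      linear_combination ((s : ℂ) * s) * g2 + (t : ℂ) * q2 - q1
    have hts : t < s - 1 := by
      have h5 : Real.log s = Real.log (s / 4) + 2 * Real.log 2 := by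
        rw [Real.log_div (by linarith) (by norm_num)]
        have : Real.log 4 = 2 * Real.log 2 := by
          rw [show (4 : ℝ) = 2 ^ 2 by norm_num, Real.log_pow]; norm_num
        rw [this]; ring
      have h6 : Real.log (s / 4) ≤ s / 4 - 1 := Real.log_le_sub_one_of_pos (by linarith)
      have h7 := Real.log_two_lt_d9
      rw [htt, h5]
      linarith
    have hss : 0 < s * s * (t * t) := by positivity
    have q4 : (D' (D v)).val p = ((c * (t - (s - 1)) / (s * s * (t * t)) : ℝ) : ℂ) := by
      rw [Complex.ofReal_div, eq_div_iff (by exact_mod_cast hss.ne')]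
      exact q3
    rw [q4, Complex.ofReal_re]
    apply div_neg_of_neg_of_pos _ hss
    apply mul_neg_of_pos_of_neg hc
    linarith

/-- the barrier tends to infinity -/
lemma tendsto_barrier (a : ℂ) (c : ℝ) (hc : 0 < c) :
    Tendsto (fun p => Real.log (1 + Real.log (1 + c * dsq a p))) (cocompact (ℝ × ℝ)) atTop := by
  have h1 : Tendsto (fun p : ℝ × ℝ => dsq a p) (cocompact (ℝ × ℝ)) atTop := by
    rw [tendsto_atTop]
    intro R
    rw [Filter.Eventually, mem_cocompact]
    refine ⟨{p : ℝ × ℝ | dsq a p ≤ R}, ?_, ?_⟩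
    · apply Metric.isCompact_of_isClosed_isBounded
      · apply isClosed_le _ continuous_const
        unfold dsq
        fun_prop
      · rw [Metric.isBounded_iff_subset_closedBall (a.re, a.im)]
        refine ⟨|R| + 1, fun p hp => ?_⟩
        rw [Set.mem_ofPred_eq, dsq] at hp
        rw [Metric.mem_closedBall, Prod.dist_eq, max_le_iff, Real.dist_eq, Real.dist_eq]
        have h0 := le_abs_self R
        constructor <;> apply abs_le_of_sq_le_sq' _ (by positivity) |> abs_le.2
        · nlinarith [sq_nonneg (p.2 - a.im), abs_nonneg R]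
        · nlinarith [sq_nonneg (p.1 - a.re), abs_nonneg R]
    · intro p hp
      rw [Set.mem_compl_iff, Set.mem_ofPred_eq, not_le] at hp
      exact hp.le
  have h2 : Tendsto (fun p : ℝ × ℝ => 1 + c * dsq a p) (cocompact (ℝ × ℝ)) atTop :=
    tendsto_atTop_add_const_left _ _ (h1.const_mul_atTop hc)
  have h3 := tendsto_atTop_add_const_left _ (1 : ℝ) (Real.tendsto_log_atTop.comp h2)
  exact Real.tendsto_log_atTop.comp h3

/-- subharmonic, bounded above: the value at any point is at most the maximum over a small disc -/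
lemma le_on_disc (hM : ST_MAX) (f : Sm) (hf : cj f = f) (hs : ∀ p, 0 ≤ ((D' (D f)).val p).re)
    (C : ℝ) (hC : ∀ p, (f.val p).re ≤ C) (a : ℂ) (c : ℝ) (hc : 0 < c) (m : ℝ)
    (hm : ∀ p, c * dsq a p ≤ 4 → (f.val p).re ≤ m) (p0 : ℝ × ℝ) : (f.val p0).re ≤ m := by
  obtain ⟨v, hvr, hv, hv2⟩ := exists_barrier a c hc
  have hvnn : ∀ p, 0 ≤ (v.val p).re := by
    intro p
    rw [hv]
    apply Real.log_nonneg
    have : 0 ≤ Real.log (1 + c * dsq a p) :=
      Real.log_nonneg (by have := mul_nonneg hc.le (dsq_nonneg a p); linarith)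
    linarith
  have key : ∀ ε : ℝ, 0 < ε → ∀ p, (f.val p).re - ε * (v.val p).re ≤ m := by
    intro ε hε p
    by_contra hcon
    push Not at hcon
    have hcont : Continuous (fun q => ε * (v.val q).re - (f.val q).re) :=
      (continuous_const.mul (re_continuous v)).sub (re_continuous f)
    have hlim : Tendsto (fun q => ε * (v.val q).re - (f.val q).re) (cocompact (ℝ × ℝ)) atTop := by
      have h1 : Tendsto (fun q : ℝ × ℝ => (v.val q).re) (cocompact (ℝ × ℝ)) atTop := by
        have h2 := tendsto_barrier a c hc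
        have h3 : (fun q : ℝ × ℝ => (v.val q).re) = fun p => Real.log (1 + Real.log (1 + c * dsq a p)) := by
          funext q; exact hv q
        rw [h3]; exact h2
      have h4 : Tendsto (fun q : ℝ × ℝ => -C + ε * (v.val q).re) (cocompact (ℝ × ℝ)) atTop :=
        tendsto_atTop_add_const_left _ _ (h1.const_mul_atTop hε)
      refine tendsto_atTop_mono (fun q => ?_) h4
      have := hC q
      linarith
    obtain ⟨q, hq⟩ := hcont.exists_forall_le hlim
    have hq0 := hq p
    have hqout : 4 < c * dsq a q := by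
      by_contra hh
      push Not at hh
      have h5 := hm q hh
      have h6 := mul_nonneg hε.le (hvnn q)
      linarith
    -- apply the second order condition to w = f - ε v
    set w : Sm := f - Cst (ε : ℂ) * v with hw
    have hwr : cj w = w := by
      rw [hw, map_sub, map_mul, cj_real, hf, hvr]
    have hwv : ∀ x, (w.val x).re = (f.val x).re - ε * (v.val x).re := by
      intro x
      rw [hw, sub_val, mul_val, Cst_val, Complex.sub_re, Complex.re_ofReal_mul]
    have hmax : IsLocalMax (fun x => (w.val x).re) q := by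
      apply Filter.Eventually.of_forall
      intro x
      have := hq x
      simp only [hwv]
      linarith
    have h7 := (hM w q hwr hmax).2
    have h8 : D' (D w) = D' (D f) - Cst (ε : ℂ) * D' (D v) := by
      rw [hw, D_sub, D_mul, D_Cst, zero_mul, zero_add, D'_sub, D'_mul, D'_Cst, zero_mul, zero_add]
    have h9 : (ev q (D' (D w))).re = ((D' (D f)).val q).re - ε * ((D' (D v)).val q).re := by
      rw [ev_val, h8, sub_val, mul_val, Cst_val, Complex.sub_re, Complex.re_ofReal_mul]
    have h10 := hv2 q hqout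
    have h11 := hs q
    have h12 := norm_nonneg (ev q (D (D w)))
    have h13 : ε * ((D' (D v)).val q).re < 0 := mul_neg_of_pos_of_neg hε h10
    rw [h9] at h7
    linarith
  apply le_of_forall_pos_le_add
  intro δ hδ
  have h1 := key (δ / (1 + (v.val p0).re)) (div_pos hδ (by have := hvnn p0; linarith)) p0
  have h2 : δ / (1 + (v.val p0).re) * (v.val p0).re ≤ δ := by
    have h3 := hvnn p0
    rw [div_mul_eq_mul_div, div_le_iff₀ (by linarith)]
    nlinarith
  linarith

theorem st_LIO (hM : ST_MAX) : ST_LIO := by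
  intro f hf hs hC p p'
  obtain ⟨C, hC⟩ := hC
  have main : ∀ p p' : ℝ × ℝ, (f.val p').re ≤ (f.val p).re := by
    intro p p'
    apply le_of_forall_pos_le_add
    intro η hη
    -- a small disc around p
    have hcont := (re_continuous f).continuousAt (x := p)
    rw [Metric.continuousAt_iff] at hcont
    obtain ⟨r, hr, hr2⟩ := hcont η hη
    set a : ℂ := ⟨p.1, p.2⟩ with ha
    set c : ℝ := 16 / r ^ 2 with hcdef
    have hc : 0 < c := by positivity
    refine le_on_disc hM f hf (fun q => hs q) C (fun q => hC q) a c hc ((f.val p).re + η) ?_ p'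
    intro q hq
    have h1 : dsq a q ≤ r ^ 2 / 4 := by
      rw [hcdef, div_mul_eq_mul_div, div_le_iff₀ (by positivity)] at hq
      linarith
    have h2 : dist q p < r := by
      rw [Prod.dist_eq, max_lt_iff, Real.dist_eq, Real.dist_eq]
      have h3 : (q.1 - p.1) ^ 2 + (q.2 - p.2) ^ 2 ≤ r ^ 2 / 4 := h1
      constructor
      · apply abs_lt_of_sq_lt_sq _ hr.le
        nlinarith [sq_nonneg (q.2 - p.2), pow_pos hr 2]
      · apply abs_lt_of_sq_lt_sq _ hr.le
        nlinarith [sq_nonneg (q.1 - p.1), pow_pos hr 2]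
    have h4 := hr2 h2
    rw [Real.dist_eq] at h4
    have h5 := (abs_lt.1 h4).2
    linarith
  have h1 : (f.val p).re = (f.val p').re := le_antisymm (main p' p) (main p p')
  rw [ev_val, ev_val, ← val_real hf p, ← val_real hf p', h1]

end N246
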