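import Pool.Agent.Helper46.RobinDefs

open MeasureTheory Set Filter Topology
open scoped ENNReal NNReal

namespace Pool.Agent.Helper46.Robin

/-- `n`-dimensional Euclidean space. -/
abbrev E (n : ℕ) := EuclideanSpace ℝ (Fin n)

/-- One-dimensional form inequality on a half-line. -/
lemma halfline_ineq {w : ℝ → ℝ} (hw : ContDiff ℝ 1 w) (hc : HasCompactSupport w) (a γ : ℝ) :
    γ * w a ^ 2 ≤ ∫ s in Ioi a, ((deriv w s) ^ 2 + γ ^ 2 * (w s) ^ 2) := by
  have hdw : Continuous (deriv w) := hw.continuous_deriv le_rfl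
  have hdc : HasCompactSupport (deriv w) := hc.deriv
  have hw2 : ContDiff ℝ 1 (fun s => w s ^ 2) := hw.pow 2
  have hc2 : HasCompactSupport (fun s => w s ^ 2) := by
    have : (fun s => w s ^ 2) = fun s => w s * w s := by ext s; ring
    rw [this]
    exact hc.mul_left
  have h1 : ∫ s in Ioi a, deriv (fun s => w s ^ 2) s = - (w a ^ 2) :=
    hc2.integral_Ioi_deriv_eq hw2 a
  have hderiv : ∀ s, deriv (fun s => w s ^ 2) s = 2 * w s * deriv w s := by
    intro s
    have := ((hw.differentiable one_ne_zero s).hasDerivAt.fun_pow 2).deriv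
    simpa [pow_one] using this
  have i1 : IntegrableOn (fun s => (deriv w s) ^ 2 + γ ^ 2 * (w s) ^ 2) (Ioi a) := by
    apply Integrable.integrableOn
    apply Continuous.integrable_of_hasCompactSupport
    · have := hw.continuous
      fun_prop
    · have e1 : (fun s => (deriv w s) ^ 2 + γ ^ 2 * (w s) ^ 2) =
          fun s => (deriv w s) * (deriv w s) + (γ ^ 2 * w s) * w s := by ext s; ring
      rw [e1]
      exact (hdc.mul_left).add (hc.mul_left)
  have i2 : IntegrableOn (fun s => deriv (fun s => w s ^ 2) s) (Ioi a) := by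
    apply Integrable.integrableOn
    apply Continuous.integrable_of_hasCompactSupport
    · exact hw2.continuous_deriv le_rfl
    · exact hc2.deriv
  have h2 : 0 ≤ ∫ s in Ioi a, (((deriv w s) ^ 2 + γ ^ 2 * (w s) ^ 2) +
      γ * deriv (fun s => w s ^ 2) s) := by
    apply integral_nonneg
    intro s
    simp only [Pi.zero_apply]
    rw [hderiv s]
    nlinarith [sq_nonneg (deriv w s + γ * w s)]
  rw [integral_add i1 (i2.const_mul γ), integral_const_mul, h1] at h2
  linarith

/-- One-dimensional form inequality on an interval. -/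
lemma interval_ineq {w : ℝ → ℝ} (hw : ContDiff ℝ 1 w) {a b β c γ : ℝ} (hab : a ≤ b)
    (hγ : γ ^ 2 = β ^ 2 + c) (hc : 0 ≤ c) (hpos : c * (b - a) ≤ γ) :
    (γ - c * (b - a)) * w a ^ 2 - γ * w b ^ 2 ≤
      ∫ s in a..b, ((deriv w s) ^ 2 + β ^ 2 * (w s) ^ 2) := by
  have hdw : Continuous (deriv w) := hw.continuous_deriv le_rfl
  have hcw : Continuous w := hw.continuous
  let G : ℝ → ℝ := fun s => (γ - c * (b - s)) * w s ^ 2
  let G' : ℝ → ℝ := fun s => c * w s ^ 2 + (γ - c * (b - s)) * (2 * w s * deriv w s)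
  have hG : ∀ s, HasDerivAt G (G' s) s := by
    intro s
    have h1 : HasDerivAt w (deriv w s) s := (hw.differentiable one_ne_zero s).hasDerivAt
    have h2 : HasDerivAt (fun s => w s ^ 2) (2 * w s * deriv w s) s := by
      have := h1.fun_pow 2
      simpa [pow_one] using this
    have h3 : HasDerivAt (fun s => γ - c * (b - s)) c s := by
      have := (((hasDerivAt_id s).const_sub b).const_mul c).const_sub γ
      simpa using this
    exact h3.mul h2
  have hG'c : Continuous G' := by
    show Continuous (fun s => c * w s ^ 2 + (γ - c * (b - s)) * (2 * w s * deriv w s))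
    fun_prop
  have hFTC : ∫ s in a..b, G' s = G b - G a :=
    intervalIntegral.integral_eq_sub_of_hasDerivAt (fun s _ => hG s) (hG'c.intervalIntegrable a b)
  have hle : ∫ s in a..b, (-G' s) ≤ ∫ s in a..b, ((deriv w s) ^ 2 + β ^ 2 * (w s) ^ 2) := by
    apply intervalIntegral.integral_mono_on hab
    · exact hG'c.neg.intervalIntegrable a b
    · apply Continuous.intervalIntegrable
      fun_prop
    · intro s hs
      show -(c * w s ^ 2 + (γ - c * (b - s)) * (2 * w s * deriv w s)) ≤ _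
      set g := γ - c * (b - s) with hg
      have hg0 : 0 ≤ g := by
        have : c * (b - s) ≤ c * (b - a) := by
          apply mul_le_mul_of_nonneg_left _ hc
          linarith [hs.1]
        linarith
      have hgγ : g ≤ γ := by
        have : 0 ≤ c * (b - s) := mul_nonneg hc (by linarith [hs.2])
        linarith
      have hg2 : g ^ 2 ≤ β ^ 2 + c := by
        rw [← hγ]
        exact pow_le_pow_left₀ hg0 hgγ 2
      nlinarith [sq_nonneg (deriv w s + g * w s), mul_nonneg (sub_nonneg.mpr hg2) (sq_nonneg (w s))]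
  rw [intervalIntegral.integral_neg, hFTC] at hle
  have hGa : G a = (γ - c * (b - a)) * w a ^ 2 := rfl
  have hGb : G b = γ * w b ^ 2 := by
    show (γ - c * (b - b)) * w b ^ 2 = _
    ring
  rw [hGa, hGb] at hle
  linarith

/-- Combination: half-line from `a`, with an extra mass term above `b`. -/
lemma halfline_ineq_extra {w : ℝ → ℝ} (hw : ContDiff ℝ 1 w) (hcs : HasCompactSupport w)
    {a b β c γ : ℝ} (hab : a ≤ b) (hγ : γ ^ 2 = β ^ 2 + c) (hc : 0 ≤ c)
    (hpos : c * (b - a) ≤ γ) :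
    (γ - c * (b - a)) * w a ^ 2 ≤
      (∫ s in Ioi a, ((deriv w s) ^ 2 + β ^ 2 * (w s) ^ 2)) + c * ∫ s in Ioi b, (w s) ^ 2 := by
  have hdw : Continuous (deriv w) := hw.continuous_deriv le_rfl
  have hcw : Continuous w := hw.continuous
  have hdc : HasCompactSupport (deriv w) := hcs.deriv
  have hI : Integrable (fun s => (deriv w s) ^ 2 + β ^ 2 * (w s) ^ 2) := by
    apply Continuous.integrable_of_hasCompactSupport
    · fun_prop
    · have e1 : (fun s => (deriv w s) ^ 2 + β ^ 2 * (w s) ^ 2) =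
          fun s => (deriv w s) * (deriv w s) + (β ^ 2 * w s) * w s := by ext s; ring
      rw [e1]
      exact (hdc.mul_left).add (hcs.mul_left)
  have hI2 : Integrable (fun s => (w s) ^ 2) := by
    apply Continuous.integrable_of_hasCompactSupport
    · fun_prop
    · have e1 : (fun s => (w s) ^ 2) = fun s => w s * w s := by ext s; ring
      rw [e1]
      exact hcs.mul_left
  have h1 := interval_ineq hw hab hγ hc hpos
  have h2 := halfline_ineq hw hcs b γ
  have h3 : ∫ s in Ioi b, ((deriv w s) ^ 2 + γ ^ 2 * (w s) ^ 2) =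
      (∫ s in Ioi b, ((deriv w s) ^ 2 + β ^ 2 * (w s) ^ 2)) + c * ∫ s in Ioi b, (w s) ^ 2 := by
    rw [← integral_const_mul, ← integral_add hI.integrableOn (hI2.integrableOn.const_mul c)]
    apply integral_congr_ae
    filter_upwards with s
    rw [hγ]
    ring
  have h4 : ∫ s in Ioi a, ((deriv w s) ^ 2 + β ^ 2 * (w s) ^ 2) =
      (∫ s in a..b, ((deriv w s) ^ 2 + β ^ 2 * (w s) ^ 2)) +
      ∫ s in Ioi b, ((deriv w s) ^ 2 + β ^ 2 * (w s) ^ 2) := by
    rw [intervalIntegral.integral_of_le hab, ← setIntegral_union (Ioc_disjoint_Ioi le_rfl)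
      measurableSet_Ioi hI.integrableOn hI.integrableOn, Ioc_union_Ioi_eq_Ioi hab]
  rw [h3] at h2
  rw [h4]
  linarith

/-- Standard basis vectors. -/
noncomputable abbrev bv {n : ℕ} (i : Fin n) : E n := EuclideanSpace.single i (1 : ℝ)

lemma sum_sq_eq_norm_sq {n : ℕ} (y : E n) : ∑ i, (y i) ^ 2 = ‖y‖ ^ 2 := by
  rw [EuclideanSpace.norm_sq_eq]
  simp

/-- A Hardy type inequality with a bounded vector field. -/
lemma hardy {d : ℕ} (hd : 3 ≤ d) {R : ℝ} (hR : 0 < R) {v : E d → ℝ} (hv : ContDiff ℝ 1 v)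
    (hc : HasCompactSupport v) :
    (3 / (4 * R ^ 2)) * ∫ y in Metric.ball (0 : E d) R, (v y) ^ 2 ≤
      ∫ y, ∑ i, (fderiv ℝ v y (bv i)) ^ 2 := by
  -- the vector field
  let ρ : E d → ℝ := fun y => R ^ 2 + ‖y‖ ^ 2
  have hρpos : ∀ y, 0 < ρ y := fun y => by
    show 0 < R ^ 2 + ‖y‖ ^ 2
    positivity
  let X : Fin d → E d → ℝ := fun i y => y i * (ρ y)⁻¹
  have hρd : ∀ y, HasFDerivAt ρ (2 • (innerSL ℝ y)) y := by
    intro y
    exact (hasStrictFDerivAt_norm_sq y).hasFDerivAt.const_add (R ^ 2)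
  have hcoord : ∀ i : Fin d, ∀ y : E d, HasFDerivAt (fun y : E d => y i)
      (EuclideanSpace.proj i : E d →L[ℝ] ℝ) y := by
    intro i y
    exact (EuclideanSpace.proj i : E d →L[ℝ] ℝ).hasFDerivAt
  have hinv : ∀ y, HasFDerivAt (fun y => (ρ y)⁻¹) ((-(ρ y ^ 2)⁻¹) • (2 • (innerSL ℝ y))) y := by
    intro y
    exact (hasDerivAt_inv (hρpos y).ne').comp_hasFDerivAt y (hρd y)
  have hXd : ∀ i y, HasFDerivAt (X i) (y i • ((-(ρ y ^ 2)⁻¹) • (2 • (innerSL ℝ y))) +
      (ρ y)⁻¹ • (EuclideanSpace.proj i : E d →L[ℝ] ℝ)) y := by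
    intro i y
    exact (hcoord i y).mul (hinv y)
  have hXdi : ∀ i y, fderiv ℝ (X i) y (bv i) = (ρ y)⁻¹ - 2 * (y i) ^ 2 * (ρ y ^ 2)⁻¹ := by
    intro i y
    rw [(hXd i y).fderiv]
    have h1 : inner ℝ y (bv i) = y i := by
      rw [EuclideanSpace.inner_single_right]
      simp
    simp [h1]
    ring
  have hXcd : ∀ i, ContDiff ℝ 1 (X i) := by
    intro i
    have h1 : ContDiff ℝ 1 ρ := contDiff_const.add (contDiff_norm_sq ℝ)
    have h2 : ContDiff ℝ 1 (fun y : E d => y i) := (EuclideanSpace.proj i : E d →L[ℝ] ℝ).contDiff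
    exact h2.mul (h1.inv (fun y => (hρpos y).ne'))
  have hv2 : ContDiff ℝ 1 (fun y => v y ^ 2) := hv.pow 2
  have hc2 : HasCompactSupport (fun y => v y ^ 2) := by
    have : (fun y => v y ^ 2) = fun y => v y * v y := by ext s; ring
    rw [this]
    exact hc.mul_left
  have hv2d : ∀ i y, fderiv ℝ (fun y => v y ^ 2) y (bv i) = 2 * v y * fderiv ℝ v y (bv i) := by
    intro i y
    have h1 : HasFDerivAt v (fderiv ℝ v y) y := (hv.differentiable one_ne_zero y).hasFDerivAt
    have h2 := (hasDerivAt_pow 2 (v y)).comp_hasFDerivAt y h1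
    have h3 : HasFDerivAt (fun y => v y ^ 2) ((((2 : ℕ) : ℝ) * v y ^ (2 - 1)) • fderiv ℝ v y) y := h2
    rw [h3.fderiv]
    simp
  have hfc : ∀ i, Continuous (fun y => fderiv ℝ (fun y => v y ^ 2) y (bv i)) := fun i =>
    (hv2.continuous_fderiv_apply one_ne_zero).comp (continuous_id.prodMk continuous_const)
  have hfc' : ∀ i, Continuous (fun y => fderiv ℝ (X i) y (bv i)) := fun i =>
    ((hXcd i).continuous_fderiv_apply one_ne_zero).comp (continuous_id.prodMk continuous_const)
  have hibp : ∀ i, ∫ y, X i y * fderiv ℝ (fun y => v y ^ 2) y (bv i) =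
      - ∫ y, fderiv ℝ (X i) y (bv i) * v y ^ 2 := by
    intro i
    apply integral_mul_fderiv_eq_neg_fderiv_mul_of_integrable
    · apply Continuous.integrable_of_hasCompactSupport
      · exact (hfc' i).mul hv2.continuous
      · exact hc2.mul_left
    · apply Continuous.integrable_of_hasCompactSupport
      · exact (hXcd i).continuous.mul (hfc i)
      · exact (hc2.fderiv_apply ℝ (bv i)).mul_left
    · apply Continuous.integrable_of_hasCompactSupport
      · exact (hXcd i).continuous.mul hv2.continuous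
      · exact hc2.mul_left
    · intro x _
      exact (hXcd i).differentiable one_ne_zero x
    · intro x _
      exact hv2.differentiable one_ne_zero x
  -- integrability of all terms
  have iA : ∀ i, Integrable (fun y => (fderiv ℝ v y (bv i)) ^ 2) := by
    intro i
    have e1 : (fun y => (fderiv ℝ v y (bv i)) ^ 2) =
        fun y => (fderiv ℝ v y (bv i)) * (fderiv ℝ v y (bv i)) := by ext y; ring
    rw [e1]
    have hcont : Continuous (fun y => fderiv ℝ v y (bv i)) :=
      (hv.continuous_fderiv_apply one_ne_zero).comp (continuous_id.prodMk continuous_const)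
    exact (hcont.mul hcont).integrable_of_hasCompactSupport (hc.fderiv_apply ℝ (bv i)).mul_left
  have iB : ∀ i, Integrable (fun y => X i y * fderiv ℝ (fun y => v y ^ 2) y (bv i)) := by
    intro i
    apply Continuous.integrable_of_hasCompactSupport
    · exact (hXcd i).continuous.mul (hfc i)
    · exact (hc2.fderiv_apply ℝ (bv i)).mul_left
  have iC : ∀ i, Integrable (fun y => fderiv ℝ (X i) y (bv i) * v y ^ 2) := by
    intro i
    apply Continuous.integrable_of_hasCompactSupport
    · exact (hfc' i).mul hv2.continuous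
    · exact hc2.mul_left
  have iD : ∀ i, Integrable (fun y => (X i y) ^ 2 * v y ^ 2) := by
    intro i
    apply Continuous.integrable_of_hasCompactSupport
    · exact ((hXcd i).continuous.pow 2).mul hv2.continuous
    · exact hc2.mul_left
  have hsum : ∑ i, ∫ y, (fderiv ℝ (X i) y (bv i) * v y ^ 2 - (X i y) ^ 2 * v y ^ 2) ≤
      ∑ i, ∫ y, (fderiv ℝ v y (bv i)) ^ 2 := by
    apply Finset.sum_le_sum
    intro i _
    have h1 : 0 ≤ ∫ y, ((fderiv ℝ v y (bv i)) ^ 2 + X i y * fderiv ℝ (fun y => v y ^ 2) y (bv i) +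
        (X i y) ^ 2 * v y ^ 2) := by
      apply integral_nonneg
      intro y
      simp only [Pi.zero_apply]
      rw [hv2d i y]
      nlinarith [sq_nonneg (fderiv ℝ v y (bv i) + X i y * v y)]
    have iAB : Integrable (fun y => (fderiv ℝ v y (bv i)) ^ 2 +
        X i y * fderiv ℝ (fun y => v y ^ 2) y (bv i)) := (iA i).add (iB i)
    rw [integral_add iAB (iD i), integral_add (iA i) (iB i), hibp i] at h1
    rw [integral_sub (iC i) (iD i)]
    linarith
  have iCD : ∀ i, Integrable (fun y => fderiv ℝ (X i) y (bv i) * v y ^ 2 -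
      (X i y) ^ 2 * v y ^ 2) := fun i => (iC i).sub (iD i)
  rw [← integral_finsetSum _ (fun i _ => iCD i),
    ← integral_finsetSum _ (fun i _ => iA i)] at hsum
  refine le_trans ?_ hsum
  rw [← integral_const_mul]
  have hpt : ∀ y, ∑ i, (fderiv ℝ (X i) y (bv i) * v y ^ 2 - (X i y) ^ 2 * v y ^ 2) =
      ((d * R ^ 2 + (d - 3) * ‖y‖ ^ 2) * (ρ y ^ 2)⁻¹) * v y ^ 2 := by
    intro y
    have h1 : ∀ i, (fderiv ℝ (X i) y (bv i) * v y ^ 2 - (X i y) ^ 2 * v y ^ 2) =
        ((ρ y)⁻¹ - 3 * (y i) ^ 2 * (ρ y ^ 2)⁻¹) * v y ^ 2 := by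
      intro i
      rw [hXdi i y]
      show ((ρ y)⁻¹ - 2 * (y i) ^ 2 * (ρ y ^ 2)⁻¹) * v y ^ 2 - (y i * (ρ y)⁻¹) ^ 2 * v y ^ 2 = _
      field_simp
      ring
    rw [Finset.sum_congr rfl (fun i _ => h1 i), ← Finset.sum_mul, Finset.sum_sub_distrib,
      ← Finset.sum_mul, ← Finset.mul_sum, sum_sq_eq_norm_sq]
    simp only [Finset.sum_const, Finset.card_univ, Fintype.card_fin, nsmul_eq_mul]
    congr 1
    have h2 := (hρpos y).ne'
    have h3 : ρ y = R ^ 2 + ‖y‖ ^ 2 := rfl
    field_simp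
    rw [h3]
    ring
  have hd' : (3 : ℝ) ≤ d := by exact_mod_cast hd
  rw [← integral_indicator Metric.isOpen_ball.measurableSet]
  apply integral_mono_of_nonneg
  · filter_upwards with y
    apply Set.indicator_nonneg
    intro y _
    positivity
  · exact integrable_finsetSum _ (fun i _ => iCD i)
  · filter_upwards with y
    rw [hpt y]
    by_cases hy : y ∈ Metric.ball (0 : E d) R
    · rw [Set.indicator_of_mem hy]
      rw [Metric.mem_ball, dist_zero_right] at hy
      apply mul_le_mul_of_nonneg_right _ (sq_nonneg _)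
      have h3 : ρ y = R ^ 2 + ‖y‖ ^ 2 := rfl
      have h4 : ρ y ≤ 2 * R ^ 2 := by
        rw [h3]
        nlinarith [norm_nonneg y]
      rw [← div_eq_mul_inv, div_le_div_iff₀ (by positivity) (pow_pos (hρpos y) 2)]
      have h5 : ρ y ^ 2 ≤ (2 * R ^ 2) ^ 2 := pow_le_pow_left₀ (hρpos y).le h4 2
      have h6 : 0 ≤ (d - 3 : ℝ) * ‖y‖ ^ 2 := mul_nonneg (by linarith) (sq_nonneg _)
      have h7 : 0 ≤ (d - 3 : ℝ) * R ^ 2 := mul_nonneg (by linarith) (sq_nonneg _)
      nlinarith [sq_nonneg R, mul_nonneg h6 (sq_nonneg R), mul_nonneg h7 (sq_nonneg R)]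
    · rw [Set.indicator_of_notMem hy]
      have h6 : 0 ≤ (d - 3 : ℝ) * ‖y‖ ^ 2 := mul_nonneg (by linarith) (sq_nonneg _)
      have h8 := (hρpos y).le
      positivity

end Pool.Agent.Helper46.Robin
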