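import Pool.Agent.Helper46.RobinA

open MeasureTheory Set Filter Topology
open scoped ENNReal NNReal ContDiff

namespace Pool.Agent.Helper46.Robin

variable {d : ℕ}

/-- Put together the first coordinates and the last one. -/
noncomputable def join (y : E d) (s : ℝ) : E (d + 1) :=
  WithLp.toLp 2 (Fin.snoc (α := fun _ => ℝ) (fun i => y i) s)

@[simp] lemma join_castSucc (y : E d) (s : ℝ) (i : Fin d) : join y s (Fin.castSucc i) = y i := by
  simp [join]

@[simp] lemma join_last (y : E d) (s : ℝ) : join y s (Fin.last d) = s := by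
  simp [join]

@[simp] lemma init_join (y : E d) (s : ℝ) : headCoords (join y s) = y := by
  ext i
  simp [headCoords]

@[simp] lemma last_join (y : E d) (s : ℝ) : lastCoord (join y s) = s := by
  simp [lastCoord]

@[simp] lemma join_init_last (x : E (d + 1)) : join (headCoords x) (lastCoord x) = x := by
  ext i
  refine Fin.lastCases ?_ (fun j => ?_) i
  · simp [lastCoord]
  · simp [headCoords]

lemma init_apply (x : E (d + 1)) (i : Fin d) : headCoords x i = x (Fin.castSucc i) := rfl

/-- The splitting as a continuous linear equivalence. -/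
noncomputable def splitL (d : ℕ) : E (d + 1) ≃L[ℝ] (E d × ℝ) :=
  LinearEquiv.toContinuousLinearEquiv
    { toFun := fun x => (headCoords x, lastCoord x)
      invFun := fun p => join p.1 p.2
      map_add' := by
        intro x y
        ext i
        · simp [headCoords]
        · simp [lastCoord]
      map_smul' := by
        intro c x
        ext i
        · simp [headCoords]
        · simp [lastCoord]
      left_inv := by
        intro x
        simp
      right_inv := by
        intro p
        simp }

@[simp] lemma splitL_apply (x : E (d + 1)) : splitL d x = (headCoords x, lastCoord x) := rfl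

@[simp] lemma splitL_symm_apply (p : E d × ℝ) : (splitL d).symm p = join p.1 p.2 := rfl

lemma continuous_init : Continuous (headCoords : E (d + 1) → E d) :=
  continuous_fst.comp (splitL d).continuous

lemma continuous_last : Continuous (lastCoord : E (d + 1) → ℝ) :=
  continuous_snd.comp (splitL d).continuous

lemma continuous_join : Continuous (fun p : E d × ℝ => join p.1 p.2) := (splitL d).symm.continuous

lemma measurePreserving_splitL : MeasurePreserving (splitL d) volume (volume.prod volume) := by
  have h1 : MeasurePreserving (WithLp.ofLp : E (d + 1) → (Fin (d + 1) → ℝ)) :=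
    PiLp.volume_preserving_ofLp (Fin (d + 1))
  have h2 := volume_preserving_piFinSuccAbove (fun _ : Fin (d + 1) => ℝ) (Fin.last d)
  have h3 : MeasurePreserving (Prod.swap : ℝ × (Fin d → ℝ) → (Fin d → ℝ) × ℝ)
      (volume.prod volume) (volume.prod volume) := Measure.measurePreserving_swap
  have h4 : MeasurePreserving (Prod.map (WithLp.toLp 2 : (Fin d → ℝ) → E d) (id : ℝ → ℝ))
      (volume.prod volume) (volume.prod volume) :=
    (PiLp.volume_preserving_toLp (Fin d)).prod (MeasurePreserving.id volume)
  have h := h4.comp (h3.comp (h2.comp h1))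
  have hfun : (splitL d : E (d + 1) → E d × ℝ) =
      (Prod.map (WithLp.toLp 2 : (Fin d → ℝ) → E d) (id : ℝ → ℝ)) ∘
      ((Prod.swap : ℝ × (Fin d → ℝ) → (Fin d → ℝ) × ℝ) ∘
      (⇑(MeasurableEquiv.piFinSuccAbove (fun _ : Fin (d + 1) => ℝ) (Fin.last d)) ∘
        (WithLp.ofLp : E (d + 1) → (Fin (d + 1) → ℝ)))) := by
    funext x
    refine Prod.ext ?_ ?_
    · ext i
      simp [headCoords, MeasurableEquiv.piFinSuccAbove, Fin.init, Fin.snocEquiv]
    · simp [lastCoord, MeasurableEquiv.piFinSuccAbove, Fin.snocEquiv]
  rw [hfun]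
  exact h

lemma dist_join_sq (y y' : E d) (s s' : ℝ) :
    dist (join y s) (join y' s') ^ 2 = dist y y' ^ 2 + (s - s') ^ 2 := by
  rw [EuclideanSpace.dist_eq, EuclideanSpace.dist_eq, Real.sq_sqrt, Real.sq_sqrt,
    Fin.sum_univ_castSucc]
  · simp [Real.dist_eq, sq_abs]
  · positivity
  · positivity

lemma isometry_join_left (s : ℝ) : Isometry (fun y : E d => join y s) := by
  apply Isometry.of_dist_eq
  intro y y'
  have h := dist_join_sq y y' s s
  rw [sub_self, zero_pow two_ne_zero, add_zero] at h
  exact (pow_left_inj₀ dist_nonneg dist_nonneg two_ne_zero).mp h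

lemma isometry_join_right (y : E d) : Isometry (fun s : ℝ => join y s) := by
  apply Isometry.of_dist_eq
  intro s s'
  have h := dist_join_sq y y s s'
  rw [dist_self, zero_pow two_ne_zero, zero_add] at h
  rw [Real.dist_eq]
  have h2 : dist (join y s) (join y s') ^ 2 = |s - s'| ^ 2 := by rw [h, sq_abs]
  exact (pow_left_inj₀ dist_nonneg (abs_nonneg _) two_ne_zero).mp h2

lemma join_bv_zero (i : Fin d) : join (bv i) 0 = (bv (Fin.castSucc i) : E (d + 1)) := by
  ext j
  refine Fin.lastCases ?_ (fun k => ?_) j
  · simp [Fin.castSucc_ne_last]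
  · simp [Pi.single_apply]

lemma join_zero_one : join (0 : E d) 1 = (bv (Fin.last d) : E (d + 1)) := by
  ext j
  refine Fin.lastCases ?_ (fun k => ?_) j
  · simp
  · simp [Pi.single_apply, Fin.castSucc_ne_last]

lemma hasFDerivAt_join_left (y : E d) (s : ℝ) :
    HasFDerivAt (fun y : E d => join y s)
      (((splitL d).symm : (E d × ℝ) →L[ℝ] E (d + 1)).comp (ContinuousLinearMap.inl ℝ (E d) ℝ)) y := by
  have h1 : HasFDerivAt (fun y : E d => (y, s)) (ContinuousLinearMap.inl ℝ (E d) ℝ) y :=
    hasFDerivAt_prodMk_left y s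
  exact ((splitL d).symm : (E d × ℝ) →L[ℝ] E (d + 1)).hasFDerivAt.comp y h1

lemma hasFDerivAt_join_right (y : E d) (s : ℝ) :
    HasFDerivAt (fun s : ℝ => join y s)
      (((splitL d).symm : (E d × ℝ) →L[ℝ] E (d + 1)).comp (ContinuousLinearMap.inr ℝ (E d) ℝ)) s := by
  have h1 : HasFDerivAt (fun s : ℝ => (y, s)) (ContinuousLinearMap.inr ℝ (E d) ℝ) s :=
    hasFDerivAt_prodMk_right y s
  exact ((splitL d).symm : (E d × ℝ) →L[ℝ] E (d + 1)).hasFDerivAt.comp s h1

section slices

variable {u : E (d + 1) → ℝ}

lemma contDiff_slice_left (hu : ContDiff ℝ 1 u) (s : ℝ) : ContDiff ℝ 1 (fun y : E d => u (join y s)) := by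
  have h1 : ContDiff ℝ 1 (fun y : E d => (splitL d).symm (y, s)) :=
    (splitL d).symm.contDiff.comp (contDiff_id.prodMk contDiff_const)
  exact hu.comp h1

lemma contDiff_slice_right (hu : ContDiff ℝ 1 u) (y : E d) :
    ContDiff ℝ 1 (fun s : ℝ => u (join y s)) := by
  have h1 : ContDiff ℝ 1 (fun s : ℝ => (splitL d).symm (y, s)) :=
    (splitL d).symm.contDiff.comp (contDiff_const.prodMk contDiff_id)
  exact hu.comp h1

lemma hasCompactSupport_slice_left (hc : HasCompactSupport u) (s : ℝ) :
    HasCompactSupport (fun y : E d => u (join y s)) :=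
  hc.comp_isClosedEmbedding (isometry_join_left s).isClosedEmbedding

lemma hasCompactSupport_slice_right (hc : HasCompactSupport u) (y : E d) :
    HasCompactSupport (fun s : ℝ => u (join y s)) :=
  hc.comp_isClosedEmbedding (isometry_join_right y).isClosedEmbedding

lemma fderiv_slice_left (hu : ContDiff ℝ 1 u) (y : E d) (s : ℝ) (i : Fin d) :
    fderiv ℝ (fun y : E d => u (join y s)) y (bv i) =
      fderiv ℝ u (join y s) (bv (Fin.castSucc i)) := by
  have h1 : HasFDerivAt u (fderiv ℝ u (join y s)) (join y s) :=
    (hu.differentiable one_ne_zero _).hasFDerivAt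
  have h2 := h1.comp y (hasFDerivAt_join_left y s)
  have h3 : HasFDerivAt (fun y : E d => u (join y s)) _ y := h2
  rw [h3.fderiv]
  simp only [ContinuousLinearMap.comp_apply, ContinuousLinearMap.inl_apply]
  congr 1
  exact join_bv_zero i

lemma deriv_slice_right (hu : ContDiff ℝ 1 u) (y : E d) (s : ℝ) :
    deriv (fun s : ℝ => u (join y s)) s = fderiv ℝ u (join y s) (bv (Fin.last d)) := by
  have h1 : HasFDerivAt u (fderiv ℝ u (join y s)) (join y s) :=
    (hu.differentiable one_ne_zero _).hasFDerivAt
  have h2 := h1.comp s (hasFDerivAt_join_right y s)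
  have h3 : HasFDerivAt (fun s : ℝ => u (join y s)) _ s := h2
  rw [← fderiv_apply_one_eq_deriv, h3.fderiv]
  simp only [ContinuousLinearMap.comp_apply, ContinuousLinearMap.inr_apply]
  congr 1
  exact join_zero_one

end slices

end Pool.Agent.Helper46.Robin
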