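import Pool.Agent.Helper46.RobinB

open MeasureTheory Set Filter Topology
open scoped ENNReal NNReal ContDiff

namespace Pool.Agent.Helper46.Robin

variable {d : ℕ}

lemma hasCompactSupport_graph {F : Type*} [Zero F] {u : E (d + 1) → F} (hc : HasCompactSupport u)
    (f : E d → ℝ) : HasCompactSupport (fun y : E d => u (join y (f y))) := by
  have hK : IsCompact (headCoords '' tsupport u) := hc.isCompact.image continuous_init
  apply HasCompactSupport.intro hK
  intro y hy
  by_contra hne
  apply hy
  refine ⟨join y (f y), subset_tsupport _ hne, by simp⟩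

lemma isOpen_epi {f : E d → ℝ} (hf : Continuous f) : IsOpen (epi f) :=
  isOpen_lt (hf.comp continuous_init) continuous_last

/-- Change of variables. -/
lemma setIntegral_epi {f : E d → ℝ} (F : E (d + 1) → ℝ) :
    ∫ x in epi f, F x = ∫ p in {p : E d × ℝ | f p.1 < p.2}, F (join p.1 p.2) ∂(volume.prod volume) := by
  have hemb : MeasurableEmbedding (splitL d) :=
    (splitL d).toHomeomorph.measurableEmbedding
  have h := (measurePreserving_splitL (d := d)).setIntegral_preimage_emb hemb
    (fun p : E d × ℝ => F (join p.1 p.2)) {p : E d × ℝ | f p.1 < p.2}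
  rw [← h]
  simp [epi]

section main

variable {f : E d → ℝ} {R h β γ κ : ℝ} {u : E (d + 1) → ℝ}

lemma main_real (hd : 3 ≤ d) (hR : 0 < R) (hf : Continuous f) (hfh : ∀ y, |f y| ≤ h)
    (hβ : 0 < β) (hγ : γ ^ 2 = β ^ 2 + 3 / (4 * R ^ 2))
    (hκ : β * κ ≤ γ - 3 / (4 * R ^ 2) * (2 * h)) (hκ0 : 0 ≤ κ)
    (hu : ContDiff ℝ 1 u) (hc : HasCompactSupport u) :
    β * (∫ y, (Metric.ball (0 : E d) R).indicator (fun y => κ * u (join y (f y)) ^ 2) y +
      (Metric.ball (0 : E d) R)ᶜ.indicator (fun y => u (join y (f y)) ^ 2) y) ≤
      ∫ x in epi f, ((∑ i, (fderiv ℝ u x (bv i)) ^ 2) + β ^ 2 * u x ^ 2) := by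
  set c : ℝ := 3 / (4 * R ^ 2) with hcdef
  have hc0 : 0 ≤ c := by positivity
  have hh0 : 0 ≤ h := (abs_nonneg _).trans (hfh 0)
  rw [setIntegral_epi]
  let A : E d × ℝ → ℝ := fun p => (fderiv ℝ u (join p.1 p.2) (bv (Fin.last d))) ^ 2 +
    β ^ 2 * u (join p.1 p.2) ^ 2
  let B : E d × ℝ → ℝ := fun p => ∑ i : Fin d, (fderiv ℝ u (join p.1 p.2) (bv (Fin.castSucc i))) ^ 2
  let S : Set (E d × ℝ) := {p | f p.1 < p.2}
  let T : Set (E d × ℝ) := {p | h < p.2}
  let D : E d × ℝ → ℝ := (Metric.ball (0 : E d) R ×ˢ Ioi h).indicator
    (fun p => c * u (join p.1 p.2) ^ 2)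
  have hAB : ∀ p : E d × ℝ, (∑ i, (fderiv ℝ u (join p.1 p.2) (bv i)) ^ 2) +
      β ^ 2 * u (join p.1 p.2) ^ 2 = A p + B p := by
    intro p
    show _ = ((fderiv ℝ u (join p.1 p.2) (bv (Fin.last d))) ^ 2 +
      β ^ 2 * u (join p.1 p.2) ^ 2) +
      ∑ i : Fin d, (fderiv ℝ u (join p.1 p.2) (bv (Fin.castSucc i))) ^ 2
    rw [Fin.sum_univ_castSucc]
    ring
  -- continuity and compact support
  have hcemb : ∀ {F : E (d + 1) → ℝ}, HasCompactSupport F →
      HasCompactSupport (fun p : E d × ℝ => F (join p.1 p.2)) := by
    intro F hF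
    exact hF.comp_homeomorph (splitL d).symm.toHomeomorph
  have hucont : Continuous (fun p : E d × ℝ => u (join p.1 p.2)) := hu.continuous.comp continuous_join
  have hdcont : ∀ v : E (d + 1), Continuous (fun p : E d × ℝ => fderiv ℝ u (join p.1 p.2) v) := by
    intro v
    have h1 : Continuous (fun x => fderiv ℝ u x v) :=
      (hu.continuous_fderiv_apply one_ne_zero).comp (continuous_id.prodMk continuous_const)
    exact h1.comp continuous_join
  have hucs : HasCompactSupport (fun p : E d × ℝ => u (join p.1 p.2)) := hcemb hc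
  have hdcs : ∀ v : E (d + 1), HasCompactSupport (fun p : E d × ℝ => fderiv ℝ u (join p.1 p.2) v) :=
    fun v => hcemb (hc.fderiv_apply ℝ v)
  have hsqint : ∀ {G : E d × ℝ → ℝ}, Continuous G → HasCompactSupport G →
      Integrable (fun p => G p ^ 2) (volume.prod volume) := by
    intro G h1 h2
    have h3 : (fun p => G p ^ 2) = fun p => G p * G p := by ext p; ring
    rw [h3]
    exact (h1.mul h1).integrable_of_hasCompactSupport h2.mul_left
  have hAint : Integrable A (volume.prod volume) :=
    (hsqint (hdcont _) (hdcs _)).add ((hsqint hucont hucs).const_mul (β ^ 2))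
  have hBint : Integrable B (volume.prod volume) :=
    integrable_finsetSum _ (fun i _ => hsqint (hdcont _) (hdcs _))
  have hUint : Integrable (fun p : E d × ℝ => c * u (join p.1 p.2) ^ 2) (volume.prod volume) :=
    (hsqint hucont hucs).const_mul c
  have hSm : MeasurableSet S := (isOpen_lt (hf.comp continuous_fst) continuous_snd).measurableSet
  have hTm : MeasurableSet T := (isOpen_lt continuous_const continuous_snd).measurableSet
  have hTS : T ⊆ S := by
    intro p hp
    have h1 : f p.1 ≤ h := (le_abs_self _).trans (hfh p.1)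
    exact lt_of_le_of_lt h1 hp
  have hDm : MeasurableSet (Metric.ball (0 : E d) R ×ˢ Ioi h) :=
    Metric.isOpen_ball.measurableSet.prod measurableSet_Ioi
  have hDint : Integrable D (volume.prod volume) := hUint.indicator hDm
  -- step 1: split
  have e1 : ∫ p in S, ((∑ i, (fderiv ℝ u (join p.1 p.2) (bv i)) ^ 2) +
      β ^ 2 * u (join p.1 p.2) ^ 2) ∂(volume.prod volume) =
      (∫ p in S, A p ∂(volume.prod volume)) + ∫ p in S, B p ∂(volume.prod volume) := by
    simp_rw [hAB]
    exact integral_add hAint.integrableOn hBint.integrableOn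
  have e2 : ∫ p in T, B p ∂(volume.prod volume) ≤ ∫ p in S, B p ∂(volume.prod volume) := by
    apply setIntegral_mono_set hBint.integrableOn
    · filter_upwards with p
      exact Finset.sum_nonneg (fun i _ => sq_nonneg _)
    · exact hTS.eventuallyLE
  -- step 2: Hardy on horizontal slices
  have e3 : ∫ p, D p ∂(volume.prod volume) ≤ ∫ p in T, B p ∂(volume.prod volume) := by
    have hTB : Integrable (T.indicator B) (volume.prod volume) := hBint.indicator hTm
    rw [← integral_indicator hTm, integral_prod_symm _ hDint, integral_prod_symm _ hTB]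
    apply integral_mono hDint.integral_prod_right hTB.integral_prod_right
    intro s
    show ∫ y, D (y, s) ≤ ∫ y, T.indicator B (y, s)
    by_cases hs : h < s
    · have e4 : ∀ y, D (y, s) = (Metric.ball (0 : E d) R).indicator (fun y => c * u (join y s) ^ 2) y := by
        intro y
        show (Metric.ball (0 : E d) R ×ˢ Ioi h).indicator (fun p => c * u (join p.1 p.2) ^ 2) (y, s) = _
        by_cases hy : y ∈ Metric.ball (0 : E d) R
        · rw [indicator_of_mem (show (y, s) ∈ Metric.ball (0 : E d) R ×ˢ Ioi h from ⟨hy, hs⟩),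
            indicator_of_mem hy]
        · rw [indicator_of_notMem (fun hmem => hy hmem.1), indicator_of_notMem hy]
      have e5 : ∀ y, T.indicator B (y, s) = ∑ i, (fderiv ℝ (fun y => u (join y s)) y (bv i)) ^ 2 := by
        intro y
        rw [indicator_of_mem (show (y, s) ∈ T from hs)]
        show ∑ i : Fin d, (fderiv ℝ u (join y s) (bv (Fin.castSucc i))) ^ 2 = _
        exact Finset.sum_congr rfl (fun i _ => by rw [fderiv_slice_left hu])
      simp_rw [e4, e5]
      rw [integral_indicator Metric.isOpen_ball.measurableSet, integral_const_mul]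
      exact hardy hd hR (contDiff_slice_left hu s) (hasCompactSupport_slice_left hc s)
    · have e4 : ∀ y, D (y, s) = 0 := by
        intro y
        exact indicator_of_notMem (fun hmem => hs hmem.2) _
      have e5 : ∀ y, T.indicator B (y, s) = 0 := by
        intro y
        exact indicator_of_notMem (show (y, s) ∉ T from hs) _
      simp_rw [e4, e5]
      exact le_rfl
  -- step 3: vertical one-dimensional inequality
  have e6 : β * (∫ y, (Metric.ball (0 : E d) R).indicator (fun y => κ * u (join y (f y)) ^ 2) y +
      (Metric.ball (0 : E d) R)ᶜ.indicator (fun y => u (join y (f y)) ^ 2) y) ≤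
      (∫ p in S, A p ∂(volume.prod volume)) + ∫ p, D p ∂(volume.prod volume) := by
    have hSA : Integrable (S.indicator A) (volume.prod volume) := hAint.indicator hSm
    rw [← integral_indicator hSm, integral_prod _ hSA, integral_prod _ hDint,
      ← integral_add hSA.integral_prod_left hDint.integral_prod_left, ← integral_const_mul]
    apply integral_mono_of_nonneg
    · filter_upwards with y
      simp only [Pi.zero_apply]
      have h1 : 0 ≤ (Metric.ball (0 : E d) R).indicator (fun y => κ * u (join y (f y)) ^ 2) y :=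
        indicator_nonneg (fun y _ => mul_nonneg hκ0 (sq_nonneg _)) y
      have h2 : 0 ≤ (Metric.ball (0 : E d) R)ᶜ.indicator (fun y => u (join y (f y)) ^ 2) y :=
        indicator_nonneg (fun y _ => sq_nonneg _) y
      positivity
    · exact hSA.integral_prod_left.add hDint.integral_prod_left
    · filter_upwards with y
      have e7 : ∫ s, S.indicator A (y, s) = ∫ s in Ioi (f y),
          ((deriv (fun s => u (join y s)) s) ^ 2 + β ^ 2 * (u (join y s)) ^ 2) := by
        rw [← integral_indicator measurableSet_Ioi]
        congr 1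
        ext s
        by_cases hs : f y < s
        · rw [indicator_of_mem (show (y, s) ∈ S from hs), indicator_of_mem (show s ∈ Ioi (f y) from hs),
            deriv_slice_right hu]
        · rw [indicator_of_notMem (show (y, s) ∉ S from hs),
            indicator_of_notMem (show s ∉ Ioi (f y) from hs)]
      rw [e7]
      by_cases hy : y ∈ Metric.ball (0 : E d) R
      · have e8 : ∫ s, D (y, s) = c * ∫ s in Ioi h, (u (join y s)) ^ 2 := by
          rw [← integral_const_mul, ← integral_indicator measurableSet_Ioi]
          congr 1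
          ext s
          show (Metric.ball (0 : E d) R ×ˢ Ioi h).indicator
            (fun p => c * u (join p.1 p.2) ^ 2) (y, s) = _
          by_cases hs : h < s
          · rw [indicator_of_mem (show (y, s) ∈ Metric.ball (0 : E d) R ×ˢ Ioi h from ⟨hy, hs⟩),
              indicator_of_mem (show s ∈ Ioi h from hs)]
          · rw [indicator_of_notMem (fun hmem => hs hmem.2),
              indicator_of_notMem (show s ∉ Ioi h from hs)]
        have hy' : y ∉ (Metric.ball (0 : E d) R)ᶜ := fun hcon => hcon hy
        rw [e8, indicator_of_mem hy, indicator_of_notMem hy', add_zero]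
        have hfy := abs_le.mp (hfh y)
        have hfle : c * (h - f y) ≤ c * (2 * h) := by
          apply mul_le_mul_of_nonneg_left _ hc0
          linarith
        have h1 := halfline_ineq_extra (contDiff_slice_right hu y) (hasCompactSupport_slice_right hc y)
          (a := f y) (b := h) (β := β) (c := c) (γ := γ) (by linarith) hγ hc0
          (by
            have : 0 ≤ β * κ := mul_nonneg hβ.le hκ0
            linarith)
        refine le_trans ?_ h1
        have h2 : β * κ ≤ γ - c * (h - f y) := by linarith
        have h3 := mul_le_mul_of_nonneg_right h2 (sq_nonneg (u (join y (f y))))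
        linarith
      · have hy' : y ∈ (Metric.ball (0 : E d) R)ᶜ := hy
        have e8 : ∫ s, D (y, s) = 0 := by
          have : ∀ s, D (y, s) = 0 := by
            intro s
            exact indicator_of_notMem (fun hmem => hy hmem.1) _
          simp_rw [this]
          simp
        rw [e8, indicator_of_notMem hy, indicator_of_mem hy', zero_add, add_zero]
        exact halfline_ineq (contDiff_slice_right hu y) (hasCompactSupport_slice_right hc y) (f y) β
  calc _ ≤ _ := e6
    _ ≤ (∫ p in S, A p ∂(volume.prod volume)) + ∫ p in S, B p ∂(volume.prod volume) := by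
        linarith
    _ = _ := e1.symm

/-- Trace inequality with a free parameter. -/
lemma trace_real (hf : Continuous f) (hu : ContDiff ℝ 1 u) (hc : HasCompactSupport u)
    (hγ : 0 ≤ γ) :
    γ * (∫ y, u (join y (f y)) ^ 2) ≤
      ∫ x in epi f, ((∑ i, (fderiv ℝ u x (bv i)) ^ 2) + γ ^ 2 * u x ^ 2) := by
  rw [setIntegral_epi]
  let A : E d × ℝ → ℝ := fun p => (fderiv ℝ u (join p.1 p.2) (bv (Fin.last d))) ^ 2 +
    γ ^ 2 * u (join p.1 p.2) ^ 2
  let B : E d × ℝ → ℝ := fun p => ∑ i : Fin d, (fderiv ℝ u (join p.1 p.2) (bv (Fin.castSucc i))) ^ 2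
  let S : Set (E d × ℝ) := {p | f p.1 < p.2}
  have hAB : ∀ p : E d × ℝ, (∑ i, (fderiv ℝ u (join p.1 p.2) (bv i)) ^ 2) +
      γ ^ 2 * u (join p.1 p.2) ^ 2 = A p + B p := by
    intro p
    show _ = ((fderiv ℝ u (join p.1 p.2) (bv (Fin.last d))) ^ 2 +
      γ ^ 2 * u (join p.1 p.2) ^ 2) +
      ∑ i : Fin d, (fderiv ℝ u (join p.1 p.2) (bv (Fin.castSucc i))) ^ 2
    rw [Fin.sum_univ_castSucc]
    ring
  have hcemb : ∀ {F : E (d + 1) → ℝ}, HasCompactSupport F →
      HasCompactSupport (fun p : E d × ℝ => F (join p.1 p.2)) := by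
    intro F hF
    exact hF.comp_homeomorph (splitL d).symm.toHomeomorph
  have hucont : Continuous (fun p : E d × ℝ => u (join p.1 p.2)) := hu.continuous.comp continuous_join
  have hdcont : ∀ v : E (d + 1), Continuous (fun p : E d × ℝ => fderiv ℝ u (join p.1 p.2) v) := by
    intro v
    have h1 : Continuous (fun x => fderiv ℝ u x v) :=
      (hu.continuous_fderiv_apply one_ne_zero).comp (continuous_id.prodMk continuous_const)
    exact h1.comp continuous_join
  have hucs : HasCompactSupport (fun p : E d × ℝ => u (join p.1 p.2)) := hcemb hc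
  have hdcs : ∀ v : E (d + 1), HasCompactSupport (fun p : E d × ℝ => fderiv ℝ u (join p.1 p.2) v) :=
    fun v => hcemb (hc.fderiv_apply ℝ v)
  have hsqint : ∀ {G : E d × ℝ → ℝ}, Continuous G → HasCompactSupport G →
      Integrable (fun p => G p ^ 2) (volume.prod volume) := by
    intro G h1 h2
    have h3 : (fun p => G p ^ 2) = fun p => G p * G p := by ext p; ring
    rw [h3]
    exact (h1.mul h1).integrable_of_hasCompactSupport h2.mul_left
  have hAint : Integrable A (volume.prod volume) :=
    (hsqint (hdcont _) (hdcs _)).add ((hsqint hucont hucs).const_mul (γ ^ 2))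
  have hBint : Integrable B (volume.prod volume) :=
    integrable_finsetSum _ (fun i _ => hsqint (hdcont _) (hdcs _))
  have hSm : MeasurableSet S := (isOpen_lt (hf.comp continuous_fst) continuous_snd).measurableSet
  have e1 : ∫ p in S, ((∑ i, (fderiv ℝ u (join p.1 p.2) (bv i)) ^ 2) +
      γ ^ 2 * u (join p.1 p.2) ^ 2) ∂(volume.prod volume) =
      (∫ p in S, A p ∂(volume.prod volume)) + ∫ p in S, B p ∂(volume.prod volume) := by
    simp_rw [hAB]
    exact integral_add hAint.integrableOn hBint.integrableOn
  have e2 : 0 ≤ ∫ p in S, B p ∂(volume.prod volume) :=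
    integral_nonneg (fun p => Finset.sum_nonneg (fun i _ => sq_nonneg _))
  have e3 : γ * (∫ y, u (join y (f y)) ^ 2) ≤ ∫ p in S, A p ∂(volume.prod volume) := by
    have hSA : Integrable (S.indicator A) (volume.prod volume) := hAint.indicator hSm
    rw [← integral_indicator hSm, integral_prod _ hSA, ← integral_const_mul]
    apply integral_mono_of_nonneg
    · filter_upwards with y
      simp only [Pi.zero_apply]
      positivity
    · exact hSA.integral_prod_left
    · filter_upwards with y
      have e7 : ∫ s, S.indicator A (y, s) = ∫ s in Ioi (f y),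
          ((deriv (fun s => u (join y s)) s) ^ 2 + γ ^ 2 * (u (join y s)) ^ 2) := by
        rw [← integral_indicator measurableSet_Ioi]
        congr 1
        ext s
        by_cases hs : f y < s
        · rw [indicator_of_mem (show (y, s) ∈ S from hs), indicator_of_mem (show s ∈ Ioi (f y) from hs),
            deriv_slice_right hu]
        · rw [indicator_of_notMem (show (y, s) ∉ S from hs),
            indicator_of_notMem (show s ∉ Ioi (f y) from hs)]
      rw [e7]
      exact halfline_ineq (contDiff_slice_right hu y) (hasCompactSupport_slice_right hc y) (f y) γ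
  calc _ ≤ _ := e3
    _ ≤ (∫ p in S, A p ∂(volume.prod volume)) + ∫ p in S, B p ∂(volume.prod volume) := by
        linarith
    _ = _ := e1.symm

end main

end Pool.Agent.Helper46.Robin
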