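import Pool.Agent.Helper46.RobinC

open MeasureTheory Set Filter Topology
open scoped ENNReal NNReal ContDiff

namespace Pool.Agent.Helper46.Robin

variable {d : ℕ} {f : E d → ℝ} {R : ℝ}

/-- The graph map. -/
noncomputable def gr (f : E d → ℝ) (y : E d) : E (d + 1) := join y (f y)

lemma continuous_gr (hf : Continuous f) : Continuous (gr f) :=
  continuous_join.comp (continuous_id.prodMk hf)

lemma lipschitz_gr {L K : ℝ≥0} (hf : LipschitzWith L f) (hK : 1 + L ^ 2 ≤ K ^ 2) :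
    LipschitzWith K (gr f) := by
  apply LipschitzWith.of_dist_le_mul
  intro y y'
  have h1 := dist_join_sq y y' (f y) (f y')
  have h2 : (f y - f y') ^ 2 ≤ (L * dist y y') ^ 2 := by
    rw [← sq_abs, ← Real.dist_eq]
    exact pow_le_pow_left₀ dist_nonneg (hf.dist_le_mul y y') 2
  have hK' : (1 : ℝ) + (L : ℝ) ^ 2 ≤ (K : ℝ) ^ 2 := by exact_mod_cast hK
  have h3 : dist (gr f y) (gr f y') ^ 2 ≤ (K * dist y y') ^ 2 := by
    show dist (join y (f y)) (join y' (f y')) ^ 2 ≤ _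
    rw [h1]
    nlinarith [sq_nonneg (dist y y')]
  exact (pow_le_pow_iff_left₀ dist_nonneg (by positivity) two_ne_zero).mp h3

lemma frontier_epi_subset (hf : Continuous f) : frontier (epi f) ⊆ range (gr f) := by
  intro x hx
  have h1 : f (headCoords x) = lastCoord x :=
    frontier_lt_subset_eq (hf.comp continuous_init) continuous_last hx
  refine ⟨headCoords x, ?_⟩
  show join (headCoords x) (f (headCoords x)) = x
  rw [h1]
  simp

lemma surf_le {L K : ℝ≥0} (hf : LipschitzWith L f) (hK : 1 + L ^ 2 ≤ K ^ 2)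
    (hf0 : ∀ y, R ≤ ‖y‖ → f y = 0) :
    surf (epi f) ≤ Measure.map (gr f) (volume.restrict (Metric.ball (0 : E d) R)ᶜ +
      ((K ^ d : ℝ≥0) : ℝ≥0∞) • volume.restrict (Metric.ball (0 : E d) R)) := by
  have hgm : Measurable (gr f) := (continuous_gr hf.continuous).measurable
  rw [Measure.le_iff]
  intro A hA
  rw [Measure.map_apply hgm hA, surf, Measure.restrict_apply hA, Measure.add_apply,
    Measure.smul_apply, Measure.restrict_apply (hgm hA), Measure.restrict_apply (hgm hA)]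
  set P := gr f ⁻¹' A ∩ (Metric.ball (0 : E d) R)ᶜ
  set Q := gr f ⁻¹' A ∩ Metric.ball (0 : E d) R
  have hsub : A ∩ frontier (epi f) ⊆ (fun y : E d => join y 0) '' P ∪ gr f '' Q := by
    rintro x ⟨hxA, hx⟩
    obtain ⟨y, rfl⟩ := frontier_epi_subset hf.continuous hx
    by_cases hy : y ∈ Metric.ball (0 : E d) R
    · right
      exact ⟨y, ⟨hxA, hy⟩, rfl⟩
    · left
      refine ⟨y, ⟨hxA, hy⟩, ?_⟩
      have hy' : R ≤ ‖y‖ := by
        rw [Metric.mem_ball, dist_zero_right, not_lt] at hy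
        exact hy
      show join y 0 = join y (f y)
      rw [hf0 y hy']
  calc (Measure.euclideanHausdorffMeasure d) (A ∩ frontier (epi f))
      ≤ (Measure.euclideanHausdorffMeasure d) ((fun y : E d => join y 0) '' P ∪ gr f '' Q) :=
        measure_mono hsub
    _ ≤ (Measure.euclideanHausdorffMeasure d) ((fun y : E d => join y 0) '' P) +
        (Measure.euclideanHausdorffMeasure d) (gr f '' Q) := measure_union_le _ _
    _ ≤ volume P + ((K ^ d : ℝ≥0) : ℝ≥0∞) • volume Q := by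
        apply add_le_add
        · rw [(isometry_join_left 0).euclideanHausdorffMeasure_image,
            EuclideanSpace.euclideanHausdorffMeasure_eq_volume]
        · rw [← EuclideanSpace.euclideanHausdorffMeasure_eq_volume]
          have h1 := ((lipschitz_gr hf hK).lipschitzOnWith (s := Q)).hausdorffMeasure_image_le
            (d := (d : ℝ)) (by positivity)
          rw [Measure.euclideanHausdorffMeasure_def, Measure.euclideanHausdorffMeasure_def,
            Measure.smul_apply, Measure.smul_apply]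
          simp only [ENNReal.smul_def, smul_eq_mul]
          calc ((Measure.addHaarScalarFactor (volume : Measure (E d)) (Measure.hausdorffMeasure (d : ℝ)) :
                ℝ≥0) : ℝ≥0∞) * (Measure.hausdorffMeasure (d : ℝ)) (gr f '' Q)
              ≤ ((Measure.addHaarScalarFactor (volume : Measure (E d))
                (Measure.hausdorffMeasure (d : ℝ)) : ℝ≥0) : ℝ≥0∞) *
                ((K : ℝ≥0∞) ^ (d : ℝ) * (Measure.hausdorffMeasure (d : ℝ)) Q) := by
                gcongr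
            _ = _ := by
                rw [ENNReal.rpow_natCast]
                push_cast
                ring


lemma integrable_graph {ψ : E (d + 1) → ℝ} (hf : Continuous f) (hψ : Continuous ψ)
    (hc : HasCompactSupport ψ) : Integrable (fun y => ψ (gr f y)) :=
  (hψ.comp (continuous_gr hf)).integrable_of_hasCompactSupport (hasCompactSupport_graph hc f)

lemma integrable_surf_bound {K : ℝ≥0} {ψ : E (d + 1) → ℝ} (hf : Continuous f)
    (hψ : Continuous ψ) (hc : HasCompactSupport ψ) :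
    Integrable ψ (Measure.map (gr f) (volume.restrict (Metric.ball (0 : E d) R)ᶜ +
      ((K ^ d : ℝ≥0) : ℝ≥0∞) • volume.restrict (Metric.ball (0 : E d) R))) := by
  have hgm : Measurable (gr f) := (continuous_gr hf).measurable
  rw [integrable_map_measure hψ.aestronglyMeasurable hgm.aemeasurable]
  have hint := integrable_graph hf hψ hc
  have i1 : Integrable (ψ ∘ gr f) (volume.restrict (Metric.ball (0 : E d) R)ᶜ) :=
    hint.integrableOn
  have i2 : Integrable (ψ ∘ gr f) (volume.restrict (Metric.ball (0 : E d) R)) :=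
    hint.integrableOn
  exact i1.add_measure (i2.smul_measure ENNReal.coe_ne_top)

lemma integrable_surf {L K : ℝ≥0} (hf : LipschitzWith L f) (hK : 1 + L ^ 2 ≤ K ^ 2)
    (hf0 : ∀ y, R ≤ ‖y‖ → f y = 0) {ψ : E (d + 1) → ℝ} (hψ : Continuous ψ)
    (hc : HasCompactSupport ψ) : Integrable ψ (surf (epi f)) :=
  (integrable_surf_bound (R := R) (K := K) hf.continuous hψ hc).mono_measure (surf_le hf hK hf0)

lemma surf_integral_le {L K : ℝ≥0} (hf : LipschitzWith L f) (hK : 1 + L ^ 2 ≤ K ^ 2)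
    (hf0 : ∀ y, R ≤ ‖y‖ → f y = 0) {ψ : E (d + 1) → ℝ} (hψ : Continuous ψ)
    (hc : HasCompactSupport ψ) (h0 : ∀ x, 0 ≤ ψ x) :
    ∫ x, ψ x ∂(surf (epi f)) ≤
      ∫ y, (Metric.ball (0 : E d) R).indicator (fun y => (K : ℝ) ^ d * ψ (join y (f y))) y +
      (Metric.ball (0 : E d) R)ᶜ.indicator (fun y => ψ (join y (f y))) y := by
  have hgm : Measurable (gr f) := (continuous_gr hf.continuous).measurable
  have hint := integrable_graph hf.continuous hψ hc
  have hB : MeasurableSet (Metric.ball (0 : E d) R) := Metric.isOpen_ball.measurableSet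
  have h1 := integral_mono_measure (surf_le hf hK hf0) (ae_of_all _ h0)
    (integrable_surf_bound (R := R) (K := K) hf.continuous hψ hc)
  refine h1.trans (le_of_eq ?_)
  rw [integral_map hgm.aemeasurable hψ.aestronglyMeasurable,
    integral_add_measure hint.integrableOn ((hint.integrableOn).smul_measure ENNReal.coe_ne_top),
    integral_smul_measure]
  have i1 : Integrable ((Metric.ball (0 : E d) R).indicator
      (fun y => (K : ℝ) ^ d * ψ (join y (f y)))) := (hint.const_mul _).indicator hB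
  have i2 : Integrable ((Metric.ball (0 : E d) R)ᶜ.indicator
      (fun y => ψ (join y (f y)))) := hint.indicator hB.compl
  rw [integral_add i1 i2, integral_indicator hB, integral_indicator hB.compl,
    integral_const_mul, ENNReal.coe_toReal, add_comm]
  simp [gr]

section real

variable {h β γ : ℝ} {u : E (d + 1) → ℝ} {L K : ℝ≥0}

lemma hasCompactSupport_sq {n : ℕ} {u : E n → ℝ} (hc : HasCompactSupport u) :
    HasCompactSupport (fun x => u x ^ 2) := by
  have h3 : (fun p => u p ^ 2) = fun p => u p * u p := by ext p; ring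
  rw [h3]
  exact hc.mul_left

lemma surf_real (hd : 3 ≤ d) (hR : 0 < R) (hf : LipschitzWith L f) (hK : 1 + L ^ 2 ≤ K ^ 2)
    (hf0 : ∀ y, R ≤ ‖y‖ → f y = 0) (hfh : ∀ y, |f y| ≤ h)
    (hβ : 0 < β) (hγ : γ ^ 2 = β ^ 2 + 3 / (4 * R ^ 2))
    (hκ : β * (K : ℝ) ^ d ≤ γ - 3 / (4 * R ^ 2) * (2 * h))
    (hu : ContDiff ℝ 1 u) (hc : HasCompactSupport u) :
    β * (∫ x, u x ^ 2 ∂(surf (epi f))) ≤
      ∫ x in epi f, ((∑ i, (fderiv ℝ u x (bv i)) ^ 2) + β ^ 2 * u x ^ 2) := by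
  have h1 := surf_integral_le hf hK hf0 (ψ := fun x => u x ^ 2) (hu.continuous.pow 2)
    (hasCompactSupport_sq hc) (fun x => sq_nonneg _)
  have h2 := main_real hd hR hf.continuous hfh hβ hγ hκ (by positivity) hu hc
  exact (mul_le_mul_of_nonneg_left h1 hβ.le).trans h2

lemma surf_trace_real (hf : LipschitzWith L f) (hK : 1 + L ^ 2 ≤ K ^ 2)
    (hf0 : ∀ y, R ≤ ‖y‖ → f y = 0) (hγ : 0 ≤ γ)
    (hu : ContDiff ℝ 1 u) (hc : HasCompactSupport u) :
    γ * (∫ x, u x ^ 2 ∂(surf (epi f))) ≤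
      (K : ℝ) ^ d * ∫ x in epi f, ((∑ i, (fderiv ℝ u x (bv i)) ^ 2) + γ ^ 2 * u x ^ 2) := by
  have h1 := surf_integral_le hf hK hf0 (ψ := fun x => u x ^ 2) (hu.continuous.pow 2)
    (hasCompactSupport_sq hc) (fun x => sq_nonneg _)
  have h2 := trace_real hf.continuous hu hc hγ
  have hK1 : 1 ≤ (K : ℝ) ^ d := by
    apply one_le_pow₀
    have : (1 : ℝ) ^ 2 ≤ (K : ℝ) ^ 2 := by
      have hK' : (1 : ℝ) + (L : ℝ) ^ 2 ≤ (K : ℝ) ^ 2 := by exact_mod_cast hK
      nlinarith [sq_nonneg (L : ℝ)]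
    exact (pow_le_pow_iff_left₀ zero_le_one K.coe_nonneg two_ne_zero).mp this
  have hint := integrable_graph hf.continuous (ψ := fun x => u x ^ 2) (hu.continuous.pow 2)
    (hasCompactSupport_sq hc)
  have hB : MeasurableSet (Metric.ball (0 : E d) R) := Metric.isOpen_ball.measurableSet
  have h3 : ∫ y, (Metric.ball (0 : E d) R).indicator (fun y => (K : ℝ) ^ d * u (join y (f y)) ^ 2) y +
      (Metric.ball (0 : E d) R)ᶜ.indicator (fun y => u (join y (f y)) ^ 2) y ≤
      (K : ℝ) ^ d * ∫ y, u (join y (f y)) ^ 2 := by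
    rw [← integral_const_mul]
    apply integral_mono_of_nonneg
    · filter_upwards with y
      simp only [Pi.zero_apply]
      have h1 : 0 ≤ (Metric.ball (0 : E d) R).indicator
          (fun y => (K : ℝ) ^ d * u (join y (f y)) ^ 2) y :=
        indicator_nonneg (fun y _ => by positivity) y
      have h2 : 0 ≤ (Metric.ball (0 : E d) R)ᶜ.indicator (fun y => u (join y (f y)) ^ 2) y :=
        indicator_nonneg (fun y _ => sq_nonneg _) y
      positivity
    · exact hint.const_mul _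
    · filter_upwards with y
      by_cases hy : y ∈ Metric.ball (0 : E d) R
      · have hy' : y ∉ (Metric.ball (0 : E d) R)ᶜ := fun hcon => hcon hy
        rw [indicator_of_mem hy, indicator_of_notMem hy', add_zero]
      · have hy' : y ∈ (Metric.ball (0 : E d) R)ᶜ := hy
        rw [indicator_of_notMem hy, indicator_of_mem hy', zero_add]
        nlinarith [sq_nonneg (u (join y (f y)))]
  calc γ * (∫ x, u x ^ 2 ∂(surf (epi f))) ≤ γ * ((K : ℝ) ^ d * ∫ y, u (join y (f y)) ^ 2) :=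
        mul_le_mul_of_nonneg_left (h1.trans h3) hγ
    _ = (K : ℝ) ^ d * (γ * ∫ y, u (join y (f y)) ^ 2) := by ring
    _ ≤ _ := mul_le_mul_of_nonneg_left h2 (by positivity)

end real

section complex

variable {h β γ : ℝ} {φ : E (d + 1) → ℂ} {L K : ℝ≥0}

lemma IsTest.re {n : ℕ} {φ : E n → ℂ} (hφ : IsTest φ) :
    ContDiff ℝ 1 (fun x => (φ x).re) ∧ HasCompactSupport (fun x => (φ x).re) := by
  refine ⟨Complex.reCLM.contDiff.comp (hφ.1.of_le (by simp)), ?_⟩
  exact hφ.2.comp_left (g := Complex.re) Complex.zero_re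

lemma IsTest.im {n : ℕ} {φ : E n → ℂ} (hφ : IsTest φ) :
    ContDiff ℝ 1 (fun x => (φ x).im) ∧ HasCompactSupport (fun x => (φ x).im) := by
  refine ⟨Complex.imCLM.contDiff.comp (hφ.1.of_le (by simp)), ?_⟩
  exact hφ.2.comp_left (g := Complex.im) Complex.zero_im

lemma IsTest.differentiable {n : ℕ} {φ : E n → ℂ} (hφ : IsTest φ) : Differentiable ℝ φ :=
  hφ.1.differentiable (by simp)

lemma fderiv_re {n : ℕ} {φ : E n → ℂ} (hφ : IsTest φ) (x : E n) (i : Fin n) :
    fderiv ℝ (fun x => (φ x).re) x (bv i) = (pd i φ x).re := by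
  have h1 := Complex.reCLM.hasFDerivAt.comp x (hφ.differentiable x).hasFDerivAt
  have h2 : HasFDerivAt (fun x => (φ x).re) _ x := h1
  rw [h2.fderiv]
  rfl

lemma fderiv_im {n : ℕ} {φ : E n → ℂ} (hφ : IsTest φ) (x : E n) (i : Fin n) :
    fderiv ℝ (fun x => (φ x).im) x (bv i) = (pd i φ x).im := by
  have h1 := Complex.imCLM.hasFDerivAt.comp x (hφ.differentiable x).hasFDerivAt
  have h2 : HasFDerivAt (fun x => (φ x).im) _ x := h1
  rw [h2.fderiv]
  rfl

lemma norm_grad_sq {n : ℕ} (φ : E n → ℂ) (x : E n) :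
    ‖grad φ x‖ ^ 2 = ∑ i, ‖pd i φ x‖ ^ 2 := by
  rw [EuclideanSpace.norm_sq_eq]
  rfl

lemma norm_sq_re_im (z : ℂ) : ‖z‖ ^ 2 = z.re ^ 2 + z.im ^ 2 := by
  rw [← Complex.normSq_eq_norm_sq, Complex.normSq_apply]
  ring

lemma IsTest.continuous_pd {n : ℕ} {φ : E n → ℂ} (hφ : IsTest φ) (i : Fin n) :
    Continuous (pd i φ) :=
  (hφ.1.continuous_fderiv_apply (by simp)).comp (continuous_id.prodMk continuous_const)

lemma IsTest.hasCompactSupport_pd {n : ℕ} {φ : E n → ℂ} (hφ : IsTest φ) (i : Fin n) :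
    HasCompactSupport (pd i φ) := hφ.2.fderiv_apply ℝ _

lemma IsTest.continuous_grad {n : ℕ} {φ : E n → ℂ} (hφ : IsTest φ) : Continuous (grad φ) := by
  show Continuous (fun x => WithLp.toLp 2 (fun i => pd i φ x))
  have h : Continuous (fun x => (fun i => pd i φ x)) := continuous_pi (fun i => hφ.continuous_pd i)
  exact (PiLp.continuous_toLp 2 _).comp h

lemma IsTest.hasCompactSupport_grad {n : ℕ} {φ : E n → ℂ} (hφ : IsTest φ) :
    HasCompactSupport (grad φ) := by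
  apply HasCompactSupport.intro hφ.2
  intro x hx
  ext i
  show pd i φ x = 0
  have h1 : x ∉ tsupport (fderiv ℝ φ) := fun h => hx (tsupport_fderiv_subset ℝ h)
  have h2 : fderiv ℝ φ x = 0 := image_eq_zero_of_notMem_tsupport h1
  simp [pd, h2]

lemma integrable_normsq {n : ℕ} {F : Type*} [NormedAddCommGroup F] {φ : E n → F}
    (h1 : Continuous φ) (h2 : HasCompactSupport φ) : Integrable (fun x => ‖φ x‖ ^ 2) := by
  apply Continuous.integrable_of_hasCompactSupport (by fun_prop)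
  exact h2.comp_left (g := fun z => ‖z‖ ^ 2) (by simp)

lemma complex_split {n : ℕ} (Ω : Set (E n)) {φ : E n → ℂ} (hφ : IsTest φ) (γ : ℝ) :
    (∫ x in Ω, ‖grad φ x‖ ^ 2) + γ ^ 2 * (∫ x in Ω, ‖φ x‖ ^ 2) =
      (∫ x in Ω, ((∑ i, (fderiv ℝ (fun x => (φ x).re) x (bv i)) ^ 2) + γ ^ 2 * (φ x).re ^ 2)) +
      ∫ x in Ω, ((∑ i, (fderiv ℝ (fun x => (φ x).im) x (bv i)) ^ 2) + γ ^ 2 * (φ x).im ^ 2) := by
  have key : ∀ {u : E n → ℝ}, ContDiff ℝ 1 u ∧ HasCompactSupport u →
      Integrable (fun x => (∑ i, (fderiv ℝ u x (bv i)) ^ 2) + γ ^ 2 * u x ^ 2) := by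
    rintro u ⟨hu1, hu2⟩
    apply Continuous.integrable_of_hasCompactSupport
    · have hcont : ∀ i, Continuous (fun y => fderiv ℝ u y (bv i)) := fun i =>
        (hu1.continuous_fderiv_apply one_ne_zero).comp (continuous_id.prodMk continuous_const)
      have := hu1.continuous
      fun_prop
    · apply HasCompactSupport.add
      · apply HasCompactSupport.intro hu2
        intro x hx
        have h1 : x ∉ tsupport (fderiv ℝ u) := fun h => hx (tsupport_fderiv_subset ℝ h)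
        have h2 : fderiv ℝ u x = 0 := image_eq_zero_of_notMem_tsupport h1
        simp [h2]
      · exact (hasCompactSupport_sq hu2).mul_left
  rw [← integral_add (key hφ.re).integrableOn (key hφ.im).integrableOn, ← integral_const_mul,
    ← integral_add (integrable_normsq hφ.continuous_grad hφ.hasCompactSupport_grad).integrableOn
      ((integrable_normsq hφ.1.continuous hφ.2).const_mul _).integrableOn]
  apply integral_congr_ae
  filter_upwards with x
  rw [norm_grad_sq, norm_sq_re_im]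
  simp_rw [fderiv_re hφ, fderiv_im hφ, norm_sq_re_im]
  rw [Finset.sum_add_distrib]
  ring

lemma surf_split (hf : LipschitzWith L f) (hK : 1 + L ^ 2 ≤ K ^ 2)
    (hf0 : ∀ y, R ≤ ‖y‖ → f y = 0) (hφ : IsTest φ) :
    ∫ x, ‖φ x‖ ^ 2 ∂(surf (epi f)) =
      (∫ x, (φ x).re ^ 2 ∂(surf (epi f))) + ∫ x, (φ x).im ^ 2 ∂(surf (epi f)) := by
  have i1 : Integrable (fun x => (φ x).re ^ 2) (surf (epi f)) :=
    integrable_surf hf hK hf0 (hφ.re.1.continuous.pow 2) (hasCompactSupport_sq hφ.re.2)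
  have i2 : Integrable (fun x => (φ x).im ^ 2) (surf (epi f)) :=
    integrable_surf hf hK hf0 (hφ.im.1.continuous.pow 2) (hasCompactSupport_sq hφ.im.2)
  rw [← integral_add i1 i2]
  apply integral_congr_ae
  filter_upwards with x
  exact norm_sq_re_im _

lemma surf_complex (hd : 3 ≤ d) (hR : 0 < R) (hf : LipschitzWith L f) (hK : 1 + L ^ 2 ≤ K ^ 2)
    (hf0 : ∀ y, R ≤ ‖y‖ → f y = 0) (hfh : ∀ y, |f y| ≤ h)
    (hβ : 0 < β) (hγ : γ ^ 2 = β ^ 2 + 3 / (4 * R ^ 2))
    (hκ : β * (K : ℝ) ^ d ≤ γ - 3 / (4 * R ^ 2) * (2 * h)) (hφ : IsTest φ) :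
    β * (∫ x, ‖φ x‖ ^ 2 ∂(surf (epi f))) ≤
      (∫ x in epi f, ‖grad φ x‖ ^ 2) + β ^ 2 * (∫ x in epi f, ‖φ x‖ ^ 2) := by
  rw [complex_split _ hφ, surf_split hf hK hf0 hφ, mul_add]
  exact add_le_add (surf_real hd hR hf hK hf0 hfh hβ hγ hκ hφ.re.1 hφ.re.2)
    (surf_real hd hR hf hK hf0 hfh hβ hγ hκ hφ.im.1 hφ.im.2)

lemma surf_trace_complex (hf : LipschitzWith L f) (hK : 1 + L ^ 2 ≤ K ^ 2)
    (hf0 : ∀ y, R ≤ ‖y‖ → f y = 0) (hγ : 0 ≤ γ) (hφ : IsTest φ) :
    γ * (∫ x, ‖φ x‖ ^ 2 ∂(surf (epi f))) ≤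
      (K : ℝ) ^ d * ((∫ x in epi f, ‖grad φ x‖ ^ 2) + γ ^ 2 * (∫ x in epi f, ‖φ x‖ ^ 2)) := by
  rw [complex_split _ hφ, surf_split hf hK hf0 hφ, mul_add, mul_add]
  exact add_le_add (surf_trace_real hf hK hf0 hγ hφ.re.1 hφ.re.2)
    (surf_trace_real hf hK hf0 hγ hφ.im.1 hφ.im.2)

/-- Coercivity of the shifted form on test functions. -/
lemma coercive_test (hd : 3 ≤ d) (hR : 0 < R) (hf : LipschitzWith L f) (hK : 1 + L ^ 2 ≤ K ^ 2)
    (hf0 : ∀ y, R ≤ ‖y‖ → f y = 0) (hfh : ∀ y, |f y| ≤ h)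
    (hβ : 0 < β) (hγ : γ ^ 2 = β ^ 2 + 3 / (4 * R ^ 2))
    (hκ : β * (K : ℝ) ^ d ≤ γ - 3 / (4 * R ^ 2) * (2 * h)) {m : ℝ} (hm : 0 < m) :
    ∃ c : ℝ, 0 < c ∧ ∀ φ : E (d + 1) → ℂ, IsTest φ →
      c * ((∫ x in epi f, ‖φ x‖ ^ 2) + (∫ x in epi f, ‖grad φ x‖ ^ 2) +
        ∫ x, ‖φ x‖ ^ 2 ∂(surf (epi f))) ≤
      (β ^ 2 + m) * (∫ x in epi f, ‖φ x‖ ^ 2) + (∫ x in epi f, ‖grad φ x‖ ^ 2) -
        β * ∫ x, ‖φ x‖ ^ 2 ∂(surf (epi f)) := by
  set κ : ℝ := (K : ℝ) ^ d with hκdef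
  have hκ0 : 0 ≤ κ := by positivity
  set t : ℝ := m / (16 * β ^ 2 * κ ^ 2 + m) with ht
  have hden : 0 < 16 * β ^ 2 * κ ^ 2 + m := by positivity
  have ht0 : 0 < t := div_pos hm hden
  have ht1 : t ≤ 1 := by
    rw [ht, div_le_one hden]
    nlinarith [mul_nonneg (sq_nonneg β) (sq_nonneg κ)]
  have ht2 : t * (8 * β ^ 2 * κ ^ 2) ≤ m / 2 := by
    have : t * (16 * β ^ 2 * κ ^ 2 + m) = m := by
      rw [ht]
      field_simp
    nlinarith
  refine ⟨min (min (t / 2) (t * β)) (m / 2), by positivity, fun φ hφ => ?_⟩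
  have hN0 : 0 ≤ ∫ x in epi f, ‖φ x‖ ^ 2 := integral_nonneg (fun x => by positivity)
  have hN1 : 0 ≤ ∫ x in epi f, ‖grad φ x‖ ^ 2 := integral_nonneg (fun x => by positivity)
  have hNb : 0 ≤ ∫ x, ‖φ x‖ ^ 2 ∂(surf (epi f)) := integral_nonneg (fun x => by positivity)
  have h1 := surf_complex hd hR hf hK hf0 hfh hβ hγ hκ hφ
  have h2 := surf_trace_complex (γ := 4 * β * κ) hf hK hf0 (by positivity) hφ
  set N0 := ∫ x in epi f, ‖φ x‖ ^ 2
  set N1 := ∫ x in epi f, ‖grad φ x‖ ^ 2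
  set Nb := ∫ x, ‖φ x‖ ^ 2 ∂(surf (epi f))
  rw [← hκdef] at h2
  have hKpos : 0 < κ := by
    have hK' : (1 : ℝ) + (L : ℝ) ^ 2 ≤ (K : ℝ) ^ 2 := by exact_mod_cast hK
    have : 0 < (K : ℝ) := by
      rcases eq_or_lt_of_le K.coe_nonneg with h0 | h0
      · rw [← h0] at hK'
        nlinarith [sq_nonneg (L : ℝ)]
      · exact h0
    positivity
  have h3 : 4 * β * Nb ≤ N1 + (4 * β * κ) ^ 2 * N0 := by
    have : κ * (4 * β * Nb) ≤ κ * (N1 + (4 * β * κ) ^ 2 * N0) := by linarith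
    exact le_of_mul_le_mul_left this hKpos
  have h4 : N1 / 2 - 8 * β ^ 2 * κ ^ 2 * N0 + β * Nb ≤ N1 - β * Nb := by nlinarith
  have h5 : 0 ≤ (1 - t) * (N1 + β ^ 2 * N0 - β * Nb) :=
    mul_nonneg (by linarith) (by linarith)
  have h6 : t * (N1 / 2 - 8 * β ^ 2 * κ ^ 2 * N0 + β * Nb) ≤ t * (N1 - β * Nb) :=
    mul_le_mul_of_nonneg_left h4 ht0.le
  have h7 : t * (8 * β ^ 2 * κ ^ 2) * N0 ≤ m / 2 * N0 := mul_le_mul_of_nonneg_right ht2 hN0
  have h8 : (t / 2) * N1 + (t * β) * Nb + (m / 2) * N0 ≤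
      (β ^ 2 + m) * N0 + N1 - β * Nb := by
    have e : (β ^ 2 + m) * N0 + N1 - β * Nb = (1 - t) * (N1 + β ^ 2 * N0 - β * Nb) +
        t * (N1 - β * Nb) + t * (β ^ 2 * N0) + m * N0 := by ring
    have h9 : 0 ≤ t * (β ^ 2 * N0) := by positivity
    rw [e]
    nlinarith
  refine le_trans ?_ h8
  have c1 : min (min (t / 2) (t * β)) (m / 2) ≤ t / 2 := (min_le_left _ _).trans (min_le_left _ _)
  have c2 : min (min (t / 2) (t * β)) (m / 2) ≤ t * β := (min_le_left _ _).trans (min_le_right _ _)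
  have c3 : min (min (t / 2) (t * β)) (m / 2) ≤ m / 2 := min_le_right _ _
  have d1 := mul_le_mul_of_nonneg_right c1 hN1
  have d2 := mul_le_mul_of_nonneg_right c2 hNb
  have d3 := mul_le_mul_of_nonneg_right c3 hN0
  linarith

end complex

end Pool.Agent.Helper46.Robin
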