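import Mathlib

open MeasureTheory Set Filter Topology
open scoped ENNReal NNReal ContDiff

namespace Pool.Agent.Helper46.Robin

/-- The first `d` coordinates of a point of `(d+1)`-dimensional space. -/
noncomputable def headCoords {d : ℕ} (x : EuclideanSpace ℝ (Fin (d + 1))) : EuclideanSpace ℝ (Fin d) :=
  WithLp.toLp 2 (fun i => x (Fin.castSucc i))

/-- The last coordinate of a point of `(d+1)`-dimensional space. -/
noncomputable def lastCoord {d : ℕ} (x : EuclideanSpace ℝ (Fin (d + 1))) : ℝ := x (Fin.last d)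

/-- The open half-space where the last coordinate is positive. -/
def halfSpace (d : ℕ) : Set (EuclideanSpace ℝ (Fin (d + 1))) := {x | 0 < lastCoord x}

/-- Lipschitz boundary: near each boundary point, after a linear isometry `e` of coordinates, the
set is the strict epigraph of a Lipschitz function. -/
def HasLipschitzBoundary {d : ℕ} (Ω : Set (EuclideanSpace ℝ (Fin (d + 1)))) : Prop :=
  ∀ x ∈ frontier Ω, ∃ (e : EuclideanSpace ℝ (Fin (d + 1)) ≃ₗᵢ[ℝ] EuclideanSpace ℝ (Fin (d + 1)))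
    (f : EuclideanSpace ℝ (Fin d) → ℝ) (K : ℝ≥0) (r : ℝ),
    0 < r ∧ LipschitzWith K f ∧ ∀ y ∈ Metric.ball x r, (y ∈ Ω ↔ f (headCoords (e y)) < lastCoord (e y))

/-- A locally deformed half-space (the flat half-space itself is not excluded here). -/
structure IsLocallyDeformedHalfSpace {d : ℕ} (Ω : Set (EuclideanSpace ℝ (Fin (d + 1)))) :
    Prop where
  isOpen : IsOpen Ω
  isConnected : IsConnected Ω
  hasLipschitzBoundary : HasLipschitzBoundary Ω
  agree : ∃ (c : EuclideanSpace ℝ (Fin (d + 1))) (R : ℝ),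
    Ω \ Metric.ball c R = halfSpace d \ Metric.ball c R

/-- Test functions: smooth compactly supported complex functions on the whole space. -/
def IsTest {n : ℕ} (φ : EuclideanSpace ℝ (Fin n) → ℂ) : Prop :=
  ContDiff ℝ ∞ φ ∧ HasCompactSupport φ

/-- The partial derivative in the `i`-th coordinate direction. -/
noncomputable def pd {n : ℕ} (i : Fin n) (φ : EuclideanSpace ℝ (Fin n) → ℂ)
    (x : EuclideanSpace ℝ (Fin n)) : ℂ :=
  fderiv ℝ φ x (EuclideanSpace.single i (1 : ℝ))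

/-- The gradient. -/
noncomputable def grad {n : ℕ} (φ : EuclideanSpace ℝ (Fin n) → ℂ)
    (x : EuclideanSpace ℝ (Fin n)) : EuclideanSpace ℂ (Fin n) :=
  WithLp.toLp 2 (fun i => pd i φ x)

/-- Surface measure on the boundary: `d`-dimensional Hausdorff measure, normalised so that it is
Lebesgue measure on `d`-dimensional Euclidean space. -/
noncomputable def surf {d : ℕ} (Ω : Set (EuclideanSpace ℝ (Fin (d + 1)))) :
    Measure (EuclideanSpace ℝ (Fin (d + 1))) :=
  (Measure.euclideanHausdorffMeasure d).restrict (frontier Ω)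

/-- `u` belongs to `H¹(Ω)` and `g` is its weak gradient: both are in `L²(Ω)` and
`∫_Ω u ∂ᵢφ = - ∫_Ω gᵢ φ` for all test functions `φ` supported in `Ω`. -/
def IsH1 {n : ℕ} (Ω : Set (EuclideanSpace ℝ (Fin n))) (u : EuclideanSpace ℝ (Fin n) → ℂ)
    (g : EuclideanSpace ℝ (Fin n) → EuclideanSpace ℂ (Fin n)) : Prop :=
  MemLp u 2 (volume.restrict Ω) ∧ MemLp g 2 (volume.restrict Ω) ∧
    ∀ φ : EuclideanSpace ℝ (Fin n) → ℂ, IsTest φ → tsupport φ ⊆ Ω → ∀ i : Fin n,
      ∫ x in Ω, u x * pd i φ x = - ∫ x in Ω, g x i * φ x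

/-- `τ ∈ L²(∂Ω)` is the boundary trace of the element `u` of `H¹(Ω)` with weak gradient `g`: there
are test functions converging to `u` in `H¹(Ω)` whose restrictions to the boundary converge to `τ`
in `L²(∂Ω)`. -/
def IsTrace {d : ℕ} (Ω : Set (EuclideanSpace ℝ (Fin (d + 1))))
    (u : EuclideanSpace ℝ (Fin (d + 1)) → ℂ)
    (g : EuclideanSpace ℝ (Fin (d + 1)) → EuclideanSpace ℂ (Fin (d + 1)))
    (τ : EuclideanSpace ℝ (Fin (d + 1)) → ℂ) : Prop :=
  MemLp τ 2 (surf Ω) ∧ ∃ φ : ℕ → EuclideanSpace ℝ (Fin (d + 1)) → ℂ, (∀ k, IsTest (φ k)) ∧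
    Tendsto (fun k => eLpNorm (φ k - u) 2 (volume.restrict Ω)) atTop (𝓝 0) ∧
    Tendsto (fun k => eLpNorm (grad (φ k) - g) 2 (volume.restrict Ω)) atTop (𝓝 0) ∧
    Tendsto (fun k => eLpNorm (φ k - τ) 2 (surf Ω)) atTop (𝓝 0)

/-- The Robin Laplacian as a relation (`-Δ_α u = f`): `f ∈ L²(Ω)`, `u ∈ H¹(Ω)` and
`q_α(u, v) = ⟨f, v⟩` for every `v ∈ H¹(Ω)`, where `q_α` is the sesquilinear form of
`∫_Ω |∇u|² + α ∫_∂Ω |u|²`. -/
def RobinRel {d : ℕ} (α : ℝ) (Ω : Set (EuclideanSpace ℝ (Fin (d + 1))))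
    (u f : EuclideanSpace ℝ (Fin (d + 1)) → ℂ) : Prop :=
  MemLp f 2 (volume.restrict Ω) ∧ ∃ g τ, IsH1 Ω u g ∧ IsTrace Ω u g τ ∧
    ∀ v g' τ', IsH1 Ω v g' → IsTrace Ω v g' τ' →
      (∫ x in Ω, inner ℂ (g' x) (g x)) + (α : ℂ) * ∫ x, inner ℂ (τ' x) (τ x) ∂(surf Ω) =
        ∫ x in Ω, inner ℂ (v x) (f x)

/-- The spectrum of the linear operator `A` in complex `L²(μ)` given by a relation, `A u = f`
meaning `Rel u f`. A number `z` is outside the spectrum iff `A - z` has a bounded everywhere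
defined inverse: for every `w ∈ L²(μ)` the equation `(A - z) u = w` has a solution, and every
solution satisfies `‖u‖ ≤ C ‖w‖` with `C` independent of `w`. -/
def relSpectrum {X : Type*} [MeasurableSpace X] (μ : Measure X)
    (Rel : (X → ℂ) → (X → ℂ) → Prop) : Set ℂ :=
  {z | ¬ ∃ C : ℝ≥0, ∀ w : X → ℂ, MemLp w 2 μ →
    (∃ u, Rel u (w + z • u)) ∧ ∀ u, Rel u (w + z • u) → eLpNorm u 2 μ ≤ C * eLpNorm w 2 μ}

/-- The spectrum of the Robin Laplacian in `L²(Ω)`. -/
def robinSpectrum {d : ℕ} (α : ℝ) (Ω : Set (EuclideanSpace ℝ (Fin (d + 1)))) : Set ℂ :=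
  relSpectrum (volume.restrict Ω) (RobinRel α Ω)

/-- The open set above the graph of `f`. -/
def epi {d : ℕ} (f : EuclideanSpace ℝ (Fin d) → ℝ) : Set (EuclideanSpace ℝ (Fin (d + 1))) :=
  {x | f (headCoords x) < lastCoord x}

end Pool.Agent.Helper46.Robin
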