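import Pool.Agent.Helper46.RobinD

open MeasureTheory Set Filter Topology
open scoped ENNReal NNReal ContDiff

namespace Pool.Agent.Helper46.Robin

/-- Abstract construction of the resolvent. -/
lemma abstract_resolvent {V H₁ H₂ H₃ : Type*} [NormedAddCommGroup V] [InnerProductSpace ℂ V]
    [CompleteSpace V] [NormedAddCommGroup H₁] [InnerProductSpace ℂ H₁] [CompleteSpace H₁]
    [NormedAddCommGroup H₂] [InnerProductSpace ℂ H₂] [CompleteSpace H₂]
    [NormedAddCommGroup H₃] [InnerProductSpace ℂ H₃] [CompleteSpace H₃]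
    (p₁ : V →L[ℂ] H₁) (p₂ : V →L[ℂ] H₂) (p₃ : V →L[ℂ] H₃) {a b c : ℝ} (hc : 0 < c)
    (hco : ∀ x, c * ‖x‖ ^ 2 ≤ a * ‖p₁ x‖ ^ 2 + ‖p₂ x‖ ^ 2 + b * ‖p₃ x‖ ^ 2) :
    ∃ R : H₁ →L[ℂ] H₁, ∀ u w : H₁,
      (∃ x, p₁ x = u ∧ ∀ y, (a : ℂ) * inner ℂ (p₁ y) (p₁ x) + inner ℂ (p₂ y) (p₂ x) +
        (b : ℂ) * inner ℂ (p₃ y) (p₃ x) = inner ℂ (p₁ y) w) ↔ u = R w := by
  let D : V →L[ℂ] V := (a : ℂ) • (p₁.adjoint ∘L p₁) + p₂.adjoint ∘L p₂ +
    (b : ℂ) • (p₃.adjoint ∘L p₃)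
  have hD : ∀ x y, inner ℂ y (D x) = (a : ℂ) * inner ℂ (p₁ y) (p₁ x) + inner ℂ (p₂ y) (p₂ x) +
      (b : ℂ) * inner ℂ (p₃ y) (p₃ x) := by
    intro x y
    simp only [D, ContinuousLinearMap.add_apply, ContinuousLinearMap.smul_apply,
      ContinuousLinearMap.comp_apply, inner_add_right, inner_smul_right,
      ContinuousLinearMap.adjoint_inner_right]
  have hunit : IsUnit D := by
    apply ContinuousLinearMap.isUnit_of_forall_le_norm_inner_map D (c := ⟨c, hc.le⟩) hc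
    intro x
    have h1 : inner ℂ (D x) x = ((a * ‖p₁ x‖ ^ 2 + ‖p₂ x‖ ^ 2 + b * ‖p₃ x‖ ^ 2 : ℝ) : ℂ) := by
      rw [← inner_conj_symm, hD x x]
      simp only [inner_self_eq_norm_sq_to_K]
      push_cast
      simp
    rw [h1, Complex.norm_real]
    calc ‖x‖ ^ 2 * c = c * ‖x‖ ^ 2 := by ring
      _ ≤ _ := hco x
      _ ≤ _ := Real.le_norm_self _
  obtain ⟨U, hU⟩ := hunit
  let Dinv : V →L[ℂ] V := ((U⁻¹ : (V →L[ℂ] V)ˣ) : V →L[ℂ] V)
  have h1 : ∀ x, D (Dinv x) = x := by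
    intro x
    have : (U : V →L[ℂ] V) * ((U⁻¹ : (V →L[ℂ] V)ˣ) : V →L[ℂ] V) = 1 := U.mul_inv
    rw [hU] at this
    exact congrArg (fun T : V →L[ℂ] V => T x) this
  have h2 : ∀ x, Dinv (D x) = x := by
    intro x
    have : ((U⁻¹ : (V →L[ℂ] V)ˣ) : V →L[ℂ] V) * (U : V →L[ℂ] V) = 1 := U.inv_mul
    rw [hU] at this
    exact congrArg (fun T : V →L[ℂ] V => T x) this
  refine ⟨p₁ ∘L Dinv ∘L p₁.adjoint, fun u w => ⟨?_, ?_⟩⟩
  · rintro ⟨x, rfl, hx⟩
    have hDx : D x = p₁.adjoint w := by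
      apply ext_inner_left ℂ
      intro y
      rw [hD, hx y, ContinuousLinearMap.adjoint_inner_right]
    show p₁ x = p₁ (Dinv (p₁.adjoint w))
    rw [← hDx, h2]
  · rintro rfl
    refine ⟨Dinv (p₁.adjoint w), rfl, fun y => ?_⟩
    rw [← hD, h1, ContinuousLinearMap.adjoint_inner_right]

/-- The space `L²(Ω)`, complex valued. -/
noncomputable abbrev L2 {n : ℕ} (Ω : Set (E n)) := Lp ℂ 2 (volume.restrict Ω)

/-- `L²(Ω; ℂⁿ)`. -/
noncomputable abbrev L2vec {n : ℕ} (Ω : Set (E n)) :=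
  Lp (EuclideanSpace ℂ (Fin n)) 2 (volume.restrict Ω)

/-- `L²(∂Ω)`, with respect to surface measure. -/
noncomputable abbrev L2bd {d : ℕ} (Ω : Set (E (d + 1))) := Lp ℂ 2 (surf Ω)

section Ω

variable {d : ℕ} {Ω : Set (E (d + 1))}

/-- The Hilbert space of triples. -/
noncomputable abbrev X3 (Ω : Set (E (d + 1))) := WithLp 2 (L2 Ω × WithLp 2 (L2vec Ω × L2bd Ω))

lemma IsTest.memLp {n : ℕ} {φ : E n → ℂ} (hφ : IsTest φ) (μ : Measure (E n))
    [IsFiniteMeasureOnCompacts μ] : MemLp φ 2 μ :=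
  hφ.1.continuous.memLp_of_hasCompactSupport hφ.2

lemma IsTest.memLp_grad {n : ℕ} {φ : E n → ℂ} (hφ : IsTest φ) (μ : Measure (E n))
    [IsFiniteMeasureOnCompacts μ] : MemLp (grad φ) 2 μ :=
  hφ.continuous_grad.memLp_of_hasCompactSupport hφ.hasCompactSupport_grad

lemma IsTest.add {n : ℕ} {φ ψ : E n → ℂ} (hφ : IsTest φ) (hψ : IsTest ψ) : IsTest (φ + ψ) :=
  ⟨hφ.1.add hψ.1, hφ.2.add hψ.2⟩

lemma IsTest.const_smul {n : ℕ} {φ : E n → ℂ} (hφ : IsTest φ) (c : ℂ) : IsTest (c • φ) :=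
  ⟨contDiff_const.smul hφ.1, by
    have : (c • φ) = fun x => c * φ x := by ext x; rfl
    rw [this]
    exact hφ.2.mul_left⟩

lemma grad_add {n : ℕ} {φ ψ : E n → ℂ} (hφ : IsTest φ) (hψ : IsTest ψ) :
    grad (φ + ψ) = grad φ + grad ψ := by
  ext x i
  show pd i (φ + ψ) x = pd i φ x + pd i ψ x
  unfold pd
  rw [fderiv_add (hφ.differentiable x) (hψ.differentiable x)]
  rfl

lemma grad_smul {n : ℕ} {φ : E n → ℂ} (hφ : IsTest φ) (c : ℂ) :
    grad (c • φ) = c • grad φ := by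
  ext x i
  show pd i (c • φ) x = c * pd i φ x
  unfold pd
  rw [fderiv_const_smul (hφ.differentiable x)]
  rfl

lemma grad_zero {n : ℕ} : grad (0 : E n → ℂ) = 0 := by
  ext x i
  show pd i (0 : E n → ℂ) x = 0
  unfold pd
  simp

/-- The triples of test functions. -/
noncomputable def S0 (Ω : Set (E (d + 1))) : Submodule ℂ (X3 Ω) where
  carrier := {x | ∃ φ, IsTest φ ∧ (x.fst : E (d + 1) → ℂ) =ᵐ[volume.restrict Ω] φ ∧
    (x.snd.fst : E (d + 1) → EuclideanSpace ℂ (Fin (d + 1))) =ᵐ[volume.restrict Ω] grad φ ∧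
    (x.snd.snd : E (d + 1) → ℂ) =ᵐ[surf Ω] φ}
  zero_mem' := by
    refine ⟨0, ⟨contDiff_const, HasCompactSupport.zero⟩, ?_, ?_, ?_⟩
    · exact Lp.coeFn_zero _ _ _
    · rw [grad_zero]
      exact Lp.coeFn_zero _ _ _
    · exact Lp.coeFn_zero _ _ _
  add_mem' := by
    rintro x y ⟨φ, hφ, h1, h2, h3⟩ ⟨ψ, hψ, g1, g2, g3⟩
    refine ⟨φ + ψ, hφ.add hψ, ?_, ?_, ?_⟩
    · exact (Lp.coeFn_add x.fst y.fst).trans (h1.add g1)
    · rw [grad_add hφ hψ]
      exact (Lp.coeFn_add x.snd.fst y.snd.fst).trans (h2.add g2)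
    · exact (Lp.coeFn_add x.snd.snd y.snd.snd).trans (h3.add g3)
  smul_mem' := by
    rintro c x ⟨φ, hφ, h1, h2, h3⟩
    refine ⟨c • φ, hφ.const_smul c, ?_, ?_, ?_⟩
    · exact (Lp.coeFn_smul c x.fst).trans (h1.const_smul c)
    · rw [grad_smul hφ]
      exact (Lp.coeFn_smul c x.snd.fst).trans (h2.const_smul c)
    · exact (Lp.coeFn_smul c x.snd.snd).trans (h3.const_smul c)


/-- The triple of a test function. -/
noncomputable def triple {φ : E (d + 1) → ℂ} (hφ : IsTest φ) (hM : MemLp φ 2 (surf Ω)) : X3 Ω :=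
  WithLp.toLp 2 ((hφ.memLp (volume.restrict Ω)).toLp φ,
    WithLp.toLp 2 ((hφ.memLp_grad (volume.restrict Ω)).toLp (grad φ), hM.toLp φ))

lemma triple_mem {φ : E (d + 1) → ℂ} (hφ : IsTest φ) (hM : MemLp φ 2 (surf Ω)) :
    triple hφ hM ∈ S0 Ω :=
  ⟨φ, hφ, (hφ.memLp (volume.restrict Ω)).coeFn_toLp,
    (hφ.memLp_grad (volume.restrict Ω)).coeFn_toLp, hM.coeFn_toLp⟩

lemma tendsto_X3 {x : ℕ → X3 Ω} {y : X3 Ω} :
    Tendsto x atTop (𝓝 y) ↔ Tendsto (fun k => (x k).fst) atTop (𝓝 y.fst) ∧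
      Tendsto (fun k => (x k).snd.fst) atTop (𝓝 y.snd.fst) ∧
      Tendsto (fun k => (x k).snd.snd) atTop (𝓝 y.snd.snd) := by
  constructor
  · intro h
    refine ⟨?_, ?_, ?_⟩
    · exact ((WithLp.fstL 2 ℂ (L2 Ω) (WithLp 2 (L2vec Ω × L2bd Ω))).continuous.tendsto y).comp h
    · exact (((WithLp.fstL 2 ℂ (L2vec Ω) (L2bd Ω)).comp
        (WithLp.sndL 2 ℂ (L2 Ω) (WithLp 2 (L2vec Ω × L2bd Ω)))).continuous.tendsto y).comp h
    · exact (((WithLp.sndL 2 ℂ (L2vec Ω) (L2bd Ω)).comp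
        (WithLp.sndL 2 ℂ (L2 Ω) (WithLp 2 (L2vec Ω × L2bd Ω)))).continuous.tendsto y).comp h
  · rintro ⟨h1, h2, h3⟩
    have h4 : Tendsto (fun k => WithLp.toLp 2 ((x k).snd.fst, (x k).snd.snd)) atTop
        (𝓝 (WithLp.toLp 2 (y.snd.fst, y.snd.snd))) :=
      ((WithLp.prod_continuous_toLp 2 (L2vec Ω) (L2bd Ω)).tendsto _).comp (h2.prodMk_nhds h3)
    exact ((WithLp.prod_continuous_toLp 2 (L2 Ω) (WithLp 2 (L2vec Ω × L2bd Ω))).tendsto _).comp
      (h1.prodMk_nhds h4)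

lemma mem_closure_of_isTrace (hM : ∀ φ : E (d + 1) → ℂ, IsTest φ → MemLp φ 2 (surf Ω))
    {u : E (d + 1) → ℂ} {g : E (d + 1) → EuclideanSpace ℂ (Fin (d + 1))} {τ : E (d + 1) → ℂ}
    (hu : MemLp u 2 (volume.restrict Ω)) (hg : MemLp g 2 (volume.restrict Ω))
    (hτ : MemLp τ 2 (surf Ω)) (h : IsTrace Ω u g τ) :
    (WithLp.toLp 2 (hu.toLp u, WithLp.toLp 2 (hg.toLp g, hτ.toLp τ)) : X3 Ω) ∈
      (S0 Ω).topologicalClosure := by
  obtain ⟨-, φ, hφ, h1, h2, h3⟩ := h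
  have hx : Tendsto (fun k => triple (hφ k) (hM (φ k) (hφ k))) atTop
      (𝓝 (WithLp.toLp 2 (hu.toLp u, WithLp.toLp 2 (hg.toLp g, hτ.toLp τ)) : X3 Ω)) := by
    rw [tendsto_X3]
    refine ⟨?_, ?_, ?_⟩
    · exact (Lp.tendsto_Lp_iff_tendsto_eLpNorm'' φ
        (fun k => (hφ k).memLp (volume.restrict Ω)) u hu).mpr h1
    · exact (Lp.tendsto_Lp_iff_tendsto_eLpNorm'' (fun k => grad (φ k))
        (fun k => (hφ k).memLp_grad (volume.restrict Ω)) g hg).mpr h2
    · exact (Lp.tendsto_Lp_iff_tendsto_eLpNorm'' φ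
        (fun k => hM (φ k) (hφ k)) τ hτ).mpr h3
  exact mem_closure_of_tendsto hx (Eventually.of_forall (fun k => triple_mem _ _))

lemma isTrace_of_mem_closure {x : X3 Ω} (hx : x ∈ (S0 Ω).topologicalClosure) :
    IsTrace Ω x.fst x.snd.fst x.snd.snd := by
  obtain ⟨y, hy, hyx⟩ := mem_closure_iff_seq_limit.mp hx
  choose φ hφ h1 h2 h3 using hy
  rw [tendsto_X3] at hyx
  obtain ⟨g1, g2, g3⟩ := hyx
  rw [Lp.tendsto_Lp_iff_tendsto_eLpNorm'] at g1 g2 g3
  refine ⟨Lp.memLp _, φ, hφ, ?_, ?_, ?_⟩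
  · refine g1.congr (fun k => ?_)
    apply eLpNorm_congr_ae
    filter_upwards [h1 k] with z hz
    show (y k).fst z - x.fst z = φ k z - x.fst z
    rw [hz]
  · refine g2.congr (fun k => ?_)
    apply eLpNorm_congr_ae
    filter_upwards [h2 k] with z hz
    show (y k).snd.fst z - x.snd.fst z = grad (φ k) z - x.snd.fst z
    rw [hz]
  · refine g3.congr (fun k => ?_)
    apply eLpNorm_congr_ae
    filter_upwards [h3 k] with z hz
    show (y k).snd.snd z - x.snd.snd z = φ k z - x.snd.snd z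
    rw [hz]

/-- Integration by parts for two test functions. -/
lemma ibp_test {n : ℕ} {Ω : Set (E n)} {φ ψ : E n → ℂ} (hφ : IsTest φ) (hψ : IsTest ψ)
    (hs : tsupport ψ ⊆ Ω) (i : Fin n) :
    ∫ x in Ω, φ x * pd i ψ x = - ∫ x in Ω, pd i φ x * ψ x := by
  have e1 : ∫ x in Ω, φ x * pd i ψ x = ∫ x, φ x * pd i ψ x := by
    apply setIntegral_eq_integral_of_forall_compl_eq_zero
    intro x hx
    have h1 : x ∉ tsupport (fderiv ℝ ψ) := fun h => hx (hs (tsupport_fderiv_subset ℝ h))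
    have h2 : fderiv ℝ ψ x = 0 := image_eq_zero_of_notMem_tsupport h1
    simp [pd, h2]
  have e2 : ∫ x in Ω, pd i φ x * ψ x = ∫ x, pd i φ x * ψ x := by
    apply setIntegral_eq_integral_of_forall_compl_eq_zero
    intro x hx
    have h1 : x ∉ tsupport ψ := fun h => hx (hs h)
    rw [image_eq_zero_of_notMem_tsupport h1, mul_zero]
  rw [e1, e2]
  apply integral_mul_fderiv_eq_neg_fderiv_mul_of_integrable
  · exact ((hφ.continuous_pd i).mul hψ.1.continuous).integrable_of_hasCompactSupport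
      hψ.2.mul_left
  · exact (hφ.1.continuous.mul (hψ.continuous_pd i)).integrable_of_hasCompactSupport
      (hψ.hasCompactSupport_pd i).mul_left
  · exact (hφ.1.continuous.mul hψ.1.continuous).integrable_of_hasCompactSupport
      hψ.2.mul_left
  · intro x _
    exact hφ.differentiable x
  · intro x _
    exact hψ.differentiable x

lemma isH1_of_mem_closure {x : X3 Ω} (hx : x ∈ (S0 Ω).topologicalClosure) :
    IsH1 Ω x.fst x.snd.fst := by
  refine ⟨Lp.memLp _, Lp.memLp _, ?_⟩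
  intro ψ hψ hs i
  -- the two functionals as inner products
  have ha : MemLp (fun x => (starRingEnd ℂ) (pd i ψ x)) 2 (volume.restrict Ω) := by
    have h1 : Continuous (fun x => (starRingEnd ℂ) (pd i ψ x)) :=
      Complex.continuous_conj.comp (hψ.continuous_pd i)
    have h2 : HasCompactSupport (fun x => (starRingEnd ℂ) (pd i ψ x)) :=
      (hψ.hasCompactSupport_pd i).comp_left (g := (starRingEnd ℂ)) (map_zero _)
    exact h1.memLp_of_hasCompactSupport h2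
  have hb : MemLp (fun x => EuclideanSpace.single i ((starRingEnd ℂ) (ψ x))) 2
      (volume.restrict Ω) := by
    have h1 : Continuous (fun x => EuclideanSpace.single i ((starRingEnd ℂ) (ψ x))) := by
      have h3 : Continuous (fun z : ℂ => (EuclideanSpace.single i z : EuclideanSpace ℂ (Fin (d + 1)))) := by
        have : (fun z : ℂ => (EuclideanSpace.single i z : EuclideanSpace ℂ (Fin (d + 1)))) =
            fun z => WithLp.toLp 2 (fun j => if j = i then z else 0) := by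
          funext z
          ext j
          simp
        rw [this]
        have h4 : Continuous (fun z : ℂ => (fun j : Fin (d + 1) => if j = i then z else 0)) := by
          apply continuous_pi
          intro j
          by_cases hj : j = i
          · simp only [hj, if_true]
            exact continuous_id
          · simp only [hj, if_false]
            exact continuous_const
        exact (PiLp.continuous_toLp 2 _).comp h4
      exact h3.comp (Complex.continuous_conj.comp hψ.1.continuous)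
    have h2 : HasCompactSupport (fun x => EuclideanSpace.single i ((starRingEnd ℂ) (ψ x))) :=
      hψ.2.comp_left (g := fun z => EuclideanSpace.single i ((starRingEnd ℂ) z)) (by simp)
    exact h1.memLp_of_hasCompactSupport h2
  have hA : ∀ u : L2 Ω, inner ℂ (ha.toLp _) u = ∫ x in Ω, u x * pd i ψ x := by
    intro u
    rw [L2.inner_def]
    apply integral_congr_ae
    filter_upwards [ha.coeFn_toLp] with x hx
    rw [hx]
    simp
  have hB : ∀ g : L2vec Ω, inner ℂ (hb.toLp _) g = ∫ x in Ω, g x i * ψ x := by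
    intro g
    rw [L2.inner_def]
    apply integral_congr_ae
    filter_upwards [hb.coeFn_toLp] with x hx
    rw [hx, EuclideanSpace.inner_single_left]
    simp [mul_comm]
  rw [← hA, ← hB]
  have hclosed : IsClosed {x : X3 Ω | inner ℂ (ha.toLp _) x.fst = - inner ℂ (hb.toLp _) x.snd.fst} := by
    apply isClosed_eq
    · exact continuous_const.inner
        (WithLp.fstL 2 ℂ (L2 Ω) (WithLp 2 (L2vec Ω × L2bd Ω))).continuous
    · exact (continuous_const.inner ((WithLp.fstL 2 ℂ (L2vec Ω) (L2bd Ω)).comp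
        (WithLp.sndL 2 ℂ (L2 Ω) (WithLp 2 (L2vec Ω × L2bd Ω)))).continuous).neg
  have hsub : ((S0 Ω : Submodule ℂ (X3 Ω)) : Set (X3 Ω)) ⊆
      {x : X3 Ω | inner ℂ (ha.toLp _) x.fst = - inner ℂ (hb.toLp _) x.snd.fst} := by
    rintro y ⟨φ, hφ, h1, h2, -⟩
    show inner ℂ (ha.toLp _) y.fst = - inner ℂ (hb.toLp _) y.snd.fst
    rw [hA, hB]
    have e1 : ∫ x in Ω, y.fst x * pd i ψ x = ∫ x in Ω, φ x * pd i ψ x := by
      apply integral_congr_ae
      filter_upwards [h1] with x hx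
      rw [hx]
    have e2 : ∫ x in Ω, y.snd.fst x i * ψ x = ∫ x in Ω, pd i φ x * ψ x := by
      apply integral_congr_ae
      filter_upwards [h2] with x hx
      rw [hx]
      rfl
    rw [e1, e2]
    exact ibp_test hφ hψ hs i
  exact closure_minimal hsub hclosed hx

lemma norm_toLp_sq {α F : Type*} [MeasurableSpace α] {μ : Measure α} [NormedAddCommGroup F]
    [InnerProductSpace ℂ F] {φ : α → F} {y : Lp F 2 μ} (h : y =ᵐ[μ] φ) :
    ‖y‖ ^ 2 = ∫ x, ‖φ x‖ ^ 2 ∂μ := by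
  have h1 : (inner ℂ y y : ℂ) = ((∫ x, ‖φ x‖ ^ 2 ∂μ : ℝ) : ℂ) := by
    rw [L2.inner_def, ← integral_complex_ofReal]
    apply integral_congr_ae
    filter_upwards [h] with x hx
    rw [hx, inner_self_eq_norm_sq_to_K]
    simp
  rw [inner_self_eq_norm_sq_to_K] at h1
  have h2 : ((‖y‖ ^ 2 : ℝ) : ℂ) = ((∫ x, ‖φ x‖ ^ 2 ∂μ : ℝ) : ℂ) := by
    rw [← h1]
    simp
  exact Complex.ofReal_injective h2

end Ω

end Pool.Agent.Helper46.Robin
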