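import Pool.Agent.Helper46.RobinE

open MeasureTheory Set Filter Topology
open scoped ENNReal NNReal ContDiff

namespace Pool.Agent.Helper46.Robin

lemma submodule_resolvent {X H₁ H₂ H₃ : Type*} [NormedAddCommGroup X] [InnerProductSpace ℂ X]
    [NormedAddCommGroup H₁] [InnerProductSpace ℂ H₁] [CompleteSpace H₁]
    [NormedAddCommGroup H₂] [InnerProductSpace ℂ H₂] [CompleteSpace H₂]
    [NormedAddCommGroup H₃] [InnerProductSpace ℂ H₃] [CompleteSpace H₃]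
    (V : Submodule ℂ X) [CompleteSpace V]
    (q₁ : X →L[ℂ] H₁) (q₂ : X →L[ℂ] H₂) (q₃ : X →L[ℂ] H₃) {a b c : ℝ} (hc : 0 < c)
    (hco : ∀ x ∈ V, c * ‖x‖ ^ 2 ≤ a * ‖q₁ x‖ ^ 2 + ‖q₂ x‖ ^ 2 + b * ‖q₃ x‖ ^ 2) :
    ∃ R : H₁ →L[ℂ] H₁, ∀ u w : H₁,
      (∃ x ∈ V, q₁ x = u ∧ ∀ y ∈ V, (a : ℂ) * inner ℂ (q₁ y) (q₁ x) + inner ℂ (q₂ y) (q₂ x) +
        (b : ℂ) * inner ℂ (q₃ y) (q₃ x) = inner ℂ (q₁ y) w) ↔ u = R w := by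
  obtain ⟨R, hR⟩ := abstract_resolvent (V := V) (q₁.comp V.subtypeL)
    (q₂.comp V.subtypeL) (q₃.comp V.subtypeL) (a := a) (b := b) hc
    (fun x => hco x.1 x.2)
  refine ⟨R, fun u w => ?_⟩
  rw [← hR u w]
  constructor
  · rintro ⟨x, hx, hxu, hform⟩
    exact ⟨⟨x, hx⟩, hxu, fun y => hform y.1 y.2⟩
  · rintro ⟨x, hxu, hform⟩
    exact ⟨x.1, x.2, hxu, fun y hy => hform ⟨y, hy⟩⟩

section Ω

variable {d : ℕ}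

/-- First projection. -/
noncomputable def q₁ (Ω : Set (E (d + 1))) : X3 Ω →L[ℂ] L2 Ω :=
  WithLp.fstL 2 ℂ (L2 Ω) (WithLp 2 (L2vec Ω × L2bd Ω))

/-- Second projection. -/
noncomputable def q₂ (Ω : Set (E (d + 1))) : X3 Ω →L[ℂ] L2vec Ω :=
  (WithLp.fstL 2 ℂ (L2vec Ω) (L2bd Ω)).comp
    (WithLp.sndL 2 ℂ (L2 Ω) (WithLp 2 (L2vec Ω × L2bd Ω)))

/-- Third projection. -/
noncomputable def q₃ (Ω : Set (E (d + 1))) : X3 Ω →L[ℂ] L2bd Ω :=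
  (WithLp.sndL 2 ℂ (L2vec Ω) (L2bd Ω)).comp
    (WithLp.sndL 2 ℂ (L2 Ω) (WithLp 2 (L2vec Ω × L2bd Ω)))

variable {Ω : Set (E (d + 1))}

lemma q₁_apply (x : X3 Ω) : q₁ Ω x = x.fst := rfl
lemma q₂_apply (x : X3 Ω) : q₂ Ω x = x.snd.fst := rfl
lemma q₃_apply (x : X3 Ω) : q₃ Ω x = x.snd.snd := rfl

lemma q₁_mk (a : L2 Ω) (b : L2vec Ω) (c : L2bd Ω) :
    q₁ Ω (WithLp.toLp 2 (a, WithLp.toLp 2 (b, c))) = a := rfl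
lemma q₂_mk (a : L2 Ω) (b : L2vec Ω) (c : L2bd Ω) :
    q₂ Ω (WithLp.toLp 2 (a, WithLp.toLp 2 (b, c))) = b := rfl
lemma q₃_mk (a : L2 Ω) (b : L2vec Ω) (c : L2bd Ω) :
    q₃ Ω (WithLp.toLp 2 (a, WithLp.toLp 2 (b, c))) = c := rfl

lemma isClosed_coercive (a b c : ℝ) : IsClosed {x : X3 Ω | c * ‖x‖ ^ 2 ≤
    a * ‖q₁ Ω x‖ ^ 2 + ‖q₂ Ω x‖ ^ 2 + b * ‖q₃ Ω x‖ ^ 2} := by
  have h1 : Continuous (fun x : X3 Ω => ‖q₁ Ω x‖) := continuous_norm.comp (q₁ Ω).continuous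
  have h2 : Continuous (fun x : X3 Ω => ‖q₂ Ω x‖) := continuous_norm.comp (q₂ Ω).continuous
  have h3 : Continuous (fun x : X3 Ω => ‖q₃ Ω x‖) := continuous_norm.comp (q₃ Ω).continuous
  have h4 : Continuous (fun x : X3 Ω => ‖x‖) := continuous_norm
  exact isClosed_le ((h4.pow 2).const_mul c |> fun h => h)
    ((((h1.pow 2).const_mul a).add (h2.pow 2)).add ((h3.pow 2).const_mul b))

lemma coercive_closure {t β c : ℝ}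
    (hcφ : ∀ φ : E (d + 1) → ℂ, IsTest φ →
      c * ((∫ x in Ω, ‖φ x‖ ^ 2) + (∫ x in Ω, ‖grad φ x‖ ^ 2) + ∫ x, ‖φ x‖ ^ 2 ∂(surf Ω)) ≤
      (-t) * (∫ x in Ω, ‖φ x‖ ^ 2) + (∫ x in Ω, ‖grad φ x‖ ^ 2) -
        β * ∫ x, ‖φ x‖ ^ 2 ∂(surf Ω)) {x : X3 Ω} (hx : x ∈ (S0 Ω).topologicalClosure) :
    c * ‖x‖ ^ 2 ≤ (-t) * ‖q₁ Ω x‖ ^ 2 + ‖q₂ Ω x‖ ^ 2 + (-β) * ‖q₃ Ω x‖ ^ 2 := by
  have hsub : ((S0 Ω : Submodule ℂ (X3 Ω)) : Set (X3 Ω)) ⊆ {x : X3 Ω | c * ‖x‖ ^ 2 ≤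
      (-t) * ‖q₁ Ω x‖ ^ 2 + ‖q₂ Ω x‖ ^ 2 + (-β) * ‖q₃ Ω x‖ ^ 2} := by
    rintro x ⟨φ, hφ, h1, h2, h3⟩
    simp only [mem_setOf_eq, q₁_apply, q₂_apply, q₃_apply]
    rw [WithLp.prod_norm_sq_eq_of_L2, WithLp.prod_norm_sq_eq_of_L2, norm_toLp_sq h1,
      norm_toLp_sq h2, norm_toLp_sq h3]
    have := hcφ φ hφ
    linarith
  exact closure_minimal hsub (isClosed_coercive _ _ _) hx



lemma completeVV : CompleteSpace ((S0 Ω).topologicalClosure) :=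
  (S0 Ω).isClosed_topologicalClosure.completeSpace_coe

/-- Resolvent on the form domain. -/
lemma exists_resolvent {t β c : ℝ} (hc : 0 < c)
    (hcφ : ∀ φ : E (d + 1) → ℂ, IsTest φ →
      c * ((∫ x in Ω, ‖φ x‖ ^ 2) + (∫ x in Ω, ‖grad φ x‖ ^ 2) + ∫ x, ‖φ x‖ ^ 2 ∂(surf Ω)) ≤
      (-t) * (∫ x in Ω, ‖φ x‖ ^ 2) + (∫ x in Ω, ‖grad φ x‖ ^ 2) -
        β * ∫ x, ‖φ x‖ ^ 2 ∂(surf Ω)) :
    ∃ R : L2 Ω →L[ℂ] L2 Ω, ∀ u w : L2 Ω,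
      (∃ x ∈ (S0 Ω).topologicalClosure, q₁ Ω x = u ∧ ∀ y ∈ (S0 Ω).topologicalClosure,
        ((-t : ℝ) : ℂ) * inner ℂ (q₁ Ω y) (q₁ Ω x) + inner ℂ (q₂ Ω y) (q₂ Ω x) +
          ((-β : ℝ) : ℂ) * inner ℂ (q₃ Ω y) (q₃ Ω x) = inner ℂ (q₁ Ω y) w) ↔ u = R w := by
  have := completeVV (Ω := Ω)
  exact submodule_resolvent (S0 Ω).topologicalClosure (q₁ Ω) (q₂ Ω) (q₃ Ω) hc
    (fun x hx => coercive_closure hcφ hx)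

end Ω

end Pool.Agent.Helper46.Robin
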