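import Pool.Agent.Helper46.RobinF

open MeasureTheory Set Filter Topology
open scoped ENNReal NNReal ContDiff

namespace Pool.Agent.Helper46.Robin

section Ω

variable {d : ℕ} {Ω : Set (E (d + 1))}

lemma inner_toLp_right {α F : Type*} [MeasurableSpace α] {μ : Measure α} [NormedAddCommGroup F]
    [InnerProductSpace ℂ F] {φ : α → F} (h : MemLp φ 2 μ) (y : Lp F 2 μ) :
    (inner ℂ y (h.toLp φ) : ℂ) = ∫ x, inner ℂ (y x) (φ x) ∂μ := by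
  rw [L2.inner_def]
  apply integral_congr_ae
  filter_upwards [h.coeFn_toLp] with x hx
  rw [hx]

lemma inner_toLp_left {α F : Type*} [MeasurableSpace α] {μ : Measure α} [NormedAddCommGroup F]
    [InnerProductSpace ℂ F] {φ : α → F} (h : MemLp φ 2 μ) (y : Lp F 2 μ) :
    (inner ℂ (h.toLp φ) y : ℂ) = ∫ x, inner ℂ (φ x) (y x) ∂μ := by
  rw [L2.inner_def]
  apply integral_congr_ae
  filter_upwards [h.coeFn_toLp] with x hx
  rw [hx]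

lemma inner_add_smul {w : E (d + 1) → ℂ} (hw : MemLp w 2 (volume.restrict Ω))
    {v u : E (d + 1) → ℂ} (hv : MemLp v 2 (volume.restrict Ω)) (hu : MemLp u 2 (volume.restrict Ω))
    (z : ℂ) :
    ∫ x in Ω, inner ℂ (v x) ((w + z • u) x) =
      inner ℂ (hv.toLp v) (hw.toLp w) + z * inner ℂ (hv.toLp v) (hu.toLp u) := by
  have h1 : ∫ x in Ω, inner ℂ (v x) ((w + z • u) x) =
      inner ℂ (hv.toLp v) ((hw.add (hu.const_smul z)).toLp (w + z • u)) := by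
    rw [L2.inner_def]
    apply integral_congr_ae
    filter_upwards [hv.coeFn_toLp, (hw.add (hu.const_smul z)).coeFn_toLp] with x h1 h2
    rw [h1, h2]
  rw [h1, MemLp.toLp_add hw (hu.const_smul z), MemLp.toLp_const_smul, inner_add_right,
    inner_smul_right]

lemma inner_toLp_both {α F : Type*} [MeasurableSpace α] {μ : Measure α} [NormedAddCommGroup F]
    [InnerProductSpace ℂ F] {φ ψ : α → F} (h : MemLp φ 2 μ) (h' : MemLp ψ 2 μ) :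
    (inner ℂ (h.toLp φ) (h'.toLp ψ) : ℂ) = ∫ x, inner ℂ (φ x) (ψ x) ∂μ := by
  rw [L2.inner_def]
  apply integral_congr_ae
  filter_upwards [h.coeFn_toLp, h'.coeFn_toLp] with x hx hx'
  rw [hx, hx']

lemma forward {t β : ℝ} (hM : ∀ φ : E (d + 1) → ℂ, IsTest φ → MemLp φ 2 (surf Ω))
    {u w : E (d + 1) → ℂ} (hw : MemLp w 2 (volume.restrict Ω))
    (hu : MemLp u 2 (volume.restrict Ω))
    (h : RobinRel (-β) Ω u (w + (t : ℂ) • u)) :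
    (∃ x ∈ (S0 Ω).topologicalClosure, q₁ Ω x = hu.toLp u ∧ ∀ y ∈ (S0 Ω).topologicalClosure,
        ((-t : ℝ) : ℂ) * inner ℂ (q₁ Ω y) (q₁ Ω x) + inner ℂ (q₂ Ω y) (q₂ Ω x) +
          ((-β : ℝ) : ℂ) * inner ℂ (q₃ Ω y) (q₃ Ω x) = inner ℂ (q₁ Ω y) (hw.toLp w)) := by
  obtain ⟨-, g, τ, hg, hτ, hform⟩ := h
  refine ⟨_, mem_closure_of_isTrace hM hu hg.2.1 hτ.1 hτ, q₁_mk _ _ _, ?_⟩
  intro y hy
  have h1 := hform (q₁ Ω y) (q₂ Ω y) (q₃ Ω y) (isH1_of_mem_closure hy)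
    (isTrace_of_mem_closure hy)
  rw [inner_add_smul hw (Lp.memLp _) hu, Lp.toLp_coeFn, ← inner_toLp_right hg.2.1,
    ← inner_toLp_right hτ.1] at h1
  rw [q₁_mk (hu.toLp u) (hg.2.1.toLp g) (hτ.1.toLp τ), q₂_mk (hu.toLp u) (hg.2.1.toLp g) (hτ.1.toLp τ),
    q₃_mk (hu.toLp u) (hg.2.1.toLp g) (hτ.1.toLp τ)]
  push_cast at h1 ⊢
  linear_combination h1

lemma backward {t β : ℝ} (hM : ∀ φ : E (d + 1) → ℂ, IsTest φ → MemLp φ 2 (surf Ω))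
    {w : E (d + 1) → ℂ} (hw : MemLp w 2 (volume.restrict Ω)) {x : X3 Ω}
    (hx : x ∈ (S0 Ω).topologicalClosure)
    (hform : ∀ y ∈ (S0 Ω).topologicalClosure,
        ((-t : ℝ) : ℂ) * inner ℂ (q₁ Ω y) (q₁ Ω x) + inner ℂ (q₂ Ω y) (q₂ Ω x) +
          ((-β : ℝ) : ℂ) * inner ℂ (q₃ Ω y) (q₃ Ω x) = inner ℂ (q₁ Ω y) (hw.toLp w)) :
    RobinRel (-β) Ω (q₁ Ω x) (w + (t : ℂ) • (q₁ Ω x : E (d + 1) → ℂ)) := by
  refine ⟨hw.add ((Lp.memLp _).const_smul _), q₂ Ω x, q₃ Ω x, isH1_of_mem_closure hx,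
    isTrace_of_mem_closure hx, ?_⟩
  intro v g' τ' hg' hτ'
  have h1 := hform _ (mem_closure_of_isTrace hM hg'.1 hg'.2.1 hτ'.1 hτ')
  rw [q₁_mk (hg'.1.toLp v) (hg'.2.1.toLp g') (hτ'.1.toLp τ'),
    q₂_mk (hg'.1.toLp v) (hg'.2.1.toLp g') (hτ'.1.toLp τ'),
    q₃_mk (hg'.1.toLp v) (hg'.2.1.toLp g') (hτ'.1.toLp τ')] at h1
  rw [inner_add_smul hw hg'.1 (Lp.memLp _), Lp.toLp_coeFn, ← inner_toLp_left hg'.2.1,
    ← inner_toLp_left hτ'.1]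
  push_cast at h1 ⊢
  linear_combination h1

/-- The spectrum below `-β²` is empty as soon as the shifted forms are coercive on test
functions. -/
theorem spectrum_of_coercive {β : ℝ}
    (hM : ∀ φ : E (d + 1) → ℂ, IsTest φ → MemLp φ 2 (surf Ω))
    (hco : ∀ m : ℝ, 0 < m → ∃ c : ℝ, 0 < c ∧ ∀ φ : E (d + 1) → ℂ, IsTest φ →
      c * ((∫ x in Ω, ‖φ x‖ ^ 2) + (∫ x in Ω, ‖grad φ x‖ ^ 2) + ∫ x, ‖φ x‖ ^ 2 ∂(surf Ω)) ≤
      (β ^ 2 + m) * (∫ x in Ω, ‖φ x‖ ^ 2) + (∫ x in Ω, ‖grad φ x‖ ^ 2) -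
        β * ∫ x, ‖φ x‖ ^ 2 ∂(surf Ω)) {t : ℝ} (ht : t < -β ^ 2) :
    (t : ℂ) ∉ robinSpectrum (-β) Ω := by
  obtain ⟨c, hc, hcφ⟩ := hco (-t - β ^ 2) (by linarith)
  have hm : β ^ 2 + (-t - β ^ 2) = -t := by ring
  rw [hm] at hcφ
  obtain ⟨R, hR⟩ := exists_resolvent hc hcφ
  intro hspec
  apply hspec
  refine ⟨‖R‖₊, fun w hw => ⟨?_, fun u hu => ?_⟩⟩
  · obtain ⟨x, hx, -, hform⟩ := (hR (R (hw.toLp w)) (hw.toLp w)).mpr rfl
    exact ⟨_, backward hM hw hx hform⟩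
  · have huL : MemLp u 2 (volume.restrict Ω) := by
      obtain ⟨-, g, τ, hg, -⟩ := hu
      exact hg.1
    have h1 := (hR (huL.toLp u) (hw.toLp w)).mp (forward hM hw huL hu)
    have h2 : ‖huL.toLp u‖ₑ ≤ ‖R‖₊ * ‖hw.toLp w‖ₑ := by
      rw [h1, enorm_eq_nnnorm, enorm_eq_nnnorm]
      exact_mod_cast R.le_opNNNorm (hw.toLp w)
    rwa [Lp.enorm_toLp, Lp.enorm_toLp] at h2

end Ω

end Pool.Agent.Helper46.Robin
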